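import Mathlib

set_option autoImplicit false

namespace Pool.Agent.LibRot

/-- Base labels: a shape (four shapes of cells) and a position `(i, j)` in a cell. -/
abbrev Base : Type := Fin 4 × Fin 3 × Fin 4

def c1 (s : Fin 4) : ℕ := if s = 2 ∨ s = 3 then 1 else 0
def c2 (s : Fin 4) : ℕ := if s = 3 then 1 else 0
def kap (s : Fin 4) : ℕ := if s = 0 then 0 else 1
/-- index of the top row of the cell of shape `s` in column `i` -/
def top (s : Fin 4) (i : Fin 3) : ℕ := if s = 3 then 2 else if i = 2 ∧ s ≠ 0 then 2 else 3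

def inR (b : Base) : Prop := b.2.2.val ≤ top b.1 b.2.1
instance (b : Base) : Decidable (inR b) := by unfold inR; infer_instance

/-- the label of a promoted vertex: position `(0, 0)` -/
def IsP (b : Base) : Prop := b.2.1 = 0 ∧ b.2.2 = 0
instance (b : Base) : Decidable (IsP b) := by unfold IsP; infer_instance

/-- adjacency of base labels in direction one -/
def Adj1 (b b' : Base) : Prop :=
  inR b ∧ inR b' ∧
    ((b.2.1 ≠ 2 ∧ b.2.2.val ≤ top b.1 (b.2.1 + 1) ∧ b' = (b.1, b.2.1 + 1, b.2.2)) ∨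
     (b.2.1 = 2 ∧ b'.2.1 = 0 ∧ b'.2.2.val = b.2.2.val + c1 b.1 ∧ kap b.1 = c1 b.1 + c2 b'.1) ∨
     (b.2.1 = 1 ∧ b.2.2 = 3 ∧ (b.1 = 1 ∨ b.1 = 2) ∧ b'.2.1 = 0 ∧ b'.2.2 = 0))
instance (b b' : Base) : Decidable (Adj1 b b') := by unfold Adj1; infer_instance

/-- adjacency of base labels in direction two -/
def Adj2 (b b' : Base) : Prop :=
  inR b ∧ inR b' ∧
    ((b.2.2.val < top b.1 b.2.1 ∧ b' = (b.1, b.2.1, b.2.2 + 1)) ∨
     (b.2.2.val = top b.1 b.2.1 ∧ b.2.1 ≠ 2 ∧ b'.2.1 = b.2.1 + 1 ∧ b'.2.2 = 0 ∧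
        kap b.1 = c2 b.1 + c1 b'.1) ∨
     (b.2.2.val = top b.1 b.2.1 ∧ b.2.1 = 2 ∧ b'.2.1 = 0 ∧ b'.2.2 = 0))
instance (b b' : Base) : Decidable (Adj2 b b') := by unfold Adj2; infer_instance

/-- carries -/
def c1b (b : Base) : ℕ :=
  if b.2.1 = 2 ∨ (b.2.1 = 1 ∧ b.2.2 = 3 ∧ (b.1 = 1 ∨ b.1 = 2)) then 1 else 0
def c2b (b : Base) : ℕ := if b.2.1 = 2 ∧ b.2.2.val = top b.1 2 then 1 else 0
/-- the shape of the cell of a vertex whose base label is `b` -/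
def sh (b : Base) : Fin 4 :=
  if c2b b = 1 then 3 else if c1b b = 1 then 2 else
    if (b.2.1 = 1 ∧ b.2.2 = 3 ∧ b.1 = 0) ∨ (b.2.1 = 1 ∧ b.2.2 = 2 ∧ b.1 ≠ 0) then 1 else 0

/-- the wire through port `d` of a site with base label `b` (`0` = no wire).  Ports:
`0` = plus one, `1` = minus one, `2` = plus two, `3` = minus two. -/
def wire (b : Base) (d : Fin 4) : Fin 5 :=
  if b.2.1 = 1 ∧ b.2.2 = 0 then (if d = 0 ∨ d = 1 then 1 else 0)
  else if b.2.1 = 2 ∧ b.2.2 = 0 then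
    (if c1 b.1 = 0 then (if d = 0 ∨ d = 1 then 1 else 0) else (if d = 1 ∨ d = 3 then 1 else 0))
  else if b.2.1 = 0 ∧ b.2.2.val < top b.1 0 then (if d = 2 ∨ d = 3 then 2 else 0)
  else if b.2.1 = 0 then (if d = 1 ∨ d = 3 then 2 else 0)
  else if b.2.1 = 2 ∧ b.2.2.val = top b.1 2 then (if d = 0 ∨ d = 2 then 3 else 0)
  else if b.2.1 = 1 ∧ b.2.2 = 3 ∧ (b.1 = 1 ∨ b.1 = 2) then (if d = 0 ∨ d = 2 then 4 else 0)
  else 0

/-- if port `d` of a site leads to a promoted vertex: which of the four next-level labels known to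
the site (`0` own vertex, `1` right, `2` up, `3` up-right) is the one of that vertex. -/
def claim (b : Base) (d : Fin 4) : Option (Fin 4) :=
  if b.2.1 = 1 ∧ b.2.2 = 0 ∧ d = 1 then some 0
  else if b.2.1 = 0 ∧ b.2.2 = 1 ∧ d = 3 then some 0
  else if b.2.1 = 2 ∧ b.2.2 = 0 ∧ c1 b.1 = 0 ∧ d = 0 then some 1
  else if b.2.1 = 1 ∧ b.2.2 = 3 ∧ (b.1 = 1 ∨ b.1 = 2) ∧ d = 0 then some 3
  else if b.2.1 = 2 ∧ b.2.2.val = top b.1 2 ∧ d = 2 then some 3
  else none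

theorem adj1_step : ∀ b b' : Base, (Adj1 b b' ∧ b.2.1 ≠ 2 ∧ b.2.2.val ≤ top b.1 (b.2.1 + 1)) →
    b' = (b.1, b.2.1 + 1, b.2.2) := by decide +kernel

theorem adj2_step : ∀ b b' : Base, (Adj2 b b' ∧ b.2.2.val < top b.1 b.2.1) →
    b' = (b.1, b.2.1, b.2.2 + 1) := by decide +kernel

theorem adj1_irrefl : ∀ b : Base, ¬ Adj1 b b := by decide +kernel
theorem adj2_irrefl : ∀ b : Base, ¬ Adj2 b b := by decide +kernel

theorem c1_sh : ∀ b : Base, inR b → c1 (sh b) = c1b b := by decide +kernel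
theorem c2_sh : ∀ b : Base, inR b → c2 (sh b) = c2b b := by decide +kernel
theorem kap_sh : ∀ b b' : Base, Adj2 b b' → kap (sh b) = c2b b + c1b b' := by decide +kernel

end Pool.Agent.LibRot
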