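import Pool.Agent.LibRot.Base

set_option autoImplicit false

namespace Pool.Agent.LibRot

theorem adj1_back : ∀ b b' : Base, (Adj1 b b' ∧ b'.2.1 ≠ 0) → b = (b'.1, b'.2.1 - 1, b'.2.2) := by
  decide +kernel
theorem adj2_back : ∀ b b' : Base, (Adj2 b b' ∧ b'.2.2 ≠ 0) → b = (b'.1, b'.2.1, b'.2.2 - 1) := by
  decide +kernel

/-- crossing to the right -/
theorem adj1_cross : ∀ b b' : Base, (Adj1 b b' ∧ b.2.1 = 2) →
    (b'.2.1 = 0 ∧ b'.2.2.val = b.2.2.val + c1 b.1 ∧ kap b.1 = c1 b.1 + c2 b'.1) := by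
  decide +kernel

/-- crossing up -/
theorem adj2_cross : ∀ b b' : Base,
    (Adj2 b b' ∧ b.2.2.val = top b.1 b.2.1 ∧ b.2.1 ≠ 2) →
    (b'.2.1 = b.2.1 + 1 ∧ b'.2.2 = 0 ∧ kap b.1 = c2 b.1 + c1 b'.1) := by
  decide +kernel

theorem adj2_corner : ∀ b b' : Base,
    (Adj2 b b' ∧ b.2.2.val = top b.1 b.2.1 ∧ b.2.1 = 2) → (b'.2.1 = 0 ∧ b'.2.2 = 0) := by
  decide +kernel

theorem adj1_corner : ∀ b b' : Base,
    (Adj1 b b' ∧ b.2.1 = 1 ∧ b.2.2 = 3 ∧ (b.1 = 1 ∨ b.1 = 2)) → (b'.2.1 = 0 ∧ b'.2.2 = 0) := by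
  decide +kernel

/-- what is to the left of a promoted vertex -/
theorem adj1_to_P : ∀ b b' : Base, (Adj1 b b' ∧ IsP b') →
    ((b.2.1 = 2 ∧ b.2.2 = 0 ∧ c1 b.1 = 0) ∨ (b.2.1 = 1 ∧ b.2.2 = 3 ∧ (b.1 = 1 ∨ b.1 = 2))) := by
  decide +kernel

/-- what is below a promoted vertex -/
theorem adj2_to_P : ∀ b b' : Base, (Adj2 b b' ∧ IsP b') →
    (b.2.1 = 2 ∧ b.2.2.val = top b.1 2) := by
  decide +kernel

theorem adj1_left : ∀ b b' : Base, (Adj1 b b' ∧ b'.2.1 = 0 ∧ b'.2.2 ≠ 0) →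
    (b.2.1 = 2 ∧ b'.2.2.val = b.2.2.val + c1 b.1 ∧ kap b.1 = c1 b.1 + c2 b'.1) := by
  decide +kernel

theorem adj2_below : ∀ b b' : Base, (Adj2 b b' ∧ b'.2.1 ≠ 0 ∧ b'.2.2 = 0) →
    (b.2.1 = b'.2.1 - 1 ∧ b.2.1 ≠ 2 ∧ b.2.2.val = top b.1 b.2.1 ∧
      kap b.1 = c2 b.1 + c1 b'.1) := by
  decide +kernel

theorem c1_cases : ∀ s : Fin 4, c1 s = 0 ∨ c1 s = 1 := by decide
theorem c2_cases : ∀ s : Fin 4, c2 s = 0 ∨ c2 s = 1 := by decide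
theorem top0 : ∀ s : Fin 4, top s 0 + c2 s = 3 := by decide
theorem top1 : ∀ s : Fin 4, top s 1 + c2 s = 3 := by decide
theorem top2 : ∀ s : Fin 4, top s 2 + kap s = 3 := by decide
theorem two_le_top : ∀ (s : Fin 4) (i : Fin 3), 2 ≤ top s i := by decide
theorem top_le_three : ∀ (s : Fin 4) (i : Fin 3), top s i ≤ 3 := by decide
theorem s12 : ∀ s : Fin 4, (s = 1 ∨ s = 2) → c2 s = 0 ∧ kap s = 1 := by decide
theorem s12' : ∀ s : Fin 4, (kap s = 1 ∧ c2 s = 0) → (s = 1 ∨ s = 2) := by decide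

end Pool.Agent.LibRot
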