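import Mathlib

set_option autoImplicit false

namespace Pool.Agent.LibRot

theorem exists_lam : ∃ l : ℝ, (877 / 10000 < l ∧ l < 878 / 10000) ∧ l * (3 - l) * (4 - l) = 1 := by
  have hc : ContinuousOn (fun l : ℝ => l * (3 - l) * (4 - l))
      (Set.Icc (877 / 10000 : ℝ) (878 / 10000)) := by fun_prop
  have h := intermediate_value_Ioo (by norm_num : (877 / 10000 : ℝ) ≤ 878 / 10000) hc
  obtain ⟨l, hl, he⟩ := h (show (1 : ℝ) ∈ Set.Ioo _ _ by constructor <;> norm_num)
  exact ⟨l, hl, he⟩

/-- the number `λ ≈ 0.08777`, a root of `λ (3 - λ) (4 - λ) = 1` -/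
noncomputable def lam : ℝ := exists_lam.choose

/-- the number `α = λ (4 - λ) = 1 / (3 - λ) ≈ 0.3434` -/
noncomputable def alp : ℝ := lam * (4 - lam)

theorem lam_gt : 877 / 10000 < lam := exists_lam.choose_spec.1.1
theorem lam_lt : lam < 878 / 10000 := exists_lam.choose_spec.1.2
theorem lam_eq : lam * (3 - lam) * (4 - lam) = 1 := exists_lam.choose_spec.2

theorem lam_sq : lam * lam = 4 * lam - alp := by unfold alp; ring
theorem lam_alp : lam * alp = 3 * alp - 1 := by
  have := lam_eq
  unfold alp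
  nlinarith [this]

theorem alp_gt : 34310 / 100000 < alp := by
  have h1 := lam_gt; have h2 := lam_lt
  unfold alp
  nlinarith
theorem alp_lt : alp < 34350 / 100000 := by
  have h1 := lam_gt; have h2 := lam_lt
  unfold alp
  nlinarith

end Pool.Agent.LibRot
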