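import Pool.Agent.LibRot.Tile
import Pool.Agent.LibRot.Facts
import Pool.Agent.LibRot.Num

set_option autoImplicit false

namespace Pool.Agent.LibRot

open Classical in
/-- shape of the cell with parameter `t` -/
noncomputable def shape (t : ℝ) : Fin 4 :=
  if 1 - lam ≤ t then 3 else if 1 - alp ≤ t then 2 else if 1 - alp - lam ≤ t then 1 else 0

open Classical in
noncomputable def idx (θ : ℝ) : Fin 3 := if θ < alp then 0 else if θ < 2 * alp then 1 else 2

noncomputable def rem1 (θ : ℝ) : ℝ := θ - (idx θ).val * alp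

open Classical in
noncomputable def jdx (θ : ℝ) : Fin 4 :=
  if rem1 θ < lam then 0 else if rem1 θ < 2 * lam then 1 else if rem1 θ < 3 * lam then 2 else 3

/-- the parameter of the cell -/
noncomputable def cell (θ : ℝ) : ℝ := (rem1 θ - (jdx θ).val * lam) / lam

/-- the base label -/
noncomputable def bs (θ : ℝ) : Base := (shape (cell θ), idx θ, jdx θ)

open Classical in
noncomputable def rot1 (t : ℝ) : ℝ := if t + alp < 1 then t + alp else t + alp - 1
open Classical in
noncomputable def rot2 (t : ℝ) : ℝ := if t + lam < 1 then t + lam else t + lam - 1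
open Classical in
noncomputable def unrot1 (t : ℝ) : ℝ := if alp ≤ t then t - alp else t - alp + 1
open Classical in
noncomputable def unrot2 (t : ℝ) : ℝ := if lam ≤ t then t - lam else t - lam + 1

/-- the unit interval -/
def I (t : ℝ) : Prop := 0 ≤ t ∧ t < 1

theorem rot1_I {t : ℝ} (h : I t) : I (rot1 t) := by
  have := alp_gt; have := alp_lt; obtain ⟨h1, h2⟩ := h
  unfold rot1; split_ifs <;> constructor <;> linarith
theorem rot2_I {t : ℝ} (h : I t) : I (rot2 t) := by
  have := lam_gt; have := lam_lt; obtain ⟨h1, h2⟩ := h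
  unfold rot2; split_ifs <;> constructor <;> linarith
theorem unrot1_rot1 {t : ℝ} (h : I t) : unrot1 (rot1 t) = t := by
  have := alp_gt; have := alp_lt; obtain ⟨h1, h2⟩ := h
  unfold unrot1 rot1
  split_ifs <;> linarith
theorem unrot2_rot2 {t : ℝ} (h : I t) : unrot2 (rot2 t) = t := by
  have := lam_gt; have := lam_lt; obtain ⟨h1, h2⟩ := h
  unfold unrot2 rot2
  split_ifs <;> linarith
theorem rot1_unrot1 {t : ℝ} (h : I t) : rot1 (unrot1 t) = t := by
  have := alp_gt; have := alp_lt; obtain ⟨h1, h2⟩ := h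
  unfold unrot1 rot1
  split_ifs <;> linarith
theorem rot2_unrot2 {t : ℝ} (h : I t) : rot2 (unrot2 t) = t := by
  have := lam_gt; have := lam_lt; obtain ⟨h1, h2⟩ := h
  unfold unrot2 rot2
  split_ifs <;> linarith
theorem unrot1_I {t : ℝ} (h : I t) : I (unrot1 t) := by
  have := alp_gt; have := alp_lt; obtain ⟨h1, h2⟩ := h
  unfold unrot1; split_ifs <;> constructor <;> linarith
theorem unrot2_I {t : ℝ} (h : I t) : I (unrot2 t) := by
  have := lam_gt; have := lam_lt; obtain ⟨h1, h2⟩ := h
  unfold unrot2; split_ifs <;> constructor <;> linarith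
theorem rot_comm {t : ℝ} (h : I t) : rot1 (rot2 t) = rot2 (rot1 t) := by
  have := lam_gt; have := lam_lt; have := alp_gt; have := alp_lt; obtain ⟨h1, h2⟩ := h
  unfold rot1 rot2
  split_ifs <;> linarith

/-- carries of a shape -/
theorem rot1_eq {t : ℝ} (h : I t) : rot1 t = t + alp - c1 (shape t) := by
  have := lam_gt; have := lam_lt; have := alp_gt; have := alp_lt; obtain ⟨h1, h2⟩ := h
  unfold rot1 shape c1
  split_ifs <;> simp_all <;> linarith

theorem rot2_eq {t : ℝ} (h : I t) : rot2 t = t + lam - c2 (shape t) := by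
  have := lam_gt; have := lam_lt; have := alp_gt; have := alp_lt; obtain ⟨h1, h2⟩ := h
  unfold rot2 shape c2
  split_ifs <;> simp_all <;> linarith

theorem rot12_eq {t : ℝ} (h : I t) : rot1 (rot2 t) = t + alp + lam - kap (shape t) := by
  have := lam_gt; have := lam_lt; have := alp_gt; have := alp_lt; obtain ⟨h1, h2⟩ := h
  unfold rot1 rot2 shape kap
  split_ifs <;> simp_all <;> linarith

theorem kap_rot1 {t : ℝ} (h : I t) : kap (shape t) = c1 (shape t) + c2 (shape (rot1 t)) := by
  have e1 := rot1_eq h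
  have e2 := rot2_eq (rot1_I h)
  have e3 := rot12_eq h
  rw [rot_comm h, e2, e1] at e3
  have : (kap (shape t) : ℝ) = c1 (shape t) + c2 (shape (t + alp - c1 (shape t))) := by linarith
  rw [e1]
  exact_mod_cast this

theorem kap_rot2 {t : ℝ} (h : I t) : kap (shape t) = c2 (shape t) + c1 (shape (rot2 t)) := by
  have e1 := rot2_eq h
  have e2 := rot1_eq (rot2_I h)
  have e3 := rot12_eq h
  rw [e2, e1] at e3
  have : (kap (shape t) : ℝ) = c2 (shape t) + c1 (shape (t + lam - c2 (shape t))) := by linarith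
  rw [e1]
  exact_mod_cast this

/-- `θ` has position `(i, j)` in the cell with parameter `t` -/
structure Dec (θ : ℝ) (i : Fin 3) (j : Fin 4) (t : ℝ) : Prop where
  ht : I t
  hj : j.val ≤ top (shape t) i
  eq : θ = i.val * alp + j.val * lam + lam * t

theorem shape_ne3 {t : ℝ} : shape t ≠ 3 ↔ t < 1 - lam := by
  unfold shape
  by_cases h : 1 - lam ≤ t
  · rw [if_pos h]
    exact ⟨fun h' => absurd rfl h', fun h' => by linarith⟩
  · rw [if_neg h]
    refine ⟨fun _ => by linarith, fun _ => ?_⟩
    split_ifs <;> decide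

theorem shape_eq0 {t : ℝ} : shape t = 0 ↔ t < 1 - alp - lam := by
  have := lam_gt; have := lam_lt; have := alp_gt; have := alp_lt
  unfold shape
  by_cases h : 1 - lam ≤ t
  · rw [if_pos h]
    exact ⟨fun h' => absurd h' (by decide), fun h' => by linarith⟩
  · rw [if_neg h]
    by_cases h' : 1 - alp ≤ t
    · rw [if_pos h']
      exact ⟨fun h' => absurd h' (by decide), fun h' => by linarith⟩
    · rw [if_neg h']
      by_cases h'' : 1 - alp - lam ≤ t
      · rw [if_pos h'']
        exact ⟨fun h' => absurd h' (by decide), fun h' => by linarith⟩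
      · rw [if_neg h'']
        exact ⟨fun _ => by linarith, fun _ => rfl⟩

theorem fin3_cases (i : Fin 3) : i = 0 ∨ i = 1 ∨ i = 2 := by fin_cases i <;> simp
theorem fin4_cases (j : Fin 4) : j = 0 ∨ j = 1 ∨ j = 2 ∨ j = 3 := by fin_cases j <;> simp

theorem v30 : ((0 : Fin 3).val : ℝ) = 0 := by norm_num
theorem v31 : ((1 : Fin 3).val : ℝ) = 1 := by norm_num
theorem v32 : ((2 : Fin 3).val : ℝ) = 2 := by
  have : (2 : Fin 3).val = 2 := rfl
  rw [this]; norm_num
theorem v40 : ((0 : Fin 4).val : ℝ) = 0 := by norm_num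
theorem v41 : ((1 : Fin 4).val : ℝ) = 1 := by norm_num
theorem v42 : ((2 : Fin 4).val : ℝ) = 2 := by
  have : (2 : Fin 4).val = 2 := rfl
  rw [this]; norm_num
theorem v43 : ((3 : Fin 4).val : ℝ) = 3 := by
  have : (3 : Fin 4).val = 3 := rfl
  rw [this]; norm_num

theorem top3_ne3 : ∀ s : Fin 4, ∀ i : Fin 3, 3 ≤ top s i → s ≠ 3 := by decide
theorem top3_eq0 : ∀ s : Fin 4, 3 ≤ top s 2 → s = 0 := by decide
theorem top3_of_ne : ∀ s : Fin 4, ∀ i : Fin 3, s ≠ 3 → i ≠ 2 → top s i = 3 := by decide
theorem top3_of_eq : ∀ s : Fin 4, s = 0 → top s 2 = 3 := by decide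

theorem lam_mul_bounds {t : ℝ} (h : I t) : 0 ≤ lam * t ∧ lam * t < lam := by
  have := lam_gt
  obtain ⟨h1, h2⟩ := h
  constructor
  · exact mul_nonneg (by linarith) h1
  · nlinarith

/-- values of `θ` in terms of the column -/
theorem Dec.range {θ : ℝ} {i : Fin 3} {j : Fin 4} {t : ℝ} (h : Dec θ i j t) :
    (i.val : ℝ) * alp ≤ θ ∧ θ < (i.val + 1 : ℝ) * alp ∧ θ < 1 := by
  have l1 := lam_gt; have l2 := lam_lt; have a1 := alp_gt; have a2 := alp_lt
  have sq := lam_sq; have la := lam_alp
  obtain ⟨ht, hj, he⟩ := h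
  have hb := lam_mul_bounds ht
  have h3 : j = 3 → lam * t < alp - 3 * lam := by
    rintro rfl
    have := shape_ne3.1 (top3_ne3 _ _ hj)
    have : lam * t < lam * (1 - lam) := mul_lt_mul_of_pos_left this (by linarith)
    linarith
  have h32 : j = 3 → i = 2 → lam * t < 1 - 2 * alp - 3 * lam := by
    rintro rfl rfl
    have := shape_eq0.1 (top3_eq0 _ hj)
    have : lam * t < lam * (1 - alp - lam) := mul_lt_mul_of_pos_left this (by linarith)
    linarith
  rcases fin3_cases i with rfl | rfl | rfl <;> rcases fin4_cases j with rfl | rfl | rfl | rfl <;>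
    simp only [v30, v31, v32, v40, v41, v42, v43] at he ⊢ <;>
    first
      | (refine ⟨by linarith, by linarith, by linarith⟩)
      | (have h3' := h3 rfl; refine ⟨by linarith, by linarith, by linarith⟩)
      | (have h3' := h32 rfl rfl; refine ⟨by linarith, by linarith, by linarith⟩)

theorem dec_self {θ : ℝ} (h : I θ) : Dec θ (idx θ) (jdx θ) (cell θ) := by
  have l1 := lam_gt; have l2 := lam_lt; have a1 := alp_gt; have a2 := alp_lt
  have sq := lam_sq; have la := lam_alp
  obtain ⟨h0, h1⟩ := h
  have hl : (0 : ℝ) < lam := by linarith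
  have hcell : lam * cell θ = rem1 θ - (jdx θ).val * lam := by
    unfold cell; field_simp
  have hr : 0 ≤ rem1 θ ∧ rem1 θ < alp ∧ (idx θ = 2 → rem1 θ < 1 - 2 * alp) := by
    unfold rem1 idx
    split_ifs with c c'
    · simp only [v30]; exact ⟨by linarith, by linarith, fun h => absurd h (by decide)⟩
    · simp only [v31]; exact ⟨by linarith, by linarith, fun h => absurd h (by decide)⟩
    · simp only [v32]; exact ⟨by linarith, by linarith, fun _ => by linarith⟩
  obtain ⟨hr0, hr1, hr2⟩ := hr
  have hj : (jdx θ).val * lam ≤ rem1 θ ∧ rem1 θ < (jdx θ).val * lam + lam := by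
    unfold jdx
    split_ifs with c c' c''
    · simp only [v40]; constructor <;> linarith
    · simp only [v41]; constructor <;> linarith
    · simp only [v42]; constructor <;> linarith
    · simp only [v43]; constructor <;> linarith
  have ht : I (cell θ) := by
    constructor
    · have : 0 ≤ lam * cell θ := by linarith
      exact nonneg_of_mul_nonneg_right this hl
    · have : lam * cell θ < lam * 1 := by linarith
      exact lt_of_mul_lt_mul_left this hl.le
  refine ⟨ht, ?_, ?_⟩
  · rcases fin4_cases (jdx θ) with hj' | hj' | hj' | hj'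
    · rw [hj']; exact Nat.zero_le _
    · rw [hj']; exact le_trans (by decide) (two_le_top _ _)
    · rw [hj']; exact two_le_top _ _
    · have h3 : ((jdx θ).val : ℝ) = 3 := by rw [hj']; exact v43
      have e3 : (jdx θ).val = 3 := by rw [hj']; rfl
      rw [e3]
      rw [h3] at hcell
      by_cases h2 : idx θ = 2
      · have h5 := hr2 h2
        have h6 : lam * cell θ < lam * (1 - alp - lam) := by linarith
        have h7 : cell θ < 1 - alp - lam := lt_of_mul_lt_mul_left h6 hl.le
        rw [h2, top3_of_eq _ (shape_eq0.2 h7)]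
      · have h6 : lam * cell θ < lam * (1 - lam) := by linarith
        have h7 : cell θ < 1 - lam := lt_of_mul_lt_mul_left h6 hl.le
        rw [top3_of_ne _ _ (shape_ne3.2 h7) h2]
  · rw [hcell]; unfold rem1; ring

theorem Dec.idx_eq {θ : ℝ} {i : Fin 3} {j : Fin 4} {t : ℝ} (h : Dec θ i j t) : idx θ = i := by
  have a1 := alp_gt
  obtain ⟨h1, h2, h3⟩ := h.range
  unfold idx
  rcases fin3_cases i with rfl | rfl | rfl
  · simp only [v30] at h1 h2; rw [if_pos (by linarith)]
  · simp only [v31] at h1 h2; rw [if_neg (by linarith), if_pos (by linarith)]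
  · simp only [v32] at h1 h2; rw [if_neg (by linarith), if_neg (by linarith)]

theorem Dec.jdx_eq {θ : ℝ} {i : Fin 3} {j : Fin 4} {t : ℝ} (h : Dec θ i j t) : jdx θ = j := by
  have l1 := lam_gt
  have hi := h.idx_eq
  have hr : rem1 θ = j.val * lam + lam * t := by
    unfold rem1; rw [hi]; rw [h.eq]; ring
  have hb := lam_mul_bounds h.ht
  unfold jdx
  rw [hr]
  rcases fin4_cases j with rfl | rfl | rfl | rfl
  · simp only [v40]; rw [if_pos (by linarith)]
  · simp only [v41]; rw [if_neg (by linarith), if_pos (by linarith)]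
  · simp only [v42]; rw [if_neg (by linarith), if_neg (by linarith), if_pos (by linarith)]
  · simp only [v43]; rw [if_neg (by linarith), if_neg (by linarith), if_neg (by linarith)]

theorem Dec.cell_eq {θ : ℝ} {i : Fin 3} {j : Fin 4} {t : ℝ} (h : Dec θ i j t) : cell θ = t := by
  have l1 := lam_gt
  have hi := h.idx_eq
  have hj := h.jdx_eq
  have hr : rem1 θ = j.val * lam + lam * t := by
    unfold rem1; rw [hi]; rw [h.eq]; ring
  unfold cell
  rw [hj, hr]
  field_simp
  ring

theorem Dec.bs_eq {θ : ℝ} {i : Fin 3} {j : Fin 4} {t : ℝ} (h : Dec θ i j t) :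
    bs θ = (shape t, i, j) := by
  unfold bs; rw [h.cell_eq, h.idx_eq, h.jdx_eq]

end Pool.Agent.LibRot
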