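import Pool.Agent.LibRot.Derive4
import Pool.Agent.LibRot.Num

set_option autoImplicit false

namespace Pool.Agent.LibRot

namespace Sys

/-- position of a site in its cell -/
noncomputable def off (b : Base) : ℝ := (b.2.1.val : ℝ) * alp + (b.2.2.val : ℝ) * lam

theorem off_nonneg (b : Base) : 0 ≤ off b := by
  have h1 := lam_gt; have h2 := alp_gt
  unfold off
  have : (0 : ℝ) ≤ (b.2.1.val : ℝ) := Nat.cast_nonneg _
  have : (0 : ℝ) ≤ (b.2.2.val : ℝ) := Nat.cast_nonneg _
  positivity

theorem off_le (b : Base) : off b ≤ 2 * alp + 3 * lam := by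
  have h1 := lam_gt; have h2 := alp_gt
  unfold off
  have h3 : (b.2.1.val : ℝ) ≤ 2 := by
    have : b.2.1.val ≤ 2 := by have := b.2.1.isLt; omega
    exact_mod_cast this
  have h4 : (b.2.2.val : ℝ) ≤ 3 := by
    have : b.2.2.val ≤ 3 := by have := b.2.2.isLt; omega
    exact_mod_cast this
  nlinarith

/-- approximate lifts -/
noncomputable def Lap : ℕ → ∀ {X : Type}, Sys X → X → ℝ
  | 0, _, _, _ => 0
  | n + 1, _, S, x => off (S.B x) + lam * Lap n S.derive (rtY (S := S) x)

theorem Lap_bound (n : ℕ) : ∀ {X : Type} (S : Sys X) (x : X), 0 ≤ Lap n S x ∧ Lap n S x ≤ 2 := by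
  have h1 := lam_gt; have h2 := lam_lt; have h3 := alp_lt
  induction n with
  | zero => intro X S x; simp [Lap]
  | succ n ih =>
    intro X S x
    obtain ⟨a, b⟩ := ih S.derive (rtY (S := S) x)
    have c := off_nonneg (S.B x)
    have d := off_le (S.B x)
    simp only [Lap]
    constructor
    · have : 0 ≤ lam * Lap n S.derive (rtY (S := S) x) := mul_nonneg (by linarith) a
      linarith
    · have : lam * Lap n S.derive (rtY (S := S) x) ≤ lam * 2 :=
        mul_le_mul_of_nonneg_left b (by linarith)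
      linarith

theorem Lap_mono (n : ℕ) : ∀ {X : Type} (S : Sys X) (x : X), Lap n S x ≤ Lap (n + 1) S x := by
  have h1 := lam_gt
  induction n with
  | zero => intro X S x; simpa [Lap] using (Lap_bound 1 S x).1
  | succ n ih =>
    intro X S x
    have := ih S.derive (rtY (S := S) x)
    change off (S.B x) + lam * Lap n S.derive (rtY (S := S) x) ≤
      off (S.B x) + lam * Lap (n + 1) S.derive (rtY (S := S) x)
    have : lam * Lap n S.derive (rtY (S := S) x) ≤ lam * Lap (n + 1) S.derive (rtY (S := S) x) :=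
      mul_le_mul_of_nonneg_left this (by linarith)
    linarith

/-- the lift -/
noncomputable def L {X : Type} (S : Sys X) (x : X) : ℝ := ⨆ n, Lap n S x

variable {X : Type}

theorem L_tendsto (S : Sys X) (x : X) :
    Filter.Tendsto (fun n => Lap n S x) Filter.atTop (nhds (L S x)) := by
  apply tendsto_atTop_ciSup (monotone_nat_of_le_succ fun n => Lap_mono n S x)
  exact ⟨2, by rintro _ ⟨n, rfl⟩; exact (Lap_bound n S x).2⟩

theorem L_bound (S : Sys X) (x : X) : 0 ≤ L S x ∧ L S x ≤ 2 :=
  ⟨ge_of_tendsto' (L_tendsto S x) fun n => (Lap_bound n S x).1,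
    le_of_tendsto' (L_tendsto S x) fun n => (Lap_bound n S x).2⟩

theorem L_eq (S : Sys X) (x : X) : L S x = off (S.B x) + lam * L S.derive (rtY (S := S) x) := by
  have h1 := (L_tendsto S x).comp (Filter.tendsto_add_atTop_nat 1)
  have h2 : Filter.Tendsto (fun n => off (S.B x) + lam * Lap n S.derive (rtY (S := S) x))
      Filter.atTop (nhds (off (S.B x) + lam * L S.derive (rtY (S := S) x))) :=
    ((L_tendsto S.derive _).const_mul lam).const_add _
  exact tendsto_nhds_unique h1 h2

theorem L_range (S : Sys X) (x : X) : off (S.B x) ≤ L S x ∧ L S x ≤ off (S.B x) + 2 * lam := by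
  have h := L_bound S.derive (rtY (S := S) x)
  have h1 := lam_gt
  rw [L_eq]
  constructor
  · have : 0 ≤ lam * L S.derive (rtY (S := S) x) := mul_nonneg (by linarith) h.1
    linarith
  · have : lam * L S.derive (rtY (S := S) x) ≤ lam * 2 :=
        mul_le_mul_of_nonneg_left h.2 (by linarith)
    linarith

theorem inR_B (S : Sys X) (x : X) : inR (S.B x) := (S.adj1 x).1

theorem off_mk (s : Fin 4) (i : Fin 3) (j : Fin 4) :
    off (s, i, j) = (i.val : ℝ) * alp + (j.val : ℝ) * lam := rfl

theorem derive_f1 (S : Sys X) (v : S.Y) : S.derive.f1 v = g1 v := rfl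
theorem derive_f2 (S : Sys X) (v : S.Y) : S.derive.f2 v = g2 v := rfl
theorem derive_B (S : Sys X) (v : S.Y) : S.derive.B v = VV v 0 := rfl

/-- root after a step inside a cell -/
theorem rtY_of_sft {x : X} {S : Sys X} (v : S.Y) {i : Fin 3} {n : ℕ} {hn : n < 4}
    (h : x = S.sft (i.val : ℤ) (n : ℤ) v.1) (hB : S.B x = (shp v, i, ⟨n, hn⟩)) :
    rtY (S := S) x = v := by
  apply Subtype.ext
  change rt (S := S) x = v.1
  unfold rt
  rw [hB, h, sft_sft]
  simp [sft_zero]

theorem fin3_succ : ∀ i : Fin 3, i ≠ 2 → (i + 1).val = i.val + 1 := by decide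

theorem f1_x (S : Sys X) (x : X) : S.f1 x =
    S.sft (((S.B x).2.1.val : ℤ) + 1) ((S.B x).2.2.val : ℤ) (rtY (S := S) x).1 := by
  have e := eq_sft_rt (S := S) x
  calc S.f1 x = S.f1 (S.sft ((S.B x).2.1.val : ℤ) ((S.B x).2.2.val : ℤ) (rtY (S := S) x).1) := by
        rw [← e]
    _ = _ := by
        rw [f1_eq, sft_sft]
        congr 1 <;> ring

theorem f2_x (S : Sys X) (x : X) : S.f2 x =
    S.sft ((S.B x).2.1.val : ℤ) (((S.B x).2.2.val : ℤ) + 1) (rtY (S := S) x).1 := by
  have e := eq_sft_rt (S := S) x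
  calc S.f2 x = S.f2 (S.sft ((S.B x).2.1.val : ℤ) ((S.B x).2.2.val : ℤ) (rtY (S := S) x).1) := by
        rw [← e]
    _ = _ := by
        rw [f2_eq, sft_sft]
        congr 1 <;> ring

theorem f1_inside (S : Sys X) (x : X) (hi : (S.B x).2.1 ≠ 2)
    (hj : (S.B x).2.2.val ≤ top (S.B x).1 ((S.B x).2.1 + 1)) :
    L S (S.f1 x) = L S x + alp := by
  have hb := adj1_step _ _ ⟨S.adj1 x, hi, hj⟩
  have hs := shp_rtY (S := S) x
  have e : S.f1 x = S.sft (((S.B x).2.1 + 1 : Fin 3).val : ℤ) ((S.B x).2.2.val : ℤ)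
      (rtY (S := S) x).1 := by
    conv_lhs => rw [eq_sft_rt (S := S) x]
    rw [f1_eq, sft_sft]
    have : (((S.B x).2.1 + 1 : Fin 3).val : ℤ) = ((S.B x).2.1.val : ℤ) + 1 := by
      generalize (S.B x).2.1 = i at hi
      fin_cases i
      · rfl
      · rfl
      · exact absurd rfl hi
    rw [this]
    congr 1 <;> ring
  have hr : rtY (S := S) (S.f1 x) = rtY (S := S) x :=
    rtY_of_sft (hn := (S.B x).2.2.isLt) _ e (by rw [hb, hs])
  rw [L_eq S (S.f1 x), L_eq S x, hr, hb]
  have : (((S.B x).2.1 + 1 : Fin 3).val : ℝ) = ((S.B x).2.1.val : ℝ) + 1 := by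
    rw [fin3_succ _ hi]; push_cast; ring
  simp only [off, this]
  ring

theorem f2_inside (S : Sys X) (x : X) (hj : (S.B x).2.2.val < top (S.B x).1 (S.B x).2.1) :
    L S (S.f2 x) = L S x + lam := by
  have hb := adj2_step _ _ ⟨S.adj2 x, hj⟩
  have hs := shp_rtY (S := S) x
  have ht := top_le_three (S.B x).1 (S.B x).2.1
  have ej : ((S.B x).2.2 + 1 : Fin 4).val = (S.B x).2.2.val + 1 := by
    generalize (S.B x).2.2 = j at hj
    have : j ≠ 3 := by
      rintro rfl
      have : ((3 : Fin 4).val) = 3 := rfl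
      omega
    fin_cases j
    · rfl
    · rfl
    · rfl
    · exact absurd rfl this
  have e : S.f2 x = S.sft ((S.B x).2.1.val : ℤ) (((S.B x).2.2 + 1 : Fin 4).val : ℤ)
      (rtY (S := S) x).1 := by
    conv_lhs => rw [eq_sft_rt (S := S) x]
    rw [f2_eq, sft_sft, ej]
    congr 1 <;> push_cast <;> ring
  have hr : rtY (S := S) (S.f2 x) = rtY (S := S) x :=
    rtY_of_sft (hn := ((S.B x).2.2 + 1 : Fin 4).isLt) _ e (by rw [hb, hs])
  rw [L_eq S (S.f2 x), L_eq S x, hr, hb]
  simp only [off, ej]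
  push_cast
  ring

theorem f1_right (S : Sys X) (x : X) (hi : (S.B x).2.1 = 2) :
    rtY (S := S) (S.f1 x) = g1 (rtY (S := S) x) ∧
      off (S.B (S.f1 x)) = off (S.B x) - 2 * alp + (c1 (S.B x).1 : ℝ) * lam := by
  obtain ⟨h1, h2, h3⟩ := adj1_cross _ _ ⟨S.adj1 x, hi⟩
  have hs := shp_rtY (S := S) x
  constructor
  · apply Subtype.ext
    change S.sft _ _ (S.f1 x) = S.sft 3 (-(c1 (shp (rtY (S := S) x)) : ℤ)) (rtY (S := S) x).1
    have e0 : ((0 : Fin 3).val : ℤ) = 0 := rfl
    have e2 : ((2 : Fin 3).val : ℤ) = 2 := rfl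
    rw [hs, h1, h2, f1_x, sft_sft, hi, e0, e2]
    congr 1
    push_cast
    ring
  · have h1' : ((S.B (S.f1 x)).2.1.val : ℝ) = 0 := by rw [h1]; simp
    have h2' : ((S.B (S.f1 x)).2.2.val : ℝ) = (S.B x).2.2.val + c1 (S.B x).1 := by
      rw [h2]; push_cast; ring
    have h3' : ((S.B x).2.1.val : ℝ) = 2 := by rw [hi]; rfl
    simp only [off, h1', h2', h3']
    ring

theorem f2_up (S : Sys X) (x : X) (hi : (S.B x).2.1 ≠ 2)
    (hj : (S.B x).2.2.val = top (S.B x).1 (S.B x).2.1) :
    rtY (S := S) (S.f2 x) = g2 (rtY (S := S) x) ∧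
      off (S.B (S.f2 x)) = off (S.B x) + alp - (3 - (c2 (S.B x).1 : ℝ)) * lam := by
  obtain ⟨h1, h2, h3⟩ := adj2_cross _ _ ⟨S.adj2 x, hj, hi⟩
  have hs := shp_rtY (S := S) x
  have ei : (((S.B x).2.1 + 1 : Fin 3).val) = (S.B x).2.1.val + 1 := by
    generalize (S.B x).2.1 = i at hi
    fin_cases i
    · rfl
    · rfl
    · exact absurd rfl hi
  have ht : top (S.B x).1 (S.B x).2.1 + c2 (S.B x).1 = 3 := by
    generalize (S.B x).2.1 = i at hi
    fin_cases i
    · exact top0 _
    · exact top1 _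
    · exact absurd rfl hi
  constructor
  · apply Subtype.ext
    change S.sft _ _ (S.f2 x) = S.sft (-1) (4 - (c2 (shp (rtY (S := S) x)) : ℤ)) (rtY (S := S) x).1
    have e0 : ((0 : Fin 4).val : ℤ) = 0 := rfl
    rw [hs, h1, h2, ei, f2_x, sft_sft, e0]
    congr 1
    · push_cast; ring
    · omega
  · have h1' : ((S.B (S.f2 x)).2.1.val : ℝ) = (S.B x).2.1.val + 1 := by
      rw [h1, ei]; push_cast; ring
    have h2' : ((S.B (S.f2 x)).2.2.val : ℝ) = 0 := by rw [h2]; simp
    have h3' : ((S.B x).2.2.val : ℝ) = 3 - c2 (S.B x).1 := by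
      rw [hj]
      have : (top (S.B x).1 (S.B x).2.1 : ℝ) + (c2 (S.B x).1 : ℝ) = 3 := by exact_mod_cast ht
      linarith
    simp only [off, h1', h2', h3']
    ring

/-- the root of a promoted vertex is itself -/
theorem rtY_self (S : Sys X) (v : S.Y) : rtY (S := S) v.1 = v := by
  apply rtY_of_sft v (i := 0) (n := 0) (hn := by norm_num)
  · simp [sft_zero]
  · exact yB v

theorem off_P (S : Sys X) (v : S.Y) : off (S.B v.1) = 0 := by
  rw [yB v]; simp [off]

theorem adj1_cases : ∀ b : Base, inR b → (b.2.1 ≠ 2 ∧ b.2.2.val ≤ top b.1 (b.2.1 + 1)) ∨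
    b.2.1 = 2 ∨ (b.2.1 = 1 ∧ b.2.2 = 3 ∧ (b.1 = 1 ∨ b.1 = 2)) := by decide +kernel

theorem adj2_cases : ∀ b : Base, inR b → (b.2.2.val < top b.1 b.2.1) ∨
    (b.2.1 ≠ 2 ∧ b.2.2.val = top b.1 b.2.1) ∨
    (b.2.1 = 2 ∧ b.2.2.val = top b.1 2) := by decide +kernel

theorem c1b_inside : ∀ b : Base, b.2.1 ≠ 2 ∧ b.2.2.val ≤ top b.1 (b.2.1 + 1) → c1b b = 0 := by
  decide +kernel
theorem c1b_else : ∀ b : Base, b.2.1 = 2 ∨ (b.2.1 = 1 ∧ b.2.2 = 3 ∧ (b.1 = 1 ∨ b.1 = 2)) →
    c1b b = 1 := by decide +kernel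
theorem c2b_else : ∀ b : Base, b.2.1 ≠ 2 ∨ b.2.2.val < top b.1 b.2.1 → c2b b = 0 := by
  decide +kernel
theorem c2b_corner : ∀ b : Base, b.2.1 = 2 ∧ b.2.2.val = top b.1 2 → c2b b = 1 := by
  decide +kernel

/-- errors -/
noncomputable def e1 (S : Sys X) (x : X) : ℝ := L S (S.f1 x) - (L S x + alp - c1b (S.B x))
noncomputable def e2 (S : Sys X) (x : X) : ℝ := L S (S.f2 x) - (L S x + lam - c2b (S.B x))

theorem L_corner (S : Sys X) (x : X) (z : X) (hz : z = (g1 (g2 (rtY (S := S) x))).1) :
    L S z = lam * (L S.derive (rtY (S := S) x) + lam + alp - kap (S.B x).1 +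
      e2 S.derive (rtY (S := S) x) + e1 S.derive (g2 (rtY (S := S) x))) := by
  have hs := shp_rtY (S := S) x
  set v := rtY (S := S) x with hv
  rw [hz, L_eq, off_P, rtY_self]
  have hk : kap (S.B x).1 = c2b (VV v 0) + c1b (VV (g2 v) 0) := by
    rw [← hs, VV_shape]
    exact kap_sh _ _ (VV_adj2 v)
  have h1 : L S.derive (g1 (g2 v)) =
      L S.derive (g2 v) + alp - c1b (VV (g2 v) 0) + e1 S.derive (g2 v) := by
    unfold e1
    rw [derive_f1, derive_B]
    ring
  have h2 : L S.derive (g2 v) = L S.derive v + lam - c2b (VV v 0) + e2 S.derive v := by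
    unfold e2
    rw [derive_f2, derive_B]
    ring
  rw [h1, h2, hk]
  push_cast
  ring

theorem err_bound (n : ℕ) : ∀ {X : Type} (S : Sys X) (x : X),
    |e1 S x| ≤ 6 * (1 / 2) ^ n ∧ |e2 S x| ≤ 6 * (1 / 2) ^ n := by
  have l1 := lam_gt; have l2 := lam_lt; have a1 := alp_gt; have a2 := alp_lt
  have sq := lam_sq
  have la := lam_alp
  induction n with
  | zero =>
    intro X S x
    have b1 := L_bound S x
    have b2 := L_bound S (S.f1 x)
    have b3 := L_bound S (S.f2 x)
    have c1' : (0 : ℝ) ≤ c1b (S.B x) ∧ (c1b (S.B x) : ℝ) ≤ 1 := by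
      constructor
      · exact Nat.cast_nonneg _
      · have : c1b (S.B x) ≤ 1 := by unfold c1b; split_ifs <;> omega
        exact_mod_cast this
    have c2' : (0 : ℝ) ≤ c2b (S.B x) ∧ (c2b (S.B x) : ℝ) ≤ 1 := by
      constructor
      · exact Nat.cast_nonneg _
      · have : c2b (S.B x) ≤ 1 := by unfold c2b; split_ifs <;> omega
        exact_mod_cast this
    constructor
    · unfold e1
      rw [abs_le]
      constructor <;> linarith
    · unfold e2
      rw [abs_le]
      constructor <;> linarith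
  | succ n ih =>
    intro X S x
    have hR := inR_B S x
    have hs := shp_rtY (S := S) x
    have hsh := VV_shape (rtY (S := S) x)
    rw [hs] at hsh
    have hRV : inR (VV (rtY (S := S) x) 0) := (VV_adj1 _).1
    obtain ⟨i1, i2⟩ := ih S.derive (rtY (S := S) x)
    obtain ⟨j1, -⟩ := ih S.derive (g2 (rtY (S := S) x))
    have hpos : (0 : ℝ) ≤ 6 * (1 / 2) ^ n := by positivity
    have hhalf : (6 : ℝ) * (1 / 2) ^ (n + 1) = (6 * (1 / 2) ^ n) / 2 := by ring
    -- a bound for products
    have prod : ∀ e : ℝ, |e| ≤ 2 * (6 * (1 / 2) ^ n) → |lam * e| ≤ 6 * (1 / 2) ^ (n + 1) := by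
      intro e he
      rw [abs_mul, abs_of_pos (by linarith : (0 : ℝ) < lam), hhalf]
      nlinarith [abs_nonneg e]
    constructor
    · rcases adj1_cases _ hR with h | h | h
      · have h0 : e1 S x = 0 := by
          unfold e1
          rw [f1_inside S x h.1 h.2, c1b_inside _ h]
          push_cast; ring
        rw [h0, abs_zero]; positivity
      · obtain ⟨r1, r2⟩ := f1_right S x h
        have h0 : e1 S x = lam * e1 S.derive (rtY (S := S) x) := by
          have hc : c1 (S.B x).1 = c1b (VV (rtY (S := S) x) 0) := by rw [hsh]; exact c1_sh _ hRV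
          unfold e1
          rw [L_eq S (S.f1 x), L_eq S x, r1, r2, c1b_else _ (Or.inl h), derive_f1, derive_B, hc]
          push_cast
          linear_combination la
        rw [h0]
        exact prod _ (by linarith)
      · have hcor := L_corner S x (S.f1 x) (corner1 h.1 h.2.1 h.2.2)
        have hk : kap (S.B x).1 = 1 := (s12 _ h.2.2).2
        have h0 : e1 S x = lam * (e2 S.derive (rtY (S := S) x) +
            e1 S.derive (g2 (rtY (S := S) x))) := by
          have ho : off (S.B x) = alp + 3 * lam := by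
            unfold off
            rw [h.1, h.2.1]
            have : ((1 : Fin 3).val : ℝ) = 1 := by norm_num
            rw [this]
            have : ((3 : Fin 4).val : ℝ) = 3 := by
              have : (3 : Fin 4).val = 3 := rfl
              rw [this]; norm_num
            rw [this]
            ring
          rw [show e1 S x = L S (S.f1 x) - (L S x + alp - c1b (S.B x)) from rfl, hcor,
            L_eq S x, c1b_else _ (Or.inr h), hk, ho]
          push_cast
          linear_combination la + sq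
        rw [h0]
        apply prod
        calc |e2 S.derive (rtY (S := S) x) + e1 S.derive (g2 (rtY (S := S) x))|
            ≤ |e2 S.derive (rtY (S := S) x)| + |e1 S.derive (g2 (rtY (S := S) x))| :=
              abs_add_le _ _
          _ ≤ 2 * (6 * (1 / 2) ^ n) := by linarith
    · rcases adj2_cases _ hR with h | h | h
      · have h0 : e2 S x = 0 := by
          unfold e2
          rw [f2_inside S x h, c2b_else _ (Or.inr h)]
          push_cast; ring
        rw [h0, abs_zero]; positivity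
      · obtain ⟨r1, r2⟩ := f2_up S x h.1 h.2
        have h0 : e2 S x = lam * e2 S.derive (rtY (S := S) x) := by
          have hc : c2 (S.B x).1 = c2b (VV (rtY (S := S) x) 0) := by rw [hsh]; exact c2_sh _ hRV
          unfold e2
          rw [L_eq S (S.f2 x), L_eq S x, r1, r2, c2b_else _ (Or.inl h.1), derive_f2, derive_B, hc]
          push_cast
          linear_combination sq
        rw [h0]
        exact prod _ (by linarith)
      · have hcor := L_corner S x (S.f2 x) (corner2 h.1 h.2)
        have ht2 := top2 (S.B x).1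
        have h0 : e2 S x = lam * (e2 S.derive (rtY (S := S) x) +
            e1 S.derive (g2 (rtY (S := S) x))) := by
          have ho : off (S.B x) = 2 * alp + (3 - (kap (S.B x).1 : ℝ)) * lam := by
            unfold off
            rw [h.1, h.2]
            have : ((2 : Fin 3).val : ℝ) = 2 := by
              have : (2 : Fin 3).val = 2 := rfl
              rw [this]; norm_num
            rw [this]
            have : (top (S.B x).1 2 : ℝ) + (kap (S.B x).1 : ℝ) = 3 := by exact_mod_cast ht2
            rw [← this]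
            ring
          rw [show e2 S x = L S (S.f2 x) - (L S x + lam - c2b (S.B x)) from rfl, hcor,
            L_eq S x, c2b_corner _ h, ho]
          push_cast
          linear_combination la + sq
        rw [h0]
        apply prod
        calc |e2 S.derive (rtY (S := S) x) + e1 S.derive (g2 (rtY (S := S) x))|
            ≤ |e2 S.derive (rtY (S := S) x)| + |e1 S.derive (g2 (rtY (S := S) x))| :=
              abs_add_le _ _
          _ ≤ 2 * (6 * (1 / 2) ^ n) := by linarith

/-- the lift is equivariant modulo one -/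
theorem L_f1 (S : Sys X) (x : X) : L S (S.f1 x) = L S x + alp - c1b (S.B x) := by
  have h : ∀ n : ℕ, |e1 S x| ≤ 6 * (1 / 2) ^ n := fun n => (err_bound n S x).1
  have h2 : Filter.Tendsto (fun n : ℕ => (6 : ℝ) * (1 / 2) ^ n) Filter.atTop (nhds (6 * 0)) :=
    (tendsto_pow_atTop_nhds_zero_of_lt_one (by norm_num) (by norm_num)).const_mul 6
  have h3 : |e1 S x| ≤ 6 * 0 := ge_of_tendsto' h2 h
  have h4 : e1 S x = 0 := by
    have := abs_nonneg (e1 S x)
    exact abs_eq_zero.1 (le_antisymm (by linarith) this)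
  unfold e1 at h4
  linarith

end Sys

end Pool.Agent.LibRot
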