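import Pool.Agent.LibRot.Circ
import Pool.Agent.LibRot.Lift

set_option autoImplicit false

namespace Pool.Agent.LibRot

theorem Dec.I {θ : ℝ} {i : Fin 3} {j : Fin 4} {t : ℝ} (h : Dec θ i j t) : I θ := by
  have a1 := alp_gt
  obtain ⟨h1, h2, h3⟩ := h.range
  refine ⟨le_trans ?_ h1, h3⟩
  have : (0 : ℝ) ≤ i.val := Nat.cast_nonneg _
  exact mul_nonneg this (by linarith)

theorem rot1_of {θ θ' : ℝ} (h : I θ) (h' : I θ') (he : θ' = θ + alp ∨ θ' = θ + alp - 1) :
    rot1 θ = θ' := by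
  obtain ⟨a, b⟩ := h; obtain ⟨c, d⟩ := h'
  unfold rot1
  rcases he with he | he
  · rw [if_pos (by linarith)]; exact he.symm
  · rw [if_neg (by linarith)]; exact he.symm

theorem rot2_of {θ θ' : ℝ} (h : I θ) (h' : I θ') (he : θ' = θ + lam ∨ θ' = θ + lam - 1) :
    rot2 θ = θ' := by
  obtain ⟨a, b⟩ := h; obtain ⟨c, d⟩ := h'
  unfold rot2
  rcases he with he | he
  · rw [if_pos (by linarith)]; exact he.symm
  · rw [if_neg (by linarith)]; exact he.symm

theorem fin3_succ_cast (i : Fin 3) (hi : i ≠ 2) : ((i + 1 : Fin 3).val : ℝ) = (i.val : ℝ) + 1 := by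
  rw [Sys.fin3_succ i hi]; push_cast; ring

theorem fin4_succ : ∀ j : Fin 4, j ≠ 3 → (j + 1).val = j.val + 1 := by decide

theorem lt_top_ne3 {s : Fin 4} {i : Fin 3} {j : Fin 4} (h : j.val < top s i) : j ≠ 3 := by
  rintro rfl
  have := top_le_three s i
  have h3 : (3 : Fin 4).val = 3 := rfl
  omega

section
variable {θ : ℝ} {i : Fin 3} {j : Fin 4} {t : ℝ}

theorem Dec.right (h : Dec θ i j t) (hi : i ≠ 2) (hj : j.val ≤ top (shape t) (i + 1)) :
    Dec (rot1 θ) (i + 1) j t := by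
  have h' : Dec (θ + alp) (i + 1) j t := ⟨h.ht, hj, by
    rw [fin3_succ_cast i hi, h.eq]; ring⟩
  rw [rot1_of h.I h'.I (Or.inl rfl)]
  exact h'

theorem Dec.up (h : Dec θ i j t) (hj : j.val < top (shape t) i) :
    Dec (rot2 θ) i (j + 1) t := by
  have e := fin4_succ j (lt_top_ne3 hj)
  have h' : Dec (θ + lam) i (j + 1) t := ⟨h.ht, by rw [e]; omega, by
    rw [e, h.eq]; push_cast; ring⟩
  rw [rot2_of h.I h'.I (Or.inl rfl)]
  exact h'

theorem Dec.cross (h : Dec θ 2 j t) (j' : Fin 4) (hj' : j'.val = j.val + c1 (shape t)) :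
    Dec (rot1 θ) 0 j' (rot1 t) := by
  have la := lam_alp
  have hk := kap_rot1 h.ht
  have ht2 := top2 (shape t)
  have ht0 := top0 (shape (rot1 t))
  have hjj := h.hj
  have h' : Dec (θ + alp - 1) 0 j' (rot1 t) := ⟨rot1_I h.ht, by omega, by
    rw [rot1_eq h.ht, h.eq, hj', v30, v32]; push_cast; linear_combination (-1 : ℝ) * la⟩
  rw [rot1_of h.I h'.I (Or.inr rfl)]
  exact h'

theorem Dec.cross_j (h : Dec θ 2 j t) : j.val + c1 (shape t) < 4 := by
  have hk := kap_rot1 h.ht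
  have ht2 := top2 (shape t)
  have hjj := h.hj
  omega

theorem Dec.corner1 (h : Dec θ 1 3 t) (hs : shape t = 1 ∨ shape t = 2) :
    Dec (rot1 θ) 0 0 (rot1 (rot2 t)) := by
  have la := lam_alp; have sq := lam_sq
  have hk := (s12 _ hs).2
  have h' : Dec (θ + alp - 1) 0 0 (rot1 (rot2 t)) := ⟨rot1_I (rot2_I h.ht), Nat.zero_le _, by
    rw [rot12_eq h.ht, h.eq, hk, v30, v40, v31, v43]
    push_cast
    linear_combination (-1 : ℝ) * la + (-1 : ℝ) * sq⟩
  rw [rot1_of h.I h'.I (Or.inr rfl)]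
  exact h'

theorem Dec.crossUp (h : Dec θ i j t) (hi : i ≠ 2) (hj : j.val = top (shape t) i) :
    Dec (rot2 θ) (i + 1) 0 (rot2 t) := by
  have sq := lam_sq
  have ht : top (shape t) i + c2 (shape t) = 3 := by
    rcases fin3_cases i with rfl | rfl | rfl
    · exact top0 _
    · exact top1 _
    · exact absurd rfl hi
  have hjr : (j.val : ℝ) = 3 - c2 (shape t) := by
    have : (j.val : ℝ) + c2 (shape t) = 3 := by
      rw [hj]; exact_mod_cast ht
    linarith
  have h' : Dec (θ + lam) (i + 1) 0 (rot2 t) := ⟨rot2_I h.ht, Nat.zero_le _, by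
    rw [rot2_eq h.ht, h.eq, hjr, v40, fin3_succ_cast i hi]
    linear_combination (-1 : ℝ) * sq⟩
  rw [rot2_of h.I h'.I (Or.inl rfl)]
  exact h'

theorem Dec.corner2 (h : Dec θ 2 j t) (hj : j.val = top (shape t) 2) :
    Dec (rot2 θ) 0 0 (rot1 (rot2 t)) := by
  have la := lam_alp; have sq := lam_sq
  have ht := top2 (shape t)
  have hjr : (j.val : ℝ) = 3 - kap (shape t) := by
    have : (j.val : ℝ) + kap (shape t) = 3 := by
      rw [hj]; exact_mod_cast ht
    linarith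
  have h' : Dec (θ + lam - 1) 0 0 (rot1 (rot2 t)) := ⟨rot1_I (rot2_I h.ht), Nat.zero_le _, by
    rw [rot12_eq h.ht, h.eq, hjr, v30, v40, v32]
    linear_combination (-1 : ℝ) * la + (-1 : ℝ) * sq⟩
  rw [rot2_of h.I h'.I (Or.inr rfl)]
  exact h'

end

theorem bs_inR {θ : ℝ} (h : I θ) : inR (bs θ) := (dec_self h).hj

theorem bs_adj1 {θ : ℝ} (h : I θ) : Adj1 (bs θ) (bs (rot1 θ)) := by
  have d := dec_self h
  rcases Sys.adj1_cases _ (bs_inR h) with hc | hc | hc
  · have d' := d.right hc.1 hc.2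
    rw [d'.bs_eq]
    exact ⟨bs_inR h, d'.hj, Or.inl ⟨hc.1, hc.2, rfl⟩⟩
  · have hi : idx θ = 2 := hc
    rw [hi] at d
    have d' := d.cross ⟨_, d.cross_j⟩ rfl
    rw [d'.bs_eq]
    refine ⟨bs_inR h, d'.hj, Or.inr (Or.inl ⟨hc, rfl, rfl, ?_⟩)⟩
    exact kap_rot1 d.ht
  · obtain ⟨h1, h2, h3⟩ := hc
    have hi : idx θ = 1 := h1
    have hj : jdx θ = 3 := h2
    rw [hi, hj] at d
    have d' := d.corner1 h3
    rw [d'.bs_eq]
    exact ⟨bs_inR h, d'.hj, Or.inr (Or.inr ⟨h1, h2, h3, rfl, rfl⟩)⟩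

theorem bs_adj2 {θ : ℝ} (h : I θ) : Adj2 (bs θ) (bs (rot2 θ)) := by
  have d := dec_self h
  rcases Sys.adj2_cases _ (bs_inR h) with hc | hc | hc
  · have d' := d.up hc
    rw [d'.bs_eq]
    exact ⟨bs_inR h, d'.hj, Or.inl ⟨hc, rfl⟩⟩
  · have d' := d.crossUp hc.1 hc.2
    rw [d'.bs_eq]
    exact ⟨bs_inR h, d'.hj, Or.inr (Or.inl ⟨hc.2, hc.1, rfl, rfl, kap_rot2 d.ht⟩)⟩
  · obtain ⟨h1, h2⟩ := hc
    have hi : idx θ = 2 := h1
    rw [hi] at d
    have d' := d.corner2 h2
    rw [d'.bs_eq]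
    refine ⟨bs_inR h, d'.hj, Or.inr (Or.inr ⟨?_, h1, rfl, rfl⟩)⟩
    change (jdx θ).val = top (shape (cell θ)) (idx θ)
    rw [hi]; exact h2

theorem cell_I {θ : ℝ} (h : I θ) : I (cell θ) := (dec_self h).ht

/-- cell of the right neighbour -/
theorem cell_inside1 {θ : ℝ} (h : I θ) (hc : (bs θ).2.1 ≠ 2 ∧ (bs θ).2.2.val ≤ top (bs θ).1 ((bs θ).2.1 + 1)) :
    cell (rot1 θ) = cell θ := ((dec_self h).right hc.1 hc.2).cell_eq

theorem cell_cross1 {θ : ℝ} (h : I θ) (hc : (bs θ).2.1 = 2) :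
    cell (rot1 θ) = rot1 (cell θ) := by
  have d := dec_self h
  have hi : idx θ = 2 := hc
  rw [hi] at d
  exact (d.cross ⟨_, d.cross_j⟩ rfl).cell_eq

theorem cell_corner1 {θ : ℝ} (h : I θ)
    (hc : (bs θ).2.1 = 1 ∧ (bs θ).2.2 = 3 ∧ ((bs θ).1 = 1 ∨ (bs θ).1 = 2)) :
    cell (rot1 θ) = rot1 (rot2 (cell θ)) := by
  have d := dec_self h
  obtain ⟨h1, h2, h3⟩ := hc
  have hi : idx θ = 1 := h1
  have hj : jdx θ = 3 := h2
  rw [hi, hj] at d
  exact (d.corner1 h3).cell_eq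

theorem cell_inside2 {θ : ℝ} (h : I θ) (hc : (bs θ).2.2.val < top (bs θ).1 (bs θ).2.1) :
    cell (rot2 θ) = cell θ := ((dec_self h).up hc).cell_eq

theorem cell_cross2 {θ : ℝ} (h : I θ)
    (hc : (bs θ).2.2.val = top (bs θ).1 (bs θ).2.1 ∧ (bs θ).2.1 ≠ 2) :
    cell (rot2 θ) = rot2 (cell θ) := ((dec_self h).crossUp hc.2 hc.1).cell_eq

theorem cell_corner2 {θ : ℝ} (h : I θ)
    (hc : (bs θ).2.1 = 2 ∧ (bs θ).2.2.val = top (bs θ).1 2) :
    cell (rot2 θ) = rot1 (rot2 (cell θ)) := by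
  have d := dec_self h
  obtain ⟨h1, h2⟩ := hc
  have hi : idx θ = 2 := h1
  rw [hi] at d
  exact (d.corner2 h2).cell_eq

/-- carries of the circle parameter in terms of the label -/
theorem c1_shape {θ : ℝ} (h : I θ) : c1 (shape θ) = c1b (bs θ) := by
  have la := lam_alp; have sq := lam_sq
  have a1 := alp_gt; have a2 := alp_lt
  have d := dec_self h
  have hr := rot1_eq h
  have key : ∀ x : ℕ, rot1 θ = θ + alp - x → c1 (shape θ) = x := by
    intro x hx
    have : (c1 (shape θ) : ℝ) = x := by linarith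
    exact_mod_cast this
  rcases Sys.adj1_cases _ (bs_inR h) with hc | hc | hc
  · rw [Sys.c1b_inside _ hc]
    apply key
    have d' := d.right hc.1 hc.2
    have e : rot1 θ = θ + alp := by
      conv_rhs => rw [d.eq]
      rw [d'.eq, fin3_succ_cast (idx θ) hc.1]
      ring
    rw [e]; simp
  · rw [Sys.c1b_else _ (Or.inl hc)]
    apply key
    have hi : idx θ = 2 := hc
    rw [hi] at d
    have d' := d.cross ⟨_, d.cross_j⟩ rfl
    have e : rot1 θ = θ + alp - 1 := by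
      conv_rhs => rw [d.eq]
      rw [d'.eq, rot1_eq d.ht, v30, v32]
      push_cast
      linear_combination la
    rw [e]; simp
  · rw [Sys.c1b_else _ (Or.inr hc)]
    apply key
    obtain ⟨h1, h2, h3⟩ := hc
    have hi : idx θ = 1 := h1
    have hj : jdx θ = 3 := h2
    have hk : kap (shape (cell θ)) = 1 := (s12 _ h3).2
    rw [hi, hj] at d
    have d' := d.corner1 h3
    have e : rot1 θ = θ + alp - 1 := by
      conv_rhs => rw [d.eq]
      rw [d'.eq, rot12_eq d.ht, hk, v30, v40, v31, v43]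
      push_cast
      linear_combination la + sq
    rw [e]; simp

theorem c2_shape {θ : ℝ} (h : I θ) : c2 (shape θ) = c2b (bs θ) := by
  have la := lam_alp; have sq := lam_sq
  have d := dec_self h
  have hr := rot2_eq h
  have key : ∀ x : ℕ, rot2 θ = θ + lam - x → c2 (shape θ) = x := by
    intro x hx
    have : (c2 (shape θ) : ℝ) = x := by linarith
    exact_mod_cast this
  rcases Sys.adj2_cases _ (bs_inR h) with hc | hc | hc
  · rw [Sys.c2b_else _ (Or.inr hc)]
    apply key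
    have d' := d.up hc
    have e : rot2 θ = θ + lam := by
      conv_rhs => rw [d.eq]
      rw [d'.eq, fin4_succ (jdx θ) (lt_top_ne3 hc)]
      push_cast
      ring
    rw [e]; simp
  · rw [Sys.c2b_else _ (Or.inl hc.1)]
    apply key
    have ht : top (shape (cell θ)) (idx θ) + c2 (shape (cell θ)) = 3 := by
      have h1 : idx θ ≠ 2 := hc.1
      rcases fin3_cases (idx θ) with hi | hi | hi
      · rw [hi]; exact top0 _
      · rw [hi]; exact top1 _
      · exact absurd hi h1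
    have hjr : ((jdx θ).val : ℝ) = 3 - c2 (shape (cell θ)) := by
      have : ((jdx θ).val : ℝ) + c2 (shape (cell θ)) = 3 := by
        have : (jdx θ).val + c2 (shape (cell θ)) = 3 := by
          rw [← ht]; congr 1; exact hc.2
        exact_mod_cast this
      linarith
    have d' := d.crossUp hc.1 hc.2
    have e : rot2 θ = θ + lam := by
      conv_rhs => rw [d.eq]
      rw [d'.eq, rot2_eq d.ht, hjr, v40, fin3_succ_cast (idx θ) hc.1]
      linear_combination sq
    rw [e]; simp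
  · rw [Sys.c2b_corner _ hc]
    apply key
    obtain ⟨h1, h2⟩ := hc
    have hi : idx θ = 2 := h1
    have ht := top2 (shape (cell θ))
    have hjr : ((jdx θ).val : ℝ) = 3 - kap (shape (cell θ)) := by
      have : ((jdx θ).val : ℝ) + kap (shape (cell θ)) = 3 := by
        have : (jdx θ).val + kap (shape (cell θ)) = 3 := by
          rw [← ht]; congr 1
        exact_mod_cast this
      linarith
    rw [hi] at d
    have d' := d.corner2 h2
    have e : rot2 θ = θ + lam - 1 := by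
      conv_rhs => rw [d.eq]
      rw [d'.eq, rot12_eq d.ht, hjr, v30, v40, v32]
      linear_combination la + sq
    rw [e]; simp

theorem shape_ext : ∀ s s' : Fin 4, (c1 s = c1 s' ∧ c2 s = c2 s' ∧ kap s = kap s') → s = s' := by
  decide

theorem shape_eq_sh {θ : ℝ} (h : I θ) : shape θ = sh (bs θ) := by
  apply shape_ext
  refine ⟨?_, ?_, ?_⟩
  · rw [c1_shape h, c1_sh _ (bs_inR h)]
  · rw [c2_shape h, c2_sh _ (bs_inR h)]
  · rw [kap_rot2 h, c2_shape h, c1_shape (rot2_I h), kap_sh _ _ (bs_adj2 h)]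

end Pool.Agent.LibRot
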