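import Pool.Agent.LibRot.Meas

set_option autoImplicit false

namespace Pool.Agent.LibRot

theorem no_rat_root (q : ℚ) : q * (3 - q) * (4 - q) ≠ 1 := by
  intro he'
  have hd : (0 : ℚ) < q.den := by exact_mod_cast q.den_pos
  have e : q = q.num / q.den := (Rat.num_div_den q).symm
  have hz : q.num * (3 * q.den - q.num) * (4 * q.den - q.num) = (q.den : ℤ) ^ 3 := by
    have : (q.num : ℚ) * (3 * q.den - q.num) * (4 * q.den - q.num) = (q.den : ℚ) ^ 3 := by
      rw [e] at he'
      field_simp at he'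
      linarith
    exact_mod_cast this
  have hcop : IsCoprime q.num ((q.den : ℤ) ^ 3) := by
    have := q.reduced
    have h : IsCoprime q.num (q.den : ℤ) := by
      rw [Int.isCoprime_iff_gcd_eq_one]
      simpa [Int.gcd, Nat.Coprime] using this
    exact h.pow_right
  have hdvd : q.num ∣ (q.den : ℤ) ^ 3 :=
    ⟨(3 * q.den - q.num) * (4 * q.den - q.num), by rw [← hz]; ring⟩
  have hunit : IsUnit q.num := hcop.isUnit_of_dvd' (dvd_refl _) hdvd
  have hdp : (0 : ℤ) < q.den := by exact_mod_cast q.den_pos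
  rcases Int.isUnit_iff.1 hunit with h1n | h1n
  · rw [h1n] at hz
    have hz2 : (q.den : ℤ) ∣ 1 := ⟨(q.den : ℤ) ^ 2 - 12 * q.den + 7, by
      have : (q.den : ℤ) ^ 3 = 12 * q.den ^ 2 - 7 * q.den + 1 := by rw [← hz]; ring
      linarith [this, (by ring : (q.den : ℤ) * ((q.den : ℤ) ^ 2 - 12 * q.den + 7) =
        (q.den : ℤ) ^ 3 - 12 * q.den ^ 2 + 7 * q.den)]⟩
    have hden : (q.den : ℤ) = 1 := by
      have h3 := Int.le_of_dvd one_pos hz2
      omega
    rw [hden] at hz
    norm_num at hz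
  · rw [h1n] at hz
    have : (0 : ℤ) < (q.den : ℤ) ^ 3 := by positivity
    nlinarith

theorem indep_one_alp_lam (a b c : ℚ) (h : (a : ℝ) + b * alp + c * lam = 0) :
    a = 0 ∧ b = 0 ∧ c = 0 := by
  have hirr := irr_lam
  have sq := lam_sq
  have cub := lam_eq
  by_cases hb : b = 0
  · subst hb
    by_cases hc : c = 0
    · subst hc
      simp only [Rat.cast_zero, zero_mul, add_zero] at h
      exact ⟨by exact_mod_cast h, rfl, rfl⟩
    · exfalso
      apply hirr
      refine ⟨-a / c, ?_⟩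
      have hc' : (c : ℝ) ≠ 0 := by exact_mod_cast hc
      push_cast
      rw [div_eq_iff hc']
      simp only [Rat.cast_zero, zero_mul, add_zero] at h
      linarith
  · exfalso
    have hb' : (b : ℝ) ≠ 0 := by exact_mod_cast hb
    -- λ² = r + s λ
    obtain ⟨r, hr⟩ : ∃ r : ℚ, r = a / b := ⟨_, rfl⟩
    obtain ⟨s, hs⟩ : ∃ s : ℚ, s = 4 + c / b := ⟨_, rfl⟩
    have h2 : lam * lam = r + s * lam := by
      have : alp = -(a / b) - c / b * lam := by
        field_simp
        linarith
      rw [sq, this, hr, hs]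
      push_cast
      ring
    have h3 : ((r + s ^ 2 - 7 * s + 12 : ℚ) : ℝ) * lam = ((7 * r + 1 - r * s : ℚ) : ℝ) := by
      push_cast
      linear_combination cub - (lam + s - 7) * h2
    by_cases hco : r + s ^ 2 - 7 * s + 12 = 0
    · rw [hco] at h3
      simp only [Rat.cast_zero, zero_mul] at h3
      have h4 : 7 * r + 1 - r * s = 0 := by exact_mod_cast h3.symm
      apply no_rat_root (7 - s)
      have hr' : r = -(s ^ 2 - 7 * s + 12) := by linarith
      rw [hr'] at h4
      linear_combination (-1 : ℚ) * h4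
    · apply hirr
      refine ⟨(7 * r + 1 - r * s) / (r + s ^ 2 - 7 * s + 12), ?_⟩
      have : ((r + s ^ 2 - 7 * s + 12 : ℚ) : ℝ) ≠ 0 := by exact_mod_cast hco
      rw [Rat.cast_div, div_eq_iff this]
      linarith

/-- the choices of the rotation numbers for which the theorem is proved -/
def Good2 {n : ℕ} (α : Fin n → ℝ) : Prop :=
  Independent α ∧ (∃ (k : ℤ) (m : Fin n → ℤ), alp = k + ∑ i, (m i : ℝ) * α i) ∧
    ∃ (k : ℤ) (m : Fin n → ℤ), lam = k + ∑ i, (m i : ℝ) * α i

theorem near_two (x : Fin 2 → ℝ) (ε : ℝ) (hε : 0 < ε) :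
    ∃ α : Fin 2 → ℝ, Good2 α ∧ ∀ i, |α i - x i| < ε := by
  obtain ⟨q, hq⟩ := exists_nat_gt (1 / ε)
  have hq0 : (0 : ℝ) < q := lt_trans (by positivity) hq
  have hq1 : 1 / (q : ℝ) < ε := by
    rw [div_lt_iff₀ hq0]
    rw [div_lt_iff₀ hε] at hq
    linarith
  set k0 : ℤ := ⌊q * x 0 - alp⌋ with hk0
  set k1 : ℤ := ⌊q * x 1 - lam⌋ with hk1
  refine ⟨![(alp + k0) / q, (lam + k1) / q], ⟨?_, ⟨-k0, ![q, 0], ?_⟩, ⟨-k1, ![0, q], ?_⟩⟩, ?_⟩
  · unfold Independent
    rw [Fintype.linearIndependent_iff]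
    intro g hg
    rw [Fin.sum_univ_succ, Fin.sum_univ_two] at hg
    simp only [Fin.cons_zero, Fin.cons_succ, Rat.smul_def, mul_one, Matrix.cons_val_zero,
      Matrix.cons_val_one] at hg
    have es0 : (Fin.succ 0 : Fin 3) = 1 := rfl
    have es1 : (Fin.succ 1 : Fin 3) = 2 := rfl
    rw [es0, es1] at hg
    have hh : ((g 0 + (g 1 * k0 + g 2 * k1) / q : ℚ) : ℝ) +
        ((g 1 / q : ℚ) : ℝ) * alp + ((g 2 / q : ℚ) : ℝ) * lam = 0 := by
      push_cast
      rw [← hg]
      field_simp
      ring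
    obtain ⟨h1, h2, h3⟩ := indep_one_alp_lam _ _ _ hh
    have hqq : (q : ℚ) ≠ 0 := by
      intro h
      have : (q : ℝ) = 0 := by exact_mod_cast h
      linarith
    have h2' : g 1 = 0 := by
      rcases div_eq_zero_iff.1 h2 with h | h
      · exact h
      · exact absurd h hqq
    have h3' : g 2 = 0 := by
      rcases div_eq_zero_iff.1 h3 with h | h
      · exact h
      · exact absurd h hqq
    rw [h2', h3'] at h1
    have h1' : g 0 = 0 := by simpa using h1
    intro i
    have hi : i = 0 ∨ i = 1 ∨ i = 2 := by fin_cases i <;> simp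
    rcases hi with rfl | rfl | rfl
    · exact h1'
    · exact h2'
    · exact h3'
  · rw [Fin.sum_univ_two]
    simp only [Matrix.cons_val_zero, Matrix.cons_val_one]
    push_cast
    field_simp
    ring
  · rw [Fin.sum_univ_two]
    simp only [Matrix.cons_val_zero, Matrix.cons_val_one]
    push_cast
    field_simp
    ring
  · intro i
    have hi : i = 0 ∨ i = 1 := by fin_cases i <;> simp
    rcases hi with rfl | rfl
    · simp only [Matrix.cons_val_zero]
      have h1 := Int.floor_le (q * x 0 - alp)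
      have h2 := Int.lt_floor_add_one (q * x 0 - alp)
      rw [← hk0] at h1 h2
      have e : (alp + k0) / q - x 0 = (alp + k0 - q * x 0) / q := by field_simp
      rw [e, abs_div, abs_of_pos hq0, div_lt_iff₀ hq0]
      have : ε * q > 1 := by
        rw [div_lt_iff₀ hq0] at hq1; exact hq1
      rw [abs_lt]
      constructor <;> linarith
    · change |(lam + k1) / q - x 1| < ε
      have h1 := Int.floor_le (q * x 1 - lam)
      have h2 := Int.lt_floor_add_one (q * x 1 - lam)
      rw [← hk1] at h1 h2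
      have e : (lam + k1) / q - x 1 = (lam + k1 - q * x 1) / q := by field_simp
      rw [e, abs_div, abs_of_pos hq0, div_lt_iff₀ hq0]
      have : ε * q > 1 := by
        rw [div_lt_iff₀ hq0] at hq1; exact hq1
      rw [abs_lt]
      constructor <;> linarith

theorem near (n : ℕ) (hn : 2 ≤ n) : ∀ (x : Fin n → ℝ) (ε : ℝ), 0 < ε →
    ∃ α : Fin n → ℝ, Good2 α ∧ ∀ i, |α i - x i| < ε := by
  induction n, hn using Nat.le_induction with
  | base => exact near_two
  | succ n hn ih =>
    intro x ε hε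
    obtain ⟨α, ⟨hI, ⟨k1, m1, h1⟩, ⟨k2, m2, h2⟩⟩, hα⟩ := ih (fun i => x i.castSucc) ε hε
    -- a value outside the span
    have hc : ((Submodule.span ℚ (Set.range (Fin.cons 1 α : Fin (n + 1) → ℝ)) :
        Set ℝ)).Countable := by
      have : Countable (Submodule.span ℚ (Set.range (Fin.cons 1 α : Fin (n + 1) → ℝ))) := by
        have hf : Module.Finite ℚ
            (Submodule.span ℚ (Set.range (Fin.cons 1 α : Fin (n + 1) → ℝ))) :=
          Module.Finite.span_of_finite ℚ (Set.finite_range _)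
        have := Module.Finite.finite_basis (Module.Free.chooseBasis ℚ
          (Submodule.span ℚ (Set.range (Fin.cons 1 α : Fin (n + 1) → ℝ))))
        exact (Module.Free.chooseBasis ℚ
          (Submodule.span ℚ (Set.range (Fin.cons 1 α : Fin (n + 1) → ℝ)))).equivFun.toEquiv.countable_iff.2
          inferInstance
      exact this.to_set
    have hd := hc.dense_compl ℝ
    obtain ⟨y, hy1, hy2⟩ := Metric.dense_iff.1 hd (x (Fin.last n)) ε hε
    refine ⟨Fin.snoc α y, ⟨?_, ⟨k1, Fin.snoc m1 0, ?_⟩, ⟨k2, Fin.snoc m2 0, ?_⟩⟩, ?_⟩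
    · unfold Independent
      rw [Fin.cons_snoc_eq_snoc_cons, linearIndependent_finSnoc]
      exact ⟨hI, hy2⟩
    · rw [Fin.sum_univ_castSucc]
      simp [h1]
    · rw [Fin.sum_univ_castSucc]
      simp [h2]
    · intro i
      refine Fin.lastCases ?_ (fun j => ?_) i
      · simp only [Fin.snoc_last]
        rw [Metric.mem_ball, Real.dist_eq] at hy1
        exact hy1
      · simp only [Fin.snoc_castSucc]
        exact hα j

theorem dense_good (n : ℕ) (hn : 2 ≤ n) : Dense {α : Fin n → ℝ | Good2 α} := by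
  rw [Metric.dense_iff]
  intro x ε hε
  obtain ⟨α, h1, h2⟩ := near n hn x ε hε
  refine ⟨α, ?_, h1⟩
  rw [Metric.mem_ball, dist_pi_lt_iff hε]
  intro i
  rw [Real.dist_eq]
  exact h2 i

end Pool.Agent.LibRot
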