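import Pool.Agent.LibRot.Tile
import Pool.Agent.LibRot.Facts

set_option autoImplicit false

namespace Pool.Agent.LibRot

namespace Sys
variable {X : Type} (S : Sys X)

/-- `x` has base label `(s, i, j)` -/
def At (s : Fin 4) (i : Fin 3) (j : Fin 4) (x : X) : Prop := S.B x = (s, i, j)

variable {S}

theorem stepR {s : Fin 4} {i : Fin 3} {j : Fin 4} {x : X} {a b : ℤ} (h : S.B (S.sft a b x) = (s, i, j))
    (hi : i ≠ 2) (hj : j.val ≤ top s (i + 1)) : S.B (S.sft (a + 1) b x) = (s, i + 1, j) := by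
  have h1 := S.a1 a b x
  have := adj1_step _ _ ⟨h1, by rw [h]; exact hi, by rw [h]; exact hj⟩
  rw [this, h]

theorem stepU {s : Fin 4} {i : Fin 3} {j : Fin 4} {x : X} {a b : ℤ} (h : S.B (S.sft a b x) = (s, i, j))
    (hj : j.val < top s i) : S.B (S.sft a (b + 1) x) = (s, i, j + 1) := by
  have h1 := S.a2 a b x
  have := adj2_step _ _ ⟨h1, by rw [h]; exact hj⟩
  rw [this, h]

theorem stepL {s : Fin 4} {i : Fin 3} {j : Fin 4} {x : X} {a b : ℤ} (h : S.B (S.sft a b x) = (s, i, j))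
    (hi : i ≠ 0) : S.B (S.sft (a - 1) b x) = (s, i - 1, j) := by
  have h1 := S.a1 (a - 1) b x
  rw [sub_add_cancel] at h1
  have := adj1_back _ _ ⟨h1, by rw [h]; exact hi⟩
  rw [this, h]

theorem stepD {s : Fin 4} {i : Fin 3} {j : Fin 4} {x : X} {a b : ℤ} (h : S.B (S.sft a b x) = (s, i, j))
    (hj : j ≠ 0) : S.B (S.sft a (b - 1) x) = (s, i, j - 1) := by
  have h1 := S.a2 a (b - 1) x
  rw [sub_add_cancel] at h1
  have := adj2_back _ _ ⟨h1, by rw [h]; exact hj⟩
  rw [this, h]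

theorem row0 {s : Fin 4} {x : X} (h : S.B x = (s, 0, 0)) (i : Fin 3) :
    S.B (S.sft (i.val : ℤ) 0 x) = (s, i, 0) := by
  have h0 : S.B (S.sft 0 0 x) = (s, 0, 0) := by rw [S.sft_zero]; exact h
  have h1 := stepR h0 (by decide) (by simp)
  have h2 := stepR h1 (by decide) (by simp)
  fin_cases i
  · exact h0
  · simpa using h1
  · simpa using h2

theorem pos {s : Fin 4} {x : X} (h : S.B x = (s, 0, 0)) (i : Fin 3) :
    ∀ (n : ℕ) (hn : n < 4), n ≤ top s i → S.B (S.sft (i.val : ℤ) (n : ℤ) x) = (s, i, ⟨n, hn⟩) := by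
  intro n
  induction n with
  | zero => intro hn _; simpa using row0 h i
  | succ n ih =>
    intro hn hle
    have h1 := ih (by omega) (by omega)
    have h2 := stepU h1 (by simp only; omega)
    have e : (⟨n, by omega⟩ : Fin 4) + 1 = ⟨n + 1, hn⟩ := by
      have h3 : n = 0 ∨ n = 1 ∨ n = 2 := by omega
      rcases h3 with rfl | rfl | rfl <;> rfl
    rw [e] at h2
    push_cast
    exact h2

/-- the promoted vertex of the cell of a vertex -/
theorem root {s : Fin 4} {i : Fin 3} {x : X} :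
    ∀ (n : ℕ) (hn : n < 4), S.B x = (s, i, ⟨n, hn⟩) →
      S.B (S.sft (-(i.val : ℤ)) (-(n : ℤ)) x) = (s, 0, 0) := by
  intro n hn h
  have hd : ∀ (n : ℕ) (hn : n < 4) (y : X), S.B y = (s, i, ⟨n, hn⟩) →
      S.B (S.sft 0 (-(n : ℤ)) y) = (s, i, 0) := by
    intro n
    induction n with
    | zero => intro hn y hy; simpa [S.sft_zero] using hy
    | succ n ih =>
      intro hn y hy
      have h0 : S.B (S.sft 0 0 y) = (s, i, ⟨n + 1, hn⟩) := by rw [S.sft_zero]; exact hy
      have h1 := stepD h0 (by intro h; exact absurd (congrArg Fin.val h) (by simp))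
      have e : (⟨n + 1, hn⟩ : Fin 4) - 1 = ⟨n, by omega⟩ := by
        have h3 : n = 0 ∨ n = 1 ∨ n = 2 := by omega
        rcases h3 with rfl | rfl | rfl <;> rfl
      rw [e] at h1
      have h2 := ih (by omega) _ h1
      rw [S.sft_sft] at h2
      have e2 : -((n : ℤ)) + (0 - 1) = -(((n + 1 : ℕ)) : ℤ) := by push_cast; ring
      rw [e2] at h2
      simpa using h2
  have h1 := hd n hn x h
  have key : ∀ (i : Fin 3) (b : ℤ), S.B (S.sft 0 b x) = (s, i, 0) →
      S.B (S.sft (-(i.val : ℤ)) b x) = (s, 0, 0) := by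
    intro i b hb
    fin_cases i
    · simpa using hb
    · have := stepL hb (by decide)
      simpa using this
    · have h1 := stepL hb (by decide)
      have h2 := stepL h1 (by decide)
      simpa using h2
  exact key i _ h1

/-- right neighbour cell -/
theorem right_spec {s : Fin 4} {x : X} (h : S.B x = (s, 0, 0)) :
    ∃ s', S.B (S.sft 3 (-(c1 s : ℤ)) x) = (s', 0, 0) ∧ kap s = c1 s + c2 s' := by
  have h2 := row0 h 2
  have h3 := S.a1 2 0 x
  have e2 : S.B (S.sft 2 0 x) = (s, 2, 0) := by simpa using h2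
  have hc := adj1_cross _ _ ⟨h3, by rw [e2]⟩
  rw [e2] at hc
  obtain ⟨hi, hj, hk⟩ := hc
  simp only at hj hk
  set b := S.B (S.sft (2 + 1) 0 x) with hb
  rcases c1_cases s with hs | hs
  · refine ⟨b.1, ?_, hk⟩
    rw [hs]
    have e3 : (2 : ℤ) + 1 = 3 := by norm_num
    rw [e3] at hb
    simp only [Nat.cast_zero, neg_zero]
    rw [← hb]
    have hj0 : b.2.2 = 0 := by
      apply Fin.ext; rw [hj, hs]; rfl
    rw [← hi, ← hj0]
  · refine ⟨b.1, ?_, hk⟩
    rw [hs]
    have hj0 : b.2.2 = 1 := by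
      apply Fin.ext; rw [hj, hs]; rfl
    have h4 : S.B (S.sft (2 + 1) 0 x) = (b.1, 0, 1) := by rw [← hb, ← hi, ← hj0]
    have h5 := stepD h4 (by decide)
    simpa using h5

/-- upper neighbour cell -/
theorem up_spec {s : Fin 4} {x : X} (h : S.B x = (s, 0, 0)) :
    ∃ s', S.B (S.sft (-1) (4 - (c2 s : ℤ)) x) = (s', 0, 0) ∧ kap s = c2 s + c1 s' := by
  have ht := top0 s
  have hlt : top s 0 < 4 := by have := top_le_three s 0; omega
  have h2 := pos h 0 (top s 0) hlt le_rfl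
  have h3 := S.a2 0 (top s 0) x
  have e2 : S.B (S.sft 0 (top s 0) x) = (s, 0, ⟨top s 0, hlt⟩) := by simpa using h2
  have hc := adj2_cross _ _ ⟨h3, by rw [e2], by rw [e2]; exact (by decide : (0 : Fin 3) ≠ 2)⟩
  rw [e2] at hc
  obtain ⟨hi, hj, hk⟩ := hc
  simp only at hi hk
  set b := S.B (S.sft 0 ((top s 0 : ℤ) + 1) x) with hb
  refine ⟨b.1, ?_, hk⟩
  have h4 : S.B (S.sft 0 ((top s 0 : ℤ) + 1) x) = (b.1, 1, 0) := by
    rw [← hb]
    have : (1 : Fin 3) = 0 + 1 := by decide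
    rw [this, ← hi, ← hj]
  have h5 := stepL h4 (by decide)
  have e : (4 : ℤ) - (c2 s : ℤ) = (top s 0 : ℤ) + 1 := by omega
  rw [e]
  simpa using h5

end Sys

end Pool.Agent.LibRot
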