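import Pool.Agent.LibRot.Derive

set_option autoImplicit false

namespace Pool.Agent.LibRot

theorem isP_eq {b : Base} (h : IsP b) : b = (b.1, 0, 0) := by
  obtain ⟨h1, h2⟩ := h
  rw [← h1, ← h2]

theorem isP_mk (s : Fin 4) : IsP (s, 0, 0) := ⟨rfl, rfl⟩

namespace Sys
variable {X : Type} {S : Sys X}

/-- promoted vertices -/
abbrev Y (S : Sys X) : Type := {x : X // IsP (S.B x)}

theorem yB (v : S.Y) : S.B v.1 = ((S.B v.1).1, 0, 0) := isP_eq v.2

/-- the shape of the cell of a promoted vertex -/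
abbrev shp (v : S.Y) : Fin 4 := (S.B v.1).1

def g1 (v : S.Y) : S.Y :=
  ⟨S.sft 3 (-(c1 (shp v) : ℤ)) v.1, by
    obtain ⟨s', h, _⟩ := right_spec (yB v)
    rw [show shp v = (S.B v.1).1 from rfl, h]; exact isP_mk s'⟩

def g2 (v : S.Y) : S.Y :=
  ⟨S.sft (-1) (4 - (c2 (shp v) : ℤ)) v.1, by
    obtain ⟨s', h, _⟩ := up_spec (yB v)
    rw [show shp v = (S.B v.1).1 from rfl, h]; exact isP_mk s'⟩

theorem kap_g1 (v : S.Y) : kap (shp v) = c1 (shp v) + c2 (shp (g1 v)) := by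
  obtain ⟨s', h, hk⟩ := right_spec (yB v)
  have : shp (g1 v) = s' := by
    change (S.B (S.sft 3 (-(c1 (shp v) : ℤ)) v.1)).1 = s'
    rw [show shp v = (S.B v.1).1 from rfl, h]
  rw [this]; exact hk

theorem kap_g2 (v : S.Y) : kap (shp v) = c2 (shp v) + c1 (shp (g2 v)) := by
  obtain ⟨s', h, hk⟩ := up_spec (yB v)
  have : shp (g2 v) = s' := by
    change (S.B (S.sft (-1) (4 - (c2 (shp v) : ℤ)) v.1)).1 = s'
    rw [show shp v = (S.B v.1).1 from rfl, h]
  rw [this]; exact hk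

theorem g1g2_val (v : S.Y) : (g1 (g2 v)).1 = S.sft 2 (4 - (kap (shp v) : ℤ)) v.1 := by
  have h := kap_g2 v
  change S.sft 3 (-(c1 (shp (g2 v)) : ℤ)) (S.sft (-1) (4 - (c2 (shp v) : ℤ)) v.1) = _
  rw [sft_sft]
  congr 1
  omega

theorem g2g1_val (v : S.Y) : (g2 (g1 v)).1 = S.sft 2 (4 - (kap (shp v) : ℤ)) v.1 := by
  have h := kap_g1 v
  change S.sft (-1) (4 - (c2 (shp (g1 v)) : ℤ)) (S.sft 3 (-(c1 (shp v) : ℤ)) v.1) = _
  rw [sft_sft]
  congr 1
  omega

theorem g_comm (v : S.Y) : g1 (g2 v) = g2 (g1 v) :=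
  Subtype.ext ((g1g2_val v).trans (g2g1_val v).symm)

theorem not_vert {x : X} (h : IsP (S.B x)) : ¬ IsP (S.B (S.sft 0 1 x)) := by
  have h0 : S.B (S.sft 0 0 x) = ((S.B x).1, 0, 0) := by rw [S.sft_zero]; exact isP_eq h
  have h1 := stepU h0 (lt_of_lt_of_le (by decide : (0 : Fin 4).val < 2) (two_le_top (S.B x).1 0))
  rw [zero_add] at h1
  rw [h1]
  rintro ⟨_, h2⟩
  exact absurd h2 (by decide : ¬ ((0 : Fin 4) + 1 = 0))

/-- two promoted vertices whose vertical distance is `-1`, `0` or `1` are equal -/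
theorem vert_eq {v w : S.Y} {a b : ℕ} (ha : a = 0 ∨ a = 1) (hb : b = 0 ∨ b = 1) {p q : ℤ}
    (h : S.sft p (q - a) v.1 = S.sft p (q - b) w.1) : v = w := by
  have h' : v.1 = S.sft 0 ((a : ℤ) - b) w.1 := by
    have := (S.sft_eq_iff p (q - a)).1 h
    rw [sft_sft] at this
    rw [this]; congr 1 <;> ring
  have key : ∀ v w : S.Y, v.1 = S.sft 0 1 w.1 → False := fun v w hvw =>
    not_vert w.2 (by rw [← hvw]; exact v.2)
  rcases ha with rfl | rfl <;> rcases hb with rfl | rfl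
  · apply Subtype.ext; simpa [sft_zero] using h'
  · exfalso
    apply key w v
    rw [h', sft_sft]; simp [sft_zero]
  · exfalso
    apply key v w
    rw [h']; simp
  · apply Subtype.ext; simpa [sft_zero] using h'

theorem g1_inj : Function.Injective (g1 (S := S)) := by
  intro v w h
  have h1 : S.sft 3 (-(c1 (shp v) : ℤ)) v.1 = S.sft 3 (-(c1 (shp w) : ℤ)) w.1 :=
    congrArg Subtype.val h
  exact vert_eq (p := 3) (q := 0) (c1_cases (shp v)) (c1_cases (shp w)) (by simpa using h1)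

theorem g2_inj : Function.Injective (g2 (S := S)) := by
  intro v w h
  have h1 : S.sft (-1) (4 - (c2 (shp v) : ℤ)) v.1 = S.sft (-1) (4 - (c2 (shp w) : ℤ)) w.1 :=
    congrArg Subtype.val h
  exact vert_eq (p := -1) (q := 4) (c2_cases (shp v)) (c2_cases (shp w)) h1

/-- the promoted vertex at `-(i, j)` of a site with label `(s, i, j)` -/
def rt (x : X) : X := S.sft (-((S.B x).2.1.val : ℤ)) (-((S.B x).2.2.val : ℤ)) x

theorem rt_B (x : X) : S.B (rt (S := S) x) = ((S.B x).1, 0, 0) :=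
  root (S.B x).2.2.val (S.B x).2.2.isLt rfl

def rtY (x : X) : S.Y := ⟨rt (S := S) x, by rw [rt_B]; exact isP_mk _⟩

theorem shp_rtY (x : X) : shp (rtY (S := S) x) = (S.B x).1 := by
  change (S.B (rt (S := S) x)).1 = _
  rw [rt_B]

theorem eq_sft_rt (x : X) :
    x = S.sft ((S.B x).2.1.val : ℤ) ((S.B x).2.2.val : ℤ) (rtY (S := S) x).1 := by
  change x = S.sft _ _ (rt (S := S) x)
  rw [rt, sft_sft]
  simp [sft_zero]

/-- upper right corner -/
theorem corner2 {x : X} (h2 : (S.B x).2.1 = 2) (h3 : (S.B x).2.2.val = top (S.B x).1 2) :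
    S.f2 x = (g1 (g2 (rtY (S := S) x))).1 := by
  rw [g1g2_val, shp_rtY]
  have e := eq_sft_rt (S := S) x
  have ht := top2 (S.B x).1
  conv_lhs => rw [e]
  rw [f2_eq, sft_sft, h2, h3]
  have : ((2 : Fin 3).val : ℤ) = 2 := rfl
  rw [this]
  congr 1
  omega

theorem corner1 {x : X} (h2 : (S.B x).2.1 = 1) (h3 : (S.B x).2.2 = 3)
    (hs : (S.B x).1 = 1 ∨ (S.B x).1 = 2) :
    S.f1 x = (g1 (g2 (rtY (S := S) x))).1 := by
  rw [g1g2_val, shp_rtY]
  have e := eq_sft_rt (S := S) x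
  have ht := (s12 _ hs).2
  conv_lhs => rw [e]
  rw [f1_eq, sft_sft, h2, h3, ht]
  have : ((1 : Fin 3).val : ℤ) = 1 := rfl
  rw [this]
  have : ((3 : Fin 4).val : ℤ) = 3 := rfl
  rw [this]
  norm_num

theorem g1_surj : Function.Surjective (g1 (S := S)) := by
  intro w
  set y := S.sft (-1) 0 w.1 with hy
  have hyw : S.f1 y = w.1 := by rw [f1_eq, hy, sft_sft]; simp [sft_zero]
  have h1 := S.adj1 y
  rw [hyw] at h1
  rcases adj1_to_P _ _ ⟨h1, w.2⟩ with ⟨h2, h3, h4⟩ | ⟨h2, h3, h4⟩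
  · refine ⟨rtY (S := S) y, ?_⟩
    apply Subtype.ext
    change S.sft 3 (-(c1 (shp (rtY (S := S) y)) : ℤ)) (rtY (S := S) y).1 = w.1
    rw [shp_rtY, h4, ← hyw, f1_eq]
    conv_rhs => rw [eq_sft_rt (S := S) y]
    rw [sft_sft, h2, h3]
    norm_num
  · refine ⟨g2 (rtY (S := S) y), ?_⟩
    apply Subtype.ext
    rw [← corner1 h2 h3 h4, hyw]

theorem g2_surj : Function.Surjective (g2 (S := S)) := by
  intro w
  set y := S.sft 0 (-1) w.1 with hy
  have hyw : S.f2 y = w.1 := by rw [f2_eq, hy, sft_sft]; simp [sft_zero]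
  have h1 := S.adj2 y
  rw [hyw] at h1
  obtain ⟨h2, h3⟩ := adj2_to_P _ _ ⟨h1, w.2⟩
  refine ⟨g1 (rtY (S := S) y), ?_⟩
  apply Subtype.ext
  rw [← g_comm, ← corner2 h2 h3, hyw]

end Sys

end Pool.Agent.LibRot
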