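import Pool.Agent.LibRot.Derive2

set_option autoImplicit false

namespace Pool.Agent.LibRot

theorem wH : ∀ (s : Fin 4) (i : Fin 3) (j : Fin 4), i ≠ 2 → j ≠ 0 → j.val ≤ top s (i + 1) →
    wire (s, i, j) 0 = 0 ∧ wire (s, i + 1, j) 1 = 0 := by decide +kernel
theorem wV : ∀ (s : Fin 4) (i : Fin 3) (j : Fin 4), i ≠ 0 → j.val < top s i →
    wire (s, i, j) 2 = 0 ∧ wire (s, i, j + 1) 3 = 0 := by decide +kernel
theorem wCR : ∀ (s : Fin 4), wire (s, 2, 1) 0 = 0 := by decide +kernel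
theorem wCR' : ∀ (s s' : Fin 4) (j : Fin 4), kap s = c1 s + c2 s' → j.val = 1 + c1 s →
    wire (s', 0, j) 1 = 0 := by decide +kernel
theorem wCU : ∀ (s : Fin 4) (j : Fin 4), j.val = top s 0 → wire (s, 0, j) 2 = 0 := by decide +kernel
theorem wCU' : ∀ (s : Fin 4), wire (s, 1, 0) 3 = 0 := by decide +kernel
theorem two_free : ∀ b : Base, ∃ e e' : Fin 4, e ≠ e' ∧ wire b e = 0 ∧ wire b e' = 0 := by
  decide +kernel

theorem not_isP_i {s : Fin 4} {i : Fin 3} {j : Fin 4} (h : i ≠ 0) : ¬ IsP (s, i, j) :=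
  fun h' => h h'.1
theorem not_isP_j {s : Fin 4} {i : Fin 3} {j : Fin 4} (h : j ≠ 0) : ¬ IsP (s, i, j) :=
  fun h' => h h'.2

namespace Sys
variable {X : Type} {S : Sys X}

theorem consH {x : X} (h : ¬ IsP (S.B x)) (h' : ¬ IsP (S.B (S.f1 x)))
    (w : wire (S.B x) 0 = 0) (w' : wire (S.B (S.f1 x)) 1 = 0) :
    Cons1 (S.B x, (S.T x).V) (S.B (S.f1 x), (S.T (S.f1 x)).V) := by
  have e := S.tile x h
  have e' := S.tile _ h'
  obtain ⟨l, h1, h2⟩ := (S.ok x).p0 (by rw [e]; exact w)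
  obtain ⟨l', h3, _⟩ := (S.ok (S.f1 x)).p1 (by rw [e']; exact w')
  have h5 := S.col1 x
  rw [h1, h3] at h5
  simp only [Option.some.injEq, Prod.mk.injEq, true_and] at h5
  rw [h5.2, e, e'] at h2
  exact h2

theorem consV {x : X} (h : ¬ IsP (S.B x)) (h' : ¬ IsP (S.B (S.f2 x)))
    (w : wire (S.B x) 2 = 0) (w' : wire (S.B (S.f2 x)) 3 = 0) :
    Cons2 (S.B x, (S.T x).V) (S.B (S.f2 x), (S.T (S.f2 x)).V) := by
  have e := S.tile x h
  have e' := S.tile _ h'
  obtain ⟨l, h1, h2⟩ := (S.ok x).p2 (by rw [e]; exact w)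
  obtain ⟨l', h3, _⟩ := (S.ok (S.f2 x)).p3 (by rw [e']; exact w')
  have h5 := S.col2 x
  rw [h1, h3] at h5
  simp only [Option.some.injEq, Prod.mk.injEq, true_and] at h5
  rw [h5.2, e, e'] at h2
  exact h2

/-- labels of the cell of `v` -/
theorem yPos (v : S.Y) (i : Fin 3) (n : ℕ) (hn : n < 4) (h : n ≤ top (shp v) i) :
    S.B (S.sft (i.val : ℤ) (n : ℤ) v.1) = (shp v, i, ⟨n, hn⟩) := pos (yB v) i n hn h

theorem VU (v : S.Y) (i : Fin 3) (hi : i ≠ 0) (n : ℕ) (h : n < top (shp v) i) :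
    (S.T (S.sft (i.val : ℤ) ((n : ℤ) + 1) v.1)).V = (S.T (S.sft (i.val : ℤ) (n : ℤ) v.1)).V := by
  have h3 := top_le_three (shp v) i
  have e := yPos v i n (by omega) (by omega)
  have e' := yPos v i (n + 1) (by omega) (by omega)
  have ef : S.f2 (S.sft (i.val : ℤ) (n : ℤ) v.1) = S.sft (i.val : ℤ) (((n + 1 : ℕ)) : ℤ) v.1 := by
    rw [f2_eq, sft_sft]; congr 1 <;> push_cast <;> ring
  have hw := wV (shp v) i ⟨n, by omega⟩ hi h
  have en : (⟨n, by omega⟩ : Fin 4) + 1 = ⟨n + 1, by omega⟩ := by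
    have h3 : n = 0 ∨ n = 1 ∨ n = 2 := by omega
    rcases h3 with rfl | rfl | rfl <;> rfl
  rw [en] at hw
  have := consV (S := S) (x := S.sft (i.val : ℤ) (n : ℤ) v.1) (by rw [e]; exact not_isP_i hi)
    (by rw [ef, e']; exact not_isP_i hi) (by rw [e]; exact hw.1) (by rw [ef, e']; exact hw.2)
  rw [ef, e, e'] at this
  have h4 := this.2.1 h
  simp only at h4
  push_cast at h4
  exact h4

theorem VR (v : S.Y) (i : Fin 3) (hi : i ≠ 2) (n : ℕ) (hn : n ≠ 0) (h : n ≤ top (shp v) (i + 1))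
    (h' : n ≤ top (shp v) i) :
    (S.T (S.sft ((i.val : ℤ) + 1) (n : ℤ) v.1)).V = (S.T (S.sft (i.val : ℤ) (n : ℤ) v.1)).V := by
  have h3 := top_le_three (shp v) i
  have e := yPos v i n (by omega) h'
  have e' := yPos v (i + 1) n (by omega) h
  have ei : ((i + 1 : Fin 3).val : ℤ) = (i.val : ℤ) + 1 := by
    fin_cases i
    · rfl
    · rfl
    · exact absurd rfl hi
  have ef : S.f1 (S.sft (i.val : ℤ) (n : ℤ) v.1) = S.sft ((i + 1 : Fin 3).val : ℤ) (n : ℤ) v.1 := by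
    rw [f1_eq, sft_sft, ei]; congr 1 <;> ring
  have hn' : (⟨n, by omega⟩ : Fin 4) ≠ 0 := fun h => hn (congrArg Fin.val h)
  have hw := wH (shp v) i ⟨n, by omega⟩ hi hn' h
  have := consH (S := S) (x := S.sft (i.val : ℤ) (n : ℤ) v.1) (by rw [e]; exact not_isP_j hn')
    (by rw [ef, e']; exact not_isP_j hn') (by rw [e]; exact hw.1) (by rw [ef, e']; exact hw.2)
  rw [ef, e, e'] at this
  have h4 := this.2.1 ⟨hi, h⟩
  simp only at h4
  rw [ei] at h4
  exact h4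

/-- the next-level labels known to the cell of `v` -/
def VV (v : S.Y) : Fin 4 → Base := (S.T (S.sft 1 1 v.1)).V

theorem V1 (v : S.Y) (n : ℕ) (h : n ≤ top (shp v) 1) :
    (S.T (S.sft 1 (n : ℤ) v.1)).V = VV v := by
  have h2 := two_le_top (shp v) 1
  have h3 := top_le_three (shp v) 1
  have a0 := VU v 1 (by decide) 0 (by omega)
  have a1 := VU v 1 (by decide) 1 (by omega)
  have e : ((1 : Fin 3).val : ℤ) = 1 := rfl
  rw [e] at a0 a1
  have hn : n = 0 ∨ n = 1 ∨ n = 2 ∨ n = 3 := by omega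
  rcases hn with rfl | rfl | rfl | rfl
  · rw [← a0]; simp [VV]
  · simp [VV]
  · have : ((2 : ℕ) : ℤ) = ((1 : ℕ) : ℤ) + 1 := by norm_num
    rw [this, a1]; simp [VV]
  · have a2 := VU v 1 (by decide) 2 (by omega)
    rw [e] at a2
    have : ((3 : ℕ) : ℤ) = ((2 : ℕ) : ℤ) + 1 := by norm_num
    rw [this, a2]
    have : ((2 : ℕ) : ℤ) = ((1 : ℕ) : ℤ) + 1 := by norm_num
    rw [this, a1]; simp [VV]

theorem V2 (v : S.Y) (n : ℕ) (h : n ≤ top (shp v) 2) :
    (S.T (S.sft 2 (n : ℤ) v.1)).V = VV v := by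
  have h2 := two_le_top (shp v) 2
  have h2' := two_le_top (shp v) 1
  have h3 := top_le_three (shp v) 2
  have a0 := VU v 2 (by decide) 0 (by omega)
  have a1 := VU v 2 (by decide) 1 (by omega)
  have r1 := VR v 1 (by decide) 1 (by decide) (by
    change 1 ≤ top (shp v) 2
    omega) (by omega)
  have e : ((2 : Fin 3).val : ℤ) = 2 := rfl
  have e1 : ((1 : Fin 3).val : ℤ) = 1 := rfl
  rw [e] at a0 a1
  rw [e1] at r1
  have r1' : (S.T (S.sft 2 1 v.1)).V = VV v := by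
    have : ((1 : ℤ) + 1) = 2 := by norm_num
    rw [this] at r1
    simpa [VV] using r1
  have hn : n = 0 ∨ n = 1 ∨ n = 2 ∨ n = 3 := by omega
  rcases hn with rfl | rfl | rfl | rfl
  · rw [← a0, ← r1']; simp
  · rw [← r1']; simp
  · have : ((2 : ℕ) : ℤ) = ((1 : ℕ) : ℤ) + 1 := by norm_num
    rw [this, a1, ← r1']; simp
  · have a2 := VU v 2 (by decide) 2 (by omega)
    rw [e] at a2
    have : ((3 : ℕ) : ℤ) = ((2 : ℕ) : ℤ) + 1 := by norm_num
    rw [this, a2]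
    have : ((2 : ℕ) : ℤ) = ((1 : ℕ) : ℤ) + 1 := by norm_num
    rw [this, a1, ← r1']; simp

theorem V0 (v : S.Y) (n : ℕ) (hn : n ≠ 0) (h : n ≤ top (shp v) 0) :
    (S.T (S.sft 0 (n : ℤ) v.1)).V = VV v := by
  have h0 := top0 (shp v)
  have h1 := top1 (shp v)
  have r := VR v 0 (by decide) n hn (by
    change n ≤ top (shp v) 1
    omega) h
  have e1 : ((0 : Fin 3).val : ℤ) = 0 := rfl
  rw [e1, zero_add] at r
  rw [← r]
  exact V1 v n (by omega)

/-- `V` at any exact site, in terms of the promoted vertex of its cell -/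
theorem V_site {x : X} (h : ¬ IsP (S.B x)) : (S.T x).V = VV (rtY (S := S) x) := by
  have hR : inR (S.B x) := by
    have := (S.ok x).inR_
    rwa [S.tile x h] at this
  have e := eq_sft_rt (S := S) x
  have hs := shp_rtY (S := S) x
  set v := rtY (S := S) x with hv
  have hi : (S.B x).2.1 = 0 ∨ (S.B x).2.1 = 1 ∨ (S.B x).2.1 = 2 := by
    generalize (S.B x).2.1 = i
    fin_cases i <;> simp
  have hR' : (S.B x).2.2.val ≤ top (shp v) (S.B x).2.1 := by rw [hs]; exact hR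
  rcases hi with hi | hi | hi
  · have hj : (S.B x).2.2.val ≠ 0 := by
      intro h0
      exact h ⟨hi, Fin.ext h0⟩
    rw [hi] at hR' e
    conv_lhs => rw [e]
    have e0 : ((0 : Fin 3).val : ℤ) = 0 := rfl
    rw [e0]
    exact V0 v _ hj hR'
  · rw [hi] at hR' e
    conv_lhs => rw [e]
    have e0 : ((1 : Fin 3).val : ℤ) = 1 := rfl
    rw [e0]
    exact V1 v _ hR'
  · rw [hi] at hR' e
    conv_lhs => rw [e]
    have e0 : ((2 : Fin 3).val : ℤ) = 2 := rfl
    rw [e0]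
    exact V2 v _ hR'

end Sys

end Pool.Agent.LibRot
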