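import Pool.Agent.LibRot.Derive3

set_option autoImplicit false

namespace Pool.Agent.LibRot

theorem wc10 : ∀ s : Fin 4, claim (s, 1, 0) 1 = some 0 ∧ wire (s, 1, 0) 0 ≠ 0 ∧
    wire (s, 1, 0) 1 ≠ 0 := by decide +kernel
theorem wc01 : ∀ s : Fin 4, claim (s, 0, 1) 3 = some 0 ∧ wire (s, 0, 1) 3 ≠ 0 := by decide +kernel
theorem wc20 : ∀ s : Fin 4, c1 s = 0 → claim (s, 2, 0) 0 = some 1 ∧ wire (s, 2, 0) 0 ≠ 0 ∧
    wire (s, 2, 0) 1 ≠ 0 := by decide +kernel
theorem wc20' : ∀ s : Fin 4, c1 s = 1 → wire (s, 2, 0) 3 ≠ 0 ∧ wire (s, 2, 0) 1 ≠ 0 := by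
  decide +kernel
theorem wc13 : ∀ s : Fin 4, (s = 1 ∨ s = 2) → claim (s, 1, 3) 0 = some 3 ∧
    wire (s, 1, 3) 0 ≠ 0 ∧ wire (s, 1, 3) 2 ≠ 0 := by decide +kernel
theorem wc2t : ∀ (s : Fin 4) (j : Fin 4), j.val = top s 2 → claim (s, 2, j) 2 = some 3 ∧
    wire (s, 2, j) 0 ≠ 0 ∧ wire (s, 2, j) 2 ≠ 0 := by decide +kernel
theorem wc0j : ∀ (s : Fin 4) (j : Fin 4), j ≠ 0 → j.val < top s 0 →
    wire (s, 0, j) 2 ≠ 0 ∧ wire (s, 0, j) 3 ≠ 0 := by decide +kernel
theorem wc0t : ∀ (s : Fin 4) (j : Fin 4), j.val = top s 0 →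
    wire (s, 0, j) 1 ≠ 0 ∧ wire (s, 0, j) 3 ≠ 0 := by decide +kernel

namespace Sys
variable {X : Type} {S : Sys X}

theorem cross_right (v : S.Y) : VV (g1 v) 0 = VV v 1 ∧ VV (g1 v) 2 = VV v 3 := by
  have hk := kap_g1 v
  have t0 := top0 (shp (g1 v))
  have t2 := two_le_top (shp v) 2
  have hc := c1_cases (shp v)
  have hle : 1 + c1 (shp v) ≤ top (shp (g1 v)) 0 := by
    have := top2 (shp v)
    omega
  have h4 : 1 + c1 (shp v) < 4 := by omega
  have e := yPos v 2 1 (by norm_num) (by omega)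
  have e' := yPos (g1 v) 0 (1 + c1 (shp v)) h4 hle
  have i2 : ((2 : Fin 3).val : ℤ) = 2 := rfl
  have i0 : ((0 : Fin 3).val : ℤ) = 0 := rfl
  rw [i2] at e
  rw [i0] at e'
  have ef : S.f1 (S.sft 2 ((1 : ℕ) : ℤ) v.1) = S.sft 0 ((1 + c1 (shp v) : ℕ) : ℤ) (g1 v).1 := by
    change _ = S.sft _ _ (S.sft 3 (-(c1 (shp v) : ℤ)) v.1)
    rw [f1_eq, sft_sft, sft_sft]
    congr 1
    push_cast
    ring
  have hne : (⟨1 + c1 (shp v), h4⟩ : Fin 4) ≠ 0 := fun h => by
    have := congrArg Fin.val h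
    simp at this
  have := consH (S := S) (x := S.sft 2 ((1 : ℕ) : ℤ) v.1)
    (by rw [e]; exact not_isP_i (by decide)) (by rw [ef, e']; exact not_isP_j hne)
    (by rw [e]; exact wCR _) (by rw [ef, e']; exact wCR' _ _ _ hk rfl)
  rw [ef, e, e'] at this
  have h5 := this.2.2 rfl
  simp only at h5
  rw [V0 (g1 v) (1 + c1 (shp v)) (by omega) hle, V2 v 1 (by omega)] at h5
  exact h5

theorem cross_up (v : S.Y) : VV (g2 v) 0 = VV v 2 ∧ VV (g2 v) 1 = VV v 3 := by
  have t0 := top0 (shp v)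
  have t3 := top_le_three (shp v) 0
  have t2 := two_le_top (shp v) 0
  have e := yPos v 0 (top (shp v) 0) (by omega) le_rfl
  have e' := yPos (g2 v) 1 0 (by norm_num) (by omega)
  have i1 : ((1 : Fin 3).val : ℤ) = 1 := rfl
  have i0 : ((0 : Fin 3).val : ℤ) = 0 := rfl
  rw [i0] at e
  rw [i1] at e'
  have ef : S.f2 (S.sft 0 ((top (shp v) 0 : ℕ) : ℤ) v.1) = S.sft 1 ((0 : ℕ) : ℤ) (g2 v).1 := by
    change _ = S.sft _ _ (S.sft (-1) (4 - (c2 (shp v) : ℤ)) v.1)
    rw [f2_eq, sft_sft, sft_sft]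
    congr 1
    push_cast
    omega
  have hne : (⟨top (shp v) 0, by omega⟩ : Fin 4) ≠ 0 := fun h => by
    have := congrArg Fin.val h
    simp at this
    omega
  have := consV (S := S) (x := S.sft 0 ((top (shp v) 0 : ℕ) : ℤ) v.1)
    (by rw [e]; exact not_isP_j hne) (by rw [ef, e']; exact not_isP_i (by decide))
    (by rw [e]; exact wCU _ _ rfl) (by rw [ef, e']; exact wCU' _)
  rw [ef, e, e'] at this
  have h5 := this.2.2 ⟨rfl, (by decide : (0 : Fin 3) ≠ 2)⟩
  simp only at h5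
  rw [V1 (g2 v) 0 (by omega), V0 v (top (shp v) 0) (by omega) le_rfl] at h5
  exact h5

theorem VV_corner (v : S.Y) : VV (g1 (g2 v)) 0 = VV v 3 := by
  rw [(cross_right (g2 v)).1, (cross_up v).2]

/-- the colours around a promoted vertex are good for its next-level label -/
theorem good (w : S.Y) (e : Fin 4) : Good e (VV w 0) ((S.T w.1).col e) := by
  have he : e = 0 ∨ e = 1 ∨ e = 2 ∨ e = 3 := by fin_cases e <;> simp
  rcases he with rfl | rfl | rfl | rfl
  · -- right port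
    have e := yPos w 1 0 (by norm_num) (by omega)
    have i1 : ((1 : Fin 3).val : ℤ) = 1 := rfl
    rw [i1] at e
    have hn : ¬ IsP (S.B (S.sft 1 ((0 : ℕ) : ℤ) w.1)) := by
      rw [e]; exact not_isP_i (by decide)
    have hc := (S.ok (S.sft 1 ((0 : ℕ) : ℤ) w.1)).claims 1 0 (by
      rw [S.tile _ hn, e]; exact (wc10 _).1)
    rw [V1 w 0 (by omega)] at hc
    have ht := S.t1 0 0 w.1
    rw [sft_zero] at ht
    rw [ht]
    rw [show opp 1 = 0 from rfl] at hc
    simpa using hc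
  · -- left port
    set y := S.sft (-1) 0 w.1 with hy
    have hyw : S.f1 y = w.1 := by rw [f1_eq, hy, sft_sft]; simp [sft_zero]
    have h1 := S.adj1 y
    rw [hyw] at h1
    have ht := S.col1 y
    rw [hyw] at ht
    rw [← ht]
    rcases adj1_to_P _ _ ⟨h1, w.2⟩ with ⟨h2, h3, h4⟩ | ⟨h2, h3, h4⟩
    · have hB : S.B y = ((S.B y).1, 2, 0) := by rw [← h2, ← h3]
      have hn : ¬ IsP (S.B y) := by rw [hB]; exact not_isP_i (by decide)
      have hc := (S.ok y).claims 0 1 (by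
        rw [S.tile _ hn, hB]; exact (wc20 _ h4).1)
      have hw : g1 (rtY (S := S) y) = w := by
        apply Subtype.ext
        change S.sft 3 (-(c1 (shp (rtY (S := S) y)) : ℤ)) (rtY (S := S) y).1 = w.1
        rw [shp_rtY, h4, ← hyw, f1_eq]
        conv_rhs => rw [eq_sft_rt (S := S) y]
        rw [sft_sft, h2, h3]
        norm_num
      rw [V_site hn, ← (cross_right _).1, hw] at hc
      exact hc
    · have hB : S.B y = ((S.B y).1, 1, 3) := by rw [← h2, ← h3]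
      have hn : ¬ IsP (S.B y) := by rw [hB]; exact not_isP_i (by decide)
      have hc := (S.ok y).claims 0 3 (by
        rw [S.tile _ hn, hB]; exact (wc13 _ h4).1)
      have hw : g1 (g2 (rtY (S := S) y)) = w := Subtype.ext (by rw [← corner1 h2 h3 h4, hyw])
      rw [V_site hn, ← VV_corner, hw] at hc
      exact hc
  · -- upper port
    have t2 := two_le_top (shp w) 0
    have e := yPos w 0 1 (by norm_num) (by omega)
    have i0 : ((0 : Fin 3).val : ℤ) = 0 := rfl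
    rw [i0] at e
    have hn : ¬ IsP (S.B (S.sft 0 ((1 : ℕ) : ℤ) w.1)) := by
      rw [e]; exact not_isP_j (by decide)
    have hc := (S.ok (S.sft 0 ((1 : ℕ) : ℤ) w.1)).claims 3 0 (by
      rw [S.tile _ hn, e]; exact (wc01 _).1)
    rw [V0 w 1 (by omega) (by omega)] at hc
    have ht := S.t2 0 0 w.1
    rw [sft_zero] at ht
    rw [ht]
    rw [show opp 3 = 2 from rfl] at hc
    simpa using hc
  · -- lower port
    set y := S.sft 0 (-1) w.1 with hy
    have hyw : S.f2 y = w.1 := by rw [f2_eq, hy, sft_sft]; simp [sft_zero]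
    have h1 := S.adj2 y
    rw [hyw] at h1
    have ht := S.col2 y
    rw [hyw] at ht
    rw [← ht]
    obtain ⟨h2, h3⟩ := adj2_to_P _ _ ⟨h1, w.2⟩
    have hB : S.B y = ((S.B y).1, 2, (S.B y).2.2) := by rw [← h2]
    have hn : ¬ IsP (S.B y) := by rw [hB]; exact not_isP_i (by decide)
    have hc := (S.ok y).claims 2 3 (by
      rw [S.tile _ hn, hB]; exact (wc2t _ _ h3).1)
    have hw : g1 (g2 (rtY (S := S) y)) = w := Subtype.ext (by rw [← corner2 h2 h3, hyw])
    rw [V_site hn, ← VV_corner, hw] at hc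
    exact hc

/-- colours that pass from one free port of a promoted vertex to another one are impossible -/
theorem no_pass {b : Base} (hb : ¬ IsP b) {c : Fin 4 → Option Color}
    (hg : ∀ e, Good e b (c e)) {e e' : Fin 4} (hne : e ≠ e') (h : wire b e = 0)
    (h' : wire b e' = 0) : c e ≠ c e' := by
  intro hc
  obtain ⟨l, l', h0, h1, h2, h3⟩ := hg e hb h
  obtain ⟨m, m', k0, k1, k2, k3⟩ := hg e' hb h'
  have he : e = 0 ∨ e = 1 ∨ e = 2 ∨ e = 3 := by fin_cases e <;> simp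
  have he' : e' = 0 ∨ e' = 1 ∨ e' = 2 ∨ e' = 3 := by fin_cases e' <;> simp
  rcases he with rfl | rfl | rfl | rfl <;> rcases he' with rfl | rfl | rfl | rfl
  · exact hne rfl
  · obtain ⟨q1, q2, q3⟩ := h0 rfl
    obtain ⟨r1, r2, r3⟩ := k1 rfl
    rw [q1, r1] at hc
    simp only [Option.some.injEq, Prod.mk.injEq, true_and] at hc
    rw [← hc.1, q2] at r3
    exact adj1_irrefl _ r3
  · obtain ⟨q1, q2, q3⟩ := h0 rfl
    obtain ⟨r1, r2, r3⟩ := k2 rfl
    rw [q1, r1] at hc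
    simp at hc
  · obtain ⟨q1, q2, q3⟩ := h0 rfl
    obtain ⟨r1, r2, r3⟩ := k3 rfl
    rw [q1, r1] at hc
    simp at hc
  · obtain ⟨q1, q2, q3⟩ := h1 rfl
    obtain ⟨r1, r2, r3⟩ := k0 rfl
    rw [q1, r1] at hc
    simp only [Option.some.injEq, Prod.mk.injEq, true_and] at hc
    rw [hc.1, r2] at q3
    exact adj1_irrefl _ q3
  · exact hne rfl
  · obtain ⟨q1, q2, q3⟩ := h1 rfl
    obtain ⟨r1, r2, r3⟩ := k2 rfl
    rw [q1, r1] at hc
    simp at hc
  · obtain ⟨q1, q2, q3⟩ := h1 rfl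
    obtain ⟨r1, r2, r3⟩ := k3 rfl
    rw [q1, r1] at hc
    simp at hc
  · obtain ⟨q1, q2, q3⟩ := h2 rfl
    obtain ⟨r1, r2, r3⟩ := k0 rfl
    rw [q1, r1] at hc
    simp at hc
  · obtain ⟨q1, q2, q3⟩ := h2 rfl
    obtain ⟨r1, r2, r3⟩ := k1 rfl
    rw [q1, r1] at hc
    simp at hc
  · exact hne rfl
  · obtain ⟨q1, q2, q3⟩ := h2 rfl
    obtain ⟨r1, r2, r3⟩ := k3 rfl
    rw [q1, r1] at hc
    simp only [Option.some.injEq, Prod.mk.injEq, true_and] at hc
    rw [← hc.1, q2] at r3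
    exact adj2_irrefl _ r3
  · obtain ⟨q1, q2, q3⟩ := h3 rfl
    obtain ⟨r1, r2, r3⟩ := k0 rfl
    rw [q1, r1] at hc
    simp at hc
  · obtain ⟨q1, q2, q3⟩ := h3 rfl
    obtain ⟨r1, r2, r3⟩ := k1 rfl
    rw [q1, r1] at hc
    simp at hc
  · obtain ⟨q1, q2, q3⟩ := h3 rfl
    obtain ⟨r1, r2, r3⟩ := k2 rfl
    rw [q1, r1] at hc
    simp only [Option.some.injEq, Prod.mk.injEq, true_and] at hc
    rw [hc.1, r2] at q3
    exact adj2_irrefl _ q3
  · exact hne rfl

/-- the tile of a promoted vertex shows its next-level label -/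
theorem tile_next (w : S.Y) (hb : ¬ IsP (VV w 0)) : (S.T w.1).b = VV w 0 := by
  by_contra hne
  have ok := S.ok w.1
  have hg := good w
  have key : ∀ e, wire (VV w 0) e = 0 → wire (S.T w.1).b e ≠ 0 := by
    intro e he hw
    obtain ⟨l, l', h0, h1, h2, h3⟩ := hg e hb he
    have hcase : e = 0 ∨ e = 1 ∨ e = 2 ∨ e = 3 := by fin_cases e <;> simp
    rcases hcase with rfl | rfl | rfl | rfl
    · obtain ⟨q1, q2, q3⟩ := h0 rfl
      obtain ⟨m, r1, _⟩ := ok.p0 hw
      rw [q1] at r1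
      simp only [Option.some.injEq, Prod.mk.injEq, true_and] at r1
      rw [r1.1] at q2
      exact hne q2
    · obtain ⟨q1, q2, q3⟩ := h1 rfl
      obtain ⟨m, r1, _⟩ := ok.p1 hw
      rw [q1] at r1
      simp only [Option.some.injEq, Prod.mk.injEq, true_and] at r1
      rw [r1.2] at q2
      exact hne q2
    · obtain ⟨q1, q2, q3⟩ := h2 rfl
      obtain ⟨m, r1, _⟩ := ok.p2 hw
      rw [q1] at r1
      simp only [Option.some.injEq, Prod.mk.injEq, true_and] at r1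
      rw [r1.1] at q2
      exact hne q2
    · obtain ⟨q1, q2, q3⟩ := h3 rfl
      obtain ⟨m, r1, _⟩ := ok.p3 hw
      rw [q1] at r1
      simp only [Option.some.injEq, Prod.mk.injEq, true_and] at r1
      rw [r1.2] at q2
      exact hne q2
  obtain ⟨e, e', hee, h1, h2⟩ := two_free (VV w 0)
  exact no_pass hb hg hee h1 h2 (ok.pass e e' (key e h1) (key e' h2))

theorem VV_adj1 (v : S.Y) : Adj1 (VV v 0) (VV (g1 v) 0) := by
  rw [(cross_right v).1]
  exact (S.ok _).adj1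

theorem VV_adj2 (v : S.Y) : Adj2 (VV v 0) (VV (g2 v) 0) := by
  rw [(cross_up v).1]
  exact (S.ok _).adj2

theorem VV_shape (v : S.Y) : shp v = sh (VV v 0) := by
  have t2 := two_le_top (shp v) 1
  have e := yPos v 1 1 (by norm_num) (by omega)
  have i1 : ((1 : Fin 3).val : ℤ) = 1 := rfl
  rw [i1] at e
  have hn : ¬ IsP (S.B (S.sft 1 ((1 : ℕ) : ℤ) v.1)) := by
    rw [e]; exact not_isP_i (by decide)
  have h := (S.ok (S.sft 1 ((1 : ℕ) : ℤ) v.1)).shape
  rw [S.tile _ hn, e, V1 v 1 (by omega)] at h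
  exact h

/-- colours pass along the horizontal wire -/
theorem col_h (v : S.Y) : (S.T v.1).col 0 = (S.T (g1 v).1).col 1 := by
  have i1 : ((1 : Fin 3).val : ℤ) = 1 := rfl
  have i2 : ((2 : Fin 3).val : ℤ) = 2 := rfl
  have e1 := yPos v 1 0 (by norm_num) (by omega)
  have e2 := yPos v 2 0 (by norm_num) (by omega)
  rw [i1] at e1
  rw [i2] at e2
  simp only [Nat.cast_zero] at e1 e2
  have e1' : S.B (S.sft 1 0 v.1) = (shp v, 1, 0) := e1
  have e2' : S.B (S.sft 2 0 v.1) = (shp v, 2, 0) := e2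
  have n1 : ¬ IsP (S.B (S.sft 1 0 v.1)) := by rw [e1']; exact not_isP_i (by decide)
  have n2 : ¬ IsP (S.B (S.sft 2 0 v.1)) := by rw [e2']; exact not_isP_i (by decide)
  have s1 := S.t1 0 0 v.1
  rw [sft_zero, zero_add] at s1
  have p1 := (S.ok (S.sft 1 0 v.1)).pass 1 0 (by rw [S.tile _ n1, e1']; exact (wc10 _).2.2)
    (by rw [S.tile _ n1, e1']; exact (wc10 _).2.1)
  have s2 := S.t1 1 0 v.1
  rw [show (1 : ℤ) + 1 = 2 by norm_num] at s2
  rw [s1, p1, s2]
  rcases c1_cases (shp v) with hc | hc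
  · have p2 := (S.ok (S.sft 2 0 v.1)).pass 1 0 (by rw [S.tile _ n2, e2']; exact (wc20 _ hc).2.2)
      (by rw [S.tile _ n2, e2']; exact (wc20 _ hc).2.1)
    have s3 := S.t1 2 0 v.1
    rw [show (2 : ℤ) + 1 = 3 by norm_num] at s3
    rw [p2, s3]
    change _ = (S.T (S.sft 3 (-(c1 (shp v) : ℤ)) v.1)).col 1
    rw [hc]
    simp
  · have p2 := (S.ok (S.sft 2 0 v.1)).pass 1 3 (by rw [S.tile _ n2, e2']; exact (wc20' _ hc).2)
      (by rw [S.tile _ n2, e2']; exact (wc20' _ hc).1)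
    have s3 := S.t2 2 (-1) v.1
    rw [show (-1 : ℤ) + 1 = 0 by norm_num] at s3
    have hz := S.a2 2 (-1) v.1
    rw [show (-1 : ℤ) + 1 = 0 by norm_num] at hz
    have hb := adj2_below _ _ ⟨hz, by rw [e2']; exact (by decide : (2 : Fin 3) ≠ 0), by rw [e2']⟩
    rw [e2'] at hb
    simp only at hb
    obtain ⟨b1, b2, b3, b4⟩ := hb
    set z := S.sft 2 (-1) v.1 with hzdef
    have b1' : (S.B z).2.1 = 1 := b1
    rw [b1'] at b3
    have t1 := top1 (S.B z).1
    rw [hc] at b4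
    have hk : kap (S.B z).1 ≤ 1 := by unfold kap; split_ifs <;> omega
    have hs := s12' _ ⟨(by omega : kap (S.B z).1 = 1), (by omega : c2 (S.B z).1 = 0)⟩
    have b3' : (S.B z).2.2 = 3 := by
      apply Fin.ext
      rw [b3]
      change _ = 3
      omega
    have hBz : S.B z = ((S.B z).1, 1, 3) := by rw [← b1', ← b3']
    have nz : ¬ IsP (S.B z) := by rw [hBz]; exact not_isP_i (by decide)
    have p3 := (S.ok z).pass 2 0 (by rw [S.tile _ nz, hBz]; exact (wc13 _ hs).2.2)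
      (by rw [S.tile _ nz, hBz]; exact (wc13 _ hs).2.1)
    have s4 := S.t1 2 (-1) v.1
    rw [show (2 : ℤ) + 1 = 3 by norm_num] at s4
    rw [p2, ← s3, p3, s4]
    change _ = (S.T (S.sft 3 (-(c1 (shp v) : ℤ)) v.1)).col 1
    rw [hc]
    simp

/-- colours pass along the vertical wire -/
theorem col_v (v : S.Y) : (S.T v.1).col 2 = (S.T (g2 v).1).col 3 := by
  have i0 : ((0 : Fin 3).val : ℤ) = 0 := rfl
  have t2 := two_le_top (shp v) 0
  have t3 := top_le_three (shp v) 0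
  have tt := top0 (shp v)
  -- go up
  have up : ∀ n : ℕ, n + 1 ≤ top (shp v) 0 →
      (S.T v.1).col 2 = (S.T (S.sft 0 ((n + 1 : ℕ) : ℤ) v.1)).col 3 := by
    intro n
    induction n with
    | zero =>
      intro _
      have := S.t2 0 0 v.1
      rw [sft_zero] at this
      rw [this]
      simp
    | succ n ih =>
      intro hle
      rw [ih (by omega)]
      have e := yPos v 0 (n + 1) (by omega) (by omega)
      rw [i0] at e
      have hne : (⟨n + 1, by omega⟩ : Fin 4) ≠ 0 := fun h => by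
        have := congrArg Fin.val h
        simp at this
      have hn : ¬ IsP (S.B (S.sft 0 ((n + 1 : ℕ) : ℤ) v.1)) := by rw [e]; exact not_isP_j hne
      have hw := wc0j (shp v) ⟨n + 1, by omega⟩ hne (by simp only; omega)
      have p := (S.ok (S.sft 0 ((n + 1 : ℕ) : ℤ) v.1)).pass 3 2
        (by rw [S.tile _ hn, e]; exact hw.2) (by rw [S.tile _ hn, e]; exact hw.1)
      rw [p]
      have := S.t2 0 ((n + 1 : ℕ) : ℤ) v.1
      rw [this]
      congr 3
  have h1 := up (top (shp v) 0 - 1) (by omega)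
  rw [show top (shp v) 0 - 1 + 1 = top (shp v) 0 by omega] at h1
  rw [h1]
  have e := yPos v 0 (top (shp v) 0) (by omega) le_rfl
  rw [i0] at e
  have hne : (⟨top (shp v) 0, by omega⟩ : Fin 4) ≠ 0 := fun h => by
    have := congrArg Fin.val h
    simp at this
    omega
  have hn : ¬ IsP (S.B (S.sft 0 ((top (shp v) 0 : ℕ) : ℤ) v.1)) := by
    rw [e]; exact not_isP_j hne
  have hw := wc0t (shp v) ⟨top (shp v) 0, by omega⟩ rfl
  have p := (S.ok (S.sft 0 ((top (shp v) 0 : ℕ) : ℤ) v.1)).pass 3 1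
    (by rw [S.tile _ hn, e]; exact hw.2) (by rw [S.tile _ hn, e]; exact hw.1)
  rw [p]
  have s := S.t1 (-1) (top (shp v) 0 : ℤ) v.1
  rw [show (-1 : ℤ) + 1 = 0 by norm_num] at s
  rw [← s]
  have ha := S.a1 (-1) (top (shp v) 0 : ℤ) v.1
  rw [show (-1 : ℤ) + 1 = 0 by norm_num] at ha
  have hb := adj1_left _ _ ⟨ha, by rw [e], by rw [e]; exact hne⟩
  rw [e] at hb
  simp only at hb
  obtain ⟨b1, b2, b3⟩ := hb
  set z := S.sft (-1) (top (shp v) 0 : ℤ) v.1 with hzdef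
  have ht2 := top2 (S.B z).1
  have b4 : (S.B z).2.2.val = top (S.B z).1 2 := by omega
  have hBz : S.B z = ((S.B z).1, 2, (S.B z).2.2) := by rw [← b1]
  have nz : ¬ IsP (S.B z) := by rw [hBz]; exact not_isP_i (by decide)
  have hwz := wc2t _ _ b4
  have p3 := (S.ok z).pass 0 2 (by rw [S.tile _ nz, hBz]; exact hwz.2.1)
    (by rw [S.tile _ nz, hBz]; exact hwz.2.2)
  rw [p3]
  have s4 := S.t2 (-1) (top (shp v) 0 : ℤ) v.1
  rw [hzdef, s4]
  change _ = (S.T (S.sft (-1) (4 - (c2 (shp v) : ℤ)) v.1)).col 3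
  congr 3
  omega

/-- the next level -/
noncomputable def derive (S : Sys X) : Sys S.Y where
  f1 := Equiv.ofBijective g1 ⟨g1_inj, g1_surj⟩
  f2 := Equiv.ofBijective g2 ⟨g2_inj, g2_surj⟩
  comm := by
    apply Equiv.ext
    intro v
    exact g_comm v
  B := fun v => VV v 0
  T := fun v => S.T v.1
  adj1 := VV_adj1
  adj2 := VV_adj2
  tile := tile_next
  col1 := col_h
  col2 := col_v
  ok := fun v => S.ok v.1

end Sys

end Pool.Agent.LibRot
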