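import Pool.Agent.LibRot.Odo

set_option autoImplicit false

namespace Pool.Agent.LibRot

/-- the rules: `a` is the label of a point, `b` and `c` are the labels of its images under the two
generators -/
def Rules (a b c : Base × Tile) : Prop :=
  Adj1 a.1 b.1 ∧ Adj2 a.1 c.1 ∧ (¬ IsP a.1 → a.2.b = a.1) ∧ a.2.col 0 = b.2.col 1 ∧
    a.2.col 2 = c.2.col 3 ∧ a.2.OK

/-- the window `{0, m₁, m₂}` -/
def window {n : ℕ} (m1 m2 : Fin n → ℤ) : Finset (Fin n → ℤ) := {0, m1, m2}

theorem mem0 {n : ℕ} (m1 m2 : Fin n → ℤ) : 0 ∈ window m1 m2 := by simp [window]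
theorem mem1 {n : ℕ} (m1 m2 : Fin n → ℤ) : m1 ∈ window m1 m2 := by simp [window]
theorem mem2 {n : ℕ} (m1 m2 : Fin n → ℤ) : m2 ∈ window m1 m2 := by simp [window]

/-- the LCL problem -/
def Prob {n : ℕ} (m1 m2 : Fin n → ℤ) : LCL n where
  W := window m1 m2
  Lab := Base × Tile
  fin := inferInstance
  A := {p | Rules (p ⟨0, mem0 m1 m2⟩) (p ⟨m1, mem1 m1 m2⟩) (p ⟨m2, mem2 m1 m2⟩)}

theorem isLabeling_iff {n : ℕ} (m1 m2 : Fin n → ℤ) {X : Type} (act : (Fin n → ℤ) → X → X)
    (h0 : ∀ x, act 0 x = x) (f : X → Base × Tile) :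
    IsLabeling (Prob m1 m2) act f ↔ ∀ x, Rules (f x) (f (act m1 x)) (f (act m2 x)) := by
  unfold IsLabeling
  constructor
  · intro h x
    have := h x
    change Rules (f (act 0 x)) (f (act m1 x)) (f (act m2 x)) at this
    rwa [h0] at this
  · intro h x
    change Rules (f (act 0 x)) (f (act m1 x)) (f (act m2 x))
    rw [h0]
    exact h x

/-- the permutation of an element of the acting group -/
def permOf {n : ℕ} {X : Type} (act : (Fin n → ℤ) → X → X) (h0 : ∀ x, act 0 x = x)
    (hadd : ∀ a b x, act (a + b) x = act a (act b x)) (m : Fin n → ℤ) : Equiv.Perm X where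
  toFun := act m
  invFun := act (-m)
  left_inv x := by rw [← hadd, neg_add_cancel, h0]
  right_inv x := by rw [← hadd, add_neg_cancel, h0]

/-- the system of a labeling -/
def sysOf {n : ℕ} (m1 m2 : Fin n → ℤ) {X : Type} (act : (Fin n → ℤ) → X → X)
    (h0 : ∀ x, act 0 x = x) (hadd : ∀ a b x, act (a + b) x = act a (act b x))
    (f : X → Base × Tile) (h : ∀ x, Rules (f x) (f (act m1 x)) (f (act m2 x))) : Sys X where
  f1 := permOf act h0 hadd m1
  f2 := permOf act h0 hadd m2
  comm := by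
    apply Equiv.ext
    intro x
    change act m1 (act m2 x) = act m2 (act m1 x)
    rw [← hadd, ← hadd, add_comm]
  B x := (f x).1
  T x := (f x).2
  adj1 x := (h x).1
  adj2 x := (h x).2.1
  tile x := (h x).2.2.1
  col1 x := (h x).2.2.2.1
  col2 x := (h x).2.2.2.2.1
  ok x := (h x).2.2.2.2.2

/-- the problem has no Baire-measurable solution on the odometer -/
theorem not_solvable_odo {n : ℕ} (m1 m2 : Fin n → ℤ) :
    ¬ Solvable (Prob m1 m2) (Fin n → ℤ_[2]) odo := by
  rintro ⟨f, hf, hlab⟩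
  have h0 : ∀ x, odo (n := n) 0 x = x := odo_free.zero
  have hadd : ∀ a b x, odo (n := n) (a + b) x = odo a (odo b x) := odo_free.add
  have hr := (isLabeling_iff m1 m2 odo h0 f).1 hlab
  set S := sysOf m1 m2 odo h0 hadd f hr with hS
  obtain ⟨b, x, N, hN, hx⟩ := odo_const (fun x => ((f x).1 : Base)) (fun b => by
    have := hf {l | l.1 = b}
    exact this) m1
  have hL : ∀ (k : ℕ) (z : Fin n → ℤ_[2]), ∃ c : ℤ,
      S.L (odo ((k : ℤ) • m1) z) = S.L z + k * alp - c := by
    intro k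
    induction k with
    | zero => intro z; exact ⟨0, by simp [h0]⟩
    | succ k ih =>
      intro z
      obtain ⟨c, hc⟩ := ih z
      have e : odo (((k + 1 : ℕ) : ℤ) • m1) z = S.f1 (odo ((k : ℤ) • m1) z) := by
        change _ = odo m1 (odo ((k : ℤ) • m1) z)
        rw [← hadd]
        congr 1
        push_cast
        rw [add_smul, one_smul, add_comm]
      refine ⟨c + c1b (S.B (odo ((k : ℤ) • m1) z)), ?_⟩
      rw [e, Sys.L_f1, hc]
      push_cast
      ring
  apply no_short (N * alp) (by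
    have : (N : ℝ) * alp = ((N : ℕ) : ℝ) * alp := rfl
    exact irr_alp.natCast_mul (by omega)) (fun m => S.L (odo ((m * N : ℤ) • m1) x)) (Sys.off b)
  · intro m
    obtain ⟨c, hc⟩ := hL N (odo ((m * N : ℤ) • m1) x)
    refine ⟨c, ?_⟩
    have e : odo ((((m + 1 : ℕ) : ℤ) * N : ℤ) • m1) x =
        odo ((N : ℤ) • m1) (odo ((m * N : ℤ) • m1) x) := by
      rw [← hadd]
      congr 1
      push_cast
      rw [← add_smul]
      congr 1
      ring
    rw [e, hc]
  · intro m
    have h1 := Sys.L_range S (odo ((m * N : ℤ) • m1) x)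
    have h2 : S.B (odo ((m * N : ℤ) • m1) x) = b := hx m
    rw [h2] at h1
    have := lam_lt
    constructor
    · exact h1.1
    · linarith [h1.2]

theorem not_mem_BAIRE {n : ℕ} (m1 m2 : Fin n → ℤ) : Prob m1 m2 ∉ BAIRE n := fun h =>
  not_solvable_odo m1 m2 (h _ _ odo_free)

end Pool.Agent.LibRot
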