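import Pool.Agent.LibRot.Ports
import Pool.Agent.LibRot.Prob

set_option autoImplicit false

namespace Pool.Agent.LibRot

/-- the tile of the exact descendant, with fuel -/
noncomputable def TT : ℕ → ℝ → Option Tile
  | 0, _ => none
  | n + 1, θ => if IsP (bs θ) then TT n (cell θ) else some (mkTile θ)

theorem TT_P (n : ℕ) {θ : ℝ} (h : IsP (bs θ)) : TT (n + 1) θ = TT n (cell θ) := by
  rw [TT, if_pos h]
theorem TT_0 (n : ℕ) {θ : ℝ} (h : ¬ IsP (bs θ)) : TT (n + 1) θ = some (mkTile θ) := by
  rw [TT, if_neg h]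

theorem TT_mono (n : ℕ) : ∀ (θ : ℝ) (c : Tile), TT n θ = some c → TT (n + 1) θ = some c := by
  induction n with
  | zero => intro θ c h; exact absurd h (by simp [TT])
  | succ n ih =>
    intro θ c h
    by_cases hP : IsP (bs θ)
    · rw [TT_P _ hP] at h ⊢; exact ih _ _ h
    · rw [TT_0 _ hP] at h ⊢; exact h

theorem TT_mono' {m n : ℕ} (hmn : m ≤ n) {θ : ℝ} {c : Tile}
    (h : TT m θ = some c) : TT n θ = some c := by
  induction hmn with
  | refl => exact h
  | step _ ih => exact TT_mono _ _ _ ih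

/-- promoted points of the circle -/
theorem cell_of_P {θ : ℝ} (h : I θ) (hP : IsP (bs θ)) : θ = lam * cell θ := by
  have d := dec_self h
  obtain ⟨h1, h2⟩ := hP
  have hi : idx θ = 0 := h1
  have hj : jdx θ = 0 := h2
  have := d.eq
  rw [hi, hj, v30, v40] at this
  linarith

theorem TT_exists (n : ℕ) : ∀ θ : ℝ, I θ → lam ^ n ≤ θ → ∃ t, TT n θ = some t := by
  have l1 := lam_gt
  induction n with
  | zero => intro θ h h'; exact absurd h.2 (by simpa using h')
  | succ n ih =>
    intro θ h h'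
    by_cases hP : IsP (bs θ)
    · rw [TT_P _ hP]
      apply ih _ (cell_I h)
      have e := cell_of_P h hP
      rw [e, pow_succ, mul_comm] at h'
      exact le_of_mul_le_mul_left h' (by linarith)
    · exact ⟨_, TT_0 _ hP⟩

theorem TT_ok (n : ℕ) : ∀ (θ : ℝ) (t : Tile), I θ → TT n θ = some t →
    t.OK ∧ ∀ d, t.col d = PT d θ := by
  induction n with
  | zero => intro θ t _ h; exact absurd h (by simp [TT])
  | succ n ih =>
    intro θ t h ht
    by_cases hP : IsP (bs θ)
    · rw [TT_P _ hP] at ht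
      obtain ⟨h1, h2⟩ := ih _ t (cell_I h) ht
      refine ⟨h1, fun d => ?_⟩
      rw [h2 d, PT_P d hP]
    · rw [TT_0 _ hP] at ht
      rw [Option.some.injEq] at ht
      rw [← ht]
      exact ⟨mkTile_ok h hP, fun d => mkTile_col θ d⟩

open Classical in
/-- the tile at a point of the circle -/
noncomputable def Tl (θ : ℝ) : Tile :=
  if h : ∃ t n, TT n θ = some t then h.choose else mkTile 0

theorem Tl_eq {θ : ℝ} {n : ℕ} {t : Tile} (h : TT n θ = some t) : Tl θ = t := by
  have h' : ∃ t n, TT n θ = some t := ⟨t, n, h⟩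
  unfold Tl
  rw [dif_pos h']
  obtain ⟨m, hm⟩ := h'.choose_spec
  have h1 := TT_mono' (le_max_left n m) h
  have h2 := TT_mono' (le_max_right n m) hm
  rw [h1, Option.some.injEq] at h2
  exact h2.symm

theorem Tl_spec {θ : ℝ} (h : I θ) (h0 : 0 < θ) : ∃ n, TT n θ = some (Tl θ) := by
  have l1 := lam_gt; have l2 := lam_lt
  obtain ⟨n, hn⟩ := exists_pow_lt_of_lt_one h0 (by linarith : lam < 1)
  obtain ⟨t, ht⟩ := TT_exists n θ h hn.le
  exact ⟨n, by rw [Tl_eq ht]; exact ht⟩

theorem Tl_ok {θ : ℝ} (h : I θ) (h0 : 0 < θ) : (Tl θ).OK := by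
  obtain ⟨n, hn⟩ := Tl_spec h h0
  exact (TT_ok n θ _ h hn).1

theorem Tl_col {θ : ℝ} (h : I θ) (h0 : 0 < θ) (d : Fin 4) : (Tl θ).col d = PT d θ := by
  obtain ⟨n, hn⟩ := Tl_spec h h0
  exact (TT_ok n θ _ h hn).2 d

theorem Tl_b {θ : ℝ} (hP : ¬ IsP (bs θ)) : (Tl θ).b = bs θ := by
  rw [Tl_eq (TT_0 0 hP)]; rfl

/-- the rules hold on the circle away from zero -/
theorem rules_real {θ : ℝ} (h : I θ) (h0 : 0 < θ) (h1 : 0 < rot1 θ) (h2 : 0 < rot2 θ) :
    Rules (bs θ, Tl θ) (bs (rot1 θ), Tl (rot1 θ)) (bs (rot2 θ), Tl (rot2 θ)) := by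
  refine ⟨bs_adj1 h, bs_adj2 h, Tl_b, ?_, ?_, Tl_ok h h0⟩
  · change (Tl θ).col 0 = (Tl (rot1 θ)).col 1
    rw [Tl_col h h0, Tl_col (rot1_I h) h1, PT_match0 h]
  · change (Tl θ).col 2 = (Tl (rot2 θ)).col 3
    rw [Tl_col h h0, Tl_col (rot2_I h) h2, PT_match2 h]

/-- coordinate in `[0, 1)` -/
noncomputable def coord (y : UnitAddCircle) : ℝ := (AddCircle.equivIco 1 0 y : ℝ)

theorem coord_I (y : UnitAddCircle) : I (coord y) := by
  have := (AddCircle.equivIco (1 : ℝ) 0 y).2
  simp only [zero_add, Set.mem_Ico] at this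
  exact this

theorem coe_coord (y : UnitAddCircle) : ((coord y : ℝ) : UnitAddCircle) = y :=
  AddCircle.coe_equivIco

theorem coord_coe {r : ℝ} (h : I r) : coord (r : UnitAddCircle) = r := by
  unfold coord
  rw [AddCircle.equivIco_coe_eq (p := (1 : ℝ)) (a := 0) (by rw [zero_add]; exact h)]

theorem coord_add_alp (y : UnitAddCircle) :
    coord (y + (alp : UnitAddCircle)) = rot1 (coord y) := by
  have h := coord_I y
  rw [← coord_coe (rot1_I h)]
  congr 1
  conv_lhs => rw [← coe_coord y]
  rw [← AddCircle.coe_add]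
  unfold rot1
  split_ifs
  · rfl
  · rw [AddCircle.coe_sub, AddCircle.coe_period, sub_zero]

theorem coord_add_lam (y : UnitAddCircle) :
    coord (y + (lam : UnitAddCircle)) = rot2 (coord y) := by
  have h := coord_I y
  rw [← coord_coe (rot2_I h)]
  congr 1
  conv_lhs => rw [← coe_coord y]
  rw [← AddCircle.coe_add]
  unfold rot2
  split_ifs
  · rfl
  · rw [AddCircle.coe_sub, AddCircle.coe_period, sub_zero]

theorem coord_pos {y : UnitAddCircle} (h : y ≠ 0) : 0 < coord y := by
  rcases (coord_I y).1.lt_or_eq with h1 | h1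
  · exact h1
  · exfalso
    apply h
    rw [← coe_coord y, ← h1]
    simp

/-- the labeling away from the orbit of zero -/
noncomputable def gl (y : UnitAddCircle) : Base × Tile := (bs (coord y), Tl (coord y))

theorem rules_gl {y : UnitAddCircle} (h0 : y ≠ 0) (h1 : y + (alp : UnitAddCircle) ≠ 0)
    (h2 : y + (lam : UnitAddCircle) ≠ 0) :
    Rules (gl y) (gl (y + (alp : UnitAddCircle))) (gl (y + (lam : UnitAddCircle))) := by
  have e1 := coord_add_alp y
  have e2 := coord_add_lam y
  have p1 := coord_pos h1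
  have p2 := coord_pos h2
  rw [e1] at p1
  rw [e2] at p2
  unfold gl
  rw [e1, e2]
  exact rules_real (coord_I y) (coord_pos h0) p1 p2

/-- the countable subgroup generated by the two rotations -/
def H : AddSubgroup UnitAddCircle :=
  AddSubgroup.closure {(alp : UnitAddCircle), (lam : UnitAddCircle)}

theorem alp_mem : (alp : UnitAddCircle) ∈ H := AddSubgroup.subset_closure (by simp)
theorem lam_mem : (lam : UnitAddCircle) ∈ H := AddSubgroup.subset_closure (by simp)

theorem H_countable : (H : Set UnitAddCircle).Countable := by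
  have h : (H : Set UnitAddCircle) ⊆
      Set.range (fun p : ℤ × ℤ => p.1 • (alp : UnitAddCircle) + p.2 • (lam : UnitAddCircle)) := by
    intro x hx
    obtain ⟨a, b, h⟩ := AddSubgroup.mem_closure_pair.1 hx
    exact ⟨(a, b), h⟩
  exact (Set.countable_range _).mono h

theorem exists_base : ∃ x : UnitAddCircle, x ∉ H := by
  by_contra hcon
  push Not at hcon
  have h1 : (Set.univ : Set UnitAddCircle).Countable := by
    apply H_countable.mono
    intro x _
    exact hcon x
  have h2 : (Set.Ico (0 : ℝ) 1).Countable := by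
    have : Set.Ico (0 : ℝ) 1 ⊆ coord '' Set.univ := by
      intro r hr
      exact ⟨(r : UnitAddCircle), trivial, coord_coe hr⟩
    exact (h1.image coord).mono this
  exact (Cardinal.Real.Ico_countable_iff.1 h2).not_gt one_pos

open Classical in
/-- the labeling of the circle -/
noncomputable def fl (y : UnitAddCircle) : Base × Tile :=
  if y ∈ H then gl (exists_base.choose + y) else gl y

theorem rules_fl (y : UnitAddCircle) :
    Rules (fl y) (fl (y + (alp : UnitAddCircle))) (fl (y + (lam : UnitAddCircle))) := by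
  have hx := exists_base.choose_spec
  unfold fl
  by_cases hy : y ∈ H
  · have h1 := H.add_mem hy alp_mem
    have h2 := H.add_mem hy lam_mem
    rw [if_pos hy, if_pos h1, if_pos h2, ← add_assoc, ← add_assoc]
    have key : ∀ z ∈ H, exists_base.choose + z ≠ 0 := by
      intro z hz h0
      apply hx
      rw [eq_neg_of_add_eq_zero_left h0]
      exact H.neg_mem hz
    apply rules_gl (key _ hy)
    · rw [add_assoc]; exact key _ h1
    · rw [add_assoc]; exact key _ h2
  · have h1 : y + (alp : UnitAddCircle) ∉ H := fun h => hy ((H.add_mem_cancel_right alp_mem).1 h)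
    have h2 : y + (lam : UnitAddCircle) ∉ H := fun h => hy ((H.add_mem_cancel_right lam_mem).1 h)
    rw [if_neg hy, if_neg h1, if_neg h2]
    apply rules_gl
    · rintro rfl; exact hy H.zero_mem
    · intro h; rw [h] at h1; exact h1 H.zero_mem
    · intro h; rw [h] at h2; exact h2 H.zero_mem

end Pool.Agent.LibRot
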