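import Mathlib

set_option autoImplicit false

namespace Pool.Agent.LibRot

/-- An LCL problem on `ℤⁿ`: a finite window, a finite set of labels and the allowed patterns. -/
structure LCL (n : ℕ) where
  W : Finset (Fin n → ℤ)
  Lab : Type
  fin : Finite Lab
  A : Set (W → Lab)

/-- a free Borel action of `ℤⁿ` on a topological space (with its Borel sets) -/
structure IsFreeBorelAction {n : ℕ} (X : Type) [TopologicalSpace X]
    (act : (Fin n → ℤ) → X → X) : Prop where
  zero : ∀ x, act 0 x = x
  add : ∀ a b x, act (a + b) x = act a (act b x)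
  free : ∀ a x, act a x = x → a = 0
  borel : ∀ (a : Fin n → ℤ) (U : Set X), IsOpen U → @MeasurableSet X (borel X) (act a ⁻¹' U)

/-- `f` is a labeling of `X` that solves the problem -/
def IsLabeling {n : ℕ} (P : LCL n) {X : Type} (act : (Fin n → ℤ) → X → X) (f : X → P.Lab) : Prop :=
  ∀ x : X, (fun w : P.W => f (act w.1 x)) ∈ P.A

/-- Baire-measurable maps to a set of labels: all preimages have the Baire property -/
def BaireMeas {X L : Type} [TopologicalSpace X] (f : X → L) : Prop :=
  ∀ S : Set L, BaireMeasurableSet (f ⁻¹' S)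

/-- the action admits a Baire-measurable solution of the problem -/
def Solvable {n : ℕ} (P : LCL n) (X : Type) [TopologicalSpace X]
    (act : (Fin n → ℤ) → X → X) : Prop :=
  ∃ f : X → P.Lab, BaireMeas f ∧ IsLabeling P act f

/-- the class `BAIRE(ℤⁿ)` -/
def BAIRE (n : ℕ) : Set (LCL n) :=
  {P | ∀ (X : Type) [TopologicalSpace X] [PolishSpace X] (act : (Fin n → ℤ) → X → X),
    IsFreeBorelAction X act → Solvable P X act}

/-- an action is Baire-universal if the problems with a Baire-measurable solution on it are exactly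
the members of `BAIRE(ℤⁿ)` -/
def BaireUniversal {n : ℕ} (X : Type) [TopologicalSpace X] (act : (Fin n → ℤ) → X → X) : Prop :=
  ∀ P : LCL n, Solvable P X act ↔ P ∈ BAIRE n

/-- the action of `ℤⁿ` on the circle by rotations -/
noncomputable def rot {n : ℕ} (α : Fin n → ℝ) (m : Fin n → ℤ) (x : UnitAddCircle) :
    UnitAddCircle := x + ((∑ i, (m i : ℝ) * α i : ℝ) : UnitAddCircle)

/-- `1, α₁, …, αₙ` are linearly independent over `ℚ` -/
def Independent {n : ℕ} (α : Fin n → ℝ) : Prop :=
  LinearIndependent ℚ (Fin.cons 1 α : Fin (n + 1) → ℝ)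

end Pool.Agent.LibRot
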