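import Pool.Agent.LibRot.Lab

set_option autoImplicit false

namespace Pool.Agent.LibRot

/-- all preimages are Borel -/
def DM {α : Type} (f : ℝ → α) : Prop := ∀ S : Set α, MeasurableSet (f ⁻¹' S)

theorem DM.post {α β : Type} {f : ℝ → α} (hf : DM f) (h : α → β) : DM (fun x => h (f x)) :=
  fun S => hf (h ⁻¹' S)

theorem DM.pre {α : Type} {f : ℝ → α} (hf : DM f) {g : ℝ → ℝ} (hg : Measurable g) :
    DM (fun x => f (g x)) := fun S => hg (hf S)

theorem DM.const {α : Type} (a : α) : DM (fun _ : ℝ => a) := by
  intro S
  by_cases h : a ∈ S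
  · have : (fun _ : ℝ => a) ⁻¹' S = Set.univ := by ext; simp [h]
    rw [this]; exact MeasurableSet.univ
  · have : (fun _ : ℝ => a) ⁻¹' S = ∅ := by ext; simp [h]
    rw [this]; exact MeasurableSet.empty

theorem DM.of_single {α : Type} [Countable α] {f : ℝ → α}
    (h : ∀ a, MeasurableSet {x | f x = a}) : DM f := by
  intro S
  have : f ⁻¹' S = ⋃ a ∈ S, {x | f x = a} := by ext; simp
  rw [this]
  exact MeasurableSet.biUnion S.to_countable fun a _ => h a

theorem DM.ite {α : Type} {f g : ℝ → α} (hf : DM f) (hg : DM g) (p : ℝ → Prop)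
    [DecidablePred p] (hp : MeasurableSet {x | p x}) : DM (fun x => if p x then f x else g x) := by
  intro S
  have : (fun x => if p x then f x else g x) ⁻¹' S =
      ({x | p x} ∩ f ⁻¹' S) ∪ ({x | p x}ᶜ ∩ g ⁻¹' S) := by
    ext x
    by_cases h : p x <;> simp [h]
  rw [this]
  exact (hp.inter (hf S)).union (hp.compl.inter (hg S))

theorem DM.prod {α β : Type} [Countable α] [Countable β] {f : ℝ → α} {g : ℝ → β} (hf : DM f)
    (hg : DM g) : DM (fun x => (f x, g x)) := by
  apply DM.of_single
  rintro ⟨a, b⟩
  have : {x | (f x, g x) = (a, b)} = f ⁻¹' {a} ∩ g ⁻¹' {b} := by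
    ext x; simp
  rw [this]
  exact (hf _).inter (hg _)

theorem DM.set {α : Type} {f : ℝ → α} (hf : DM f) (p : α → Prop) : MeasurableSet {x | p (f x)} :=
  hf {a | p a}

theorem DM.real {α : Type} {f : ℝ → α} (hf : DM f) [Countable α] (h : α → ℝ) :
    Measurable (fun x => h (f x)) := fun S _ => hf (h ⁻¹' S)

theorem dm_idx : DM idx := by
  unfold idx
  exact (DM.const _).ite ((DM.const _).ite (DM.const _) _ (measurableSet_lt measurable_id
    measurable_const)) _ (measurableSet_lt measurable_id measurable_const)

theorem meas_rem1 : Measurable rem1 := by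
  unfold rem1
  exact measurable_id.sub (dm_idx.real (fun i => (i.val : ℝ) * alp))

theorem dm_jdx : DM jdx := by
  unfold jdx
  exact (DM.const _).ite ((DM.const _).ite ((DM.const _).ite (DM.const _) _
    (measurableSet_lt meas_rem1 measurable_const)) _
    (measurableSet_lt meas_rem1 measurable_const)) _
    (measurableSet_lt meas_rem1 measurable_const)

theorem meas_cell : Measurable cell := by
  unfold cell
  exact (meas_rem1.sub (dm_jdx.real (fun j => (j.val : ℝ) * lam))).div_const _

theorem dm_shape : DM shape := by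
  unfold shape
  exact (DM.const _).ite ((DM.const _).ite ((DM.const _).ite (DM.const _) _
    (measurableSet_le measurable_const measurable_id)) _
    (measurableSet_le measurable_const measurable_id)) _
    (measurableSet_le measurable_const measurable_id)

theorem dm_bs : DM bs := (dm_shape.pre meas_cell).prod (dm_idx.prod dm_jdx)

theorem meas_rot1 : Measurable rot1 := by
  unfold rot1
  exact Measurable.ite (measurableSet_lt (measurable_id.add_const _) measurable_const)
    (measurable_id.add_const _) ((measurable_id.add_const _).sub_const _)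
theorem meas_rot2 : Measurable rot2 := by
  unfold rot2
  exact Measurable.ite (measurableSet_lt (measurable_id.add_const _) measurable_const)
    (measurable_id.add_const _) ((measurable_id.add_const _).sub_const _)
theorem meas_unrot1 : Measurable unrot1 := by
  unfold unrot1
  exact Measurable.ite (measurableSet_le measurable_const measurable_id)
    (measurable_id.sub_const _) ((measurable_id.sub_const _).add_const _)
theorem meas_unrot2 : Measurable unrot2 := by
  unfold unrot2
  exact Measurable.ite (measurableSet_le measurable_const measurable_id)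
    (measurable_id.sub_const _) ((measurable_id.sub_const _).add_const _)

theorem dm_Vv : DM Vv := by
  have h := (dm_bs.prod ((dm_bs.pre meas_rot1).prod ((dm_bs.pre meas_rot2).prod
    (dm_bs.pre (meas_rot1.comp meas_rot2))))).post
    (fun q : Base × Base × Base × Base => (![q.1, q.2.1, q.2.2.1, q.2.2.2] : Fin 4 → Base))
  exact h

theorem dm_lbl : DM lbl := dm_bs.prod (dm_Vv.pre meas_cell)

theorem dm_dcol (d : Fin 4) : DM (dcol d) := by
  rcases fin4_cases d with rfl | rfl | rfl | rfl
  · exact (DM.const false).prod (dm_lbl.prod (dm_lbl.pre meas_rot1))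
  · exact (DM.const false).prod ((dm_lbl.pre meas_unrot1).prod dm_lbl)
  · exact (DM.const true).prod (dm_lbl.prod (dm_lbl.pre meas_rot2))
  · exact (DM.const true).prod ((dm_lbl.pre meas_unrot2).prod dm_lbl)

theorem dm_Port (n : ℕ) : ∀ d, DM (Port n d) := by
  induction n with
  | zero => intro d; exact DM.const none
  | succ n ih =>
    intro d
    have e : Port (n + 1) d = fun θ =>
      if IsP (bs θ) then Port n d (cell θ)
      else if wire (bs θ) d = 0 then some (dcol d θ)
      else if wire (bs θ) d = 1 then Port n 0 (cell θ)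
      else if wire (bs θ) d = 2 then Port n 2 (cell θ)
      else if wire (bs θ) d = 3 then Port n 2 (rot1 (cell θ))
      else Port n 0 (rot2 (cell θ)) := by
        funext θ; rw [Port]
    rw [e]
    exact ((ih d).pre meas_cell).ite (((dm_dcol d).post some).ite (((ih 0).pre meas_cell).ite
      (((ih 2).pre meas_cell).ite (((ih 2).pre (meas_rot1.comp meas_cell)).ite
        ((ih 0).pre (meas_rot2.comp meas_cell)) _ (dm_bs.set fun b => wire b d = 3)) _
        (dm_bs.set fun b => wire b d = 2)) _ (dm_bs.set fun b => wire b d = 1)) _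
        (dm_bs.set fun b => wire b d = 0)) _ (dm_bs.set IsP)

theorem dm_PT (d : Fin 4) : DM (PT d) := by
  have key : ∀ c, MeasurableSet {x | PT d x = some c} := by
    intro c
    have : {x | PT d x = some c} = ⋃ n, Port n d ⁻¹' {some c} := by
      ext x
      simp only [Set.mem_ofPred_eq, Set.mem_iUnion, Set.mem_preimage, Set.mem_singleton_iff]
      exact PT_iff d x c
    rw [this]
    exact MeasurableSet.iUnion fun n => dm_Port n d _
  apply DM.of_single
  intro o
  cases o with
  | none =>
    have : {x | PT d x = none} = (⋃ c, {x | PT d x = some c})ᶜ := by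
      ext x
      simp only [Set.mem_ofPred_eq, Set.mem_compl_iff, Set.mem_iUnion, not_exists]
      constructor
      · intro h c hc
        rw [h] at hc
        exact absurd hc (by simp)
      · intro h
        cases hx : PT d x with
        | none => rfl
        | some c => exact absurd hx (h c)
    rw [this]
    exact (MeasurableSet.iUnion key).compl
  | some c => exact key c

theorem vec4 {α : Type} (f : Fin 4 → α) : f = ![f 0, f 1, f 2, f 3] := by
  funext d
  rcases fin4_cases d with rfl | rfl | rfl | rfl <;> rfl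

theorem mkTile_eq (θ : ℝ) :
    mkTile θ = (⟨bs θ, Vv (cell θ), ![PT 0 θ, PT 1 θ, PT 2 θ, PT 3 θ]⟩ : Tile) := by
  have h := vec4 (fun d => PT d θ)
  unfold mkTile
  rw [h]

theorem dm_mkTile : DM mkTile := by
  have h := (dm_bs.prod ((dm_Vv.pre meas_cell).prod ((dm_PT 0).prod ((dm_PT 1).prod
    ((dm_PT 2).prod (dm_PT 3)))))).post
    (fun q : Base × (Fin 4 → Base) × Option Color × Option Color × Option Color × Option Color =>
      (⟨q.1, q.2.1, ![q.2.2.1, q.2.2.2.1, q.2.2.2.2.1, q.2.2.2.2.2]⟩ : Tile))
  have e : mkTile = fun θ => (⟨bs θ, Vv (cell θ), ![PT 0 θ, PT 1 θ, PT 2 θ, PT 3 θ]⟩ : Tile) := by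
    funext θ
    exact mkTile_eq θ
  rw [e]
  exact h

theorem dm_TT (n : ℕ) : DM (TT n) := by
  induction n with
  | zero => exact DM.const none
  | succ n ih =>
    have e : TT (n + 1) = fun θ => if IsP (bs θ) then TT n (cell θ) else some (mkTile θ) := by
      funext θ; rw [TT]
    rw [e]
    exact (ih.pre meas_cell).ite (dm_mkTile.post some) _ (dm_bs.set IsP)

theorem dm_Tl : DM Tl := by
  have key : ∀ t, MeasurableSet {x | ∃ n, TT n x = some t} := by
    intro t
    have : {x | ∃ n, TT n x = some t} = ⋃ n, TT n ⁻¹' {some t} := by ext x; simp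
    rw [this]
    exact MeasurableSet.iUnion fun n => dm_TT n _
  have hex : MeasurableSet {x | ∃ t n, TT n x = some t} := by
    have : {x | ∃ t n, TT n x = some t} = ⋃ t, {x | ∃ n, TT n x = some t} := by ext x; simp
    rw [this]
    exact MeasurableSet.iUnion key
  apply DM.of_single
  intro t
  have : {x | Tl x = t} = {x | ∃ n, TT n x = some t} ∪
      ({x | ∃ t n, TT n x = some t}ᶜ ∩ {_x | mkTile 0 = t}) := by
    ext x
    simp only [Set.mem_ofPred_eq, Set.mem_union, Set.mem_inter_iff, Set.mem_compl_iff]
    constructor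
    · intro h
      by_cases hx : ∃ t n, TT n x = some t
      · left
        obtain ⟨t', n, ht'⟩ := hx
        have := Tl_eq ht'
        rw [h] at this
        exact ⟨n, by rw [this]; exact ht'⟩
      · right
        refine ⟨hx, ?_⟩
        unfold Tl at h
        rw [dif_neg hx] at h
        exact h
    · rintro (⟨n, hn⟩ | ⟨hx, h⟩)
      · exact Tl_eq hn
      · unfold Tl
        rw [dif_neg hx]
        exact h
  rw [this]
  refine (key t).union (hex.compl.inter ?_)
  by_cases h : mkTile 0 = t
  · simp [h]
  · simp [h]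

theorem meas_coord : Measurable coord :=
  measurable_subtype_coe.comp (AddCircle.measurableEquivIco (1 : ℝ) 0).measurable

theorem meas_gl (S : Set (Base × Tile)) : MeasurableSet (gl ⁻¹' S) :=
  meas_coord ((dm_bs.prod dm_Tl) S)

theorem meas_fl (S : Set (Base × Tile)) : MeasurableSet (fl ⁻¹' S) := by
  have hH : MeasurableSet (H : Set UnitAddCircle) := H_countable.measurableSet
  have : fl ⁻¹' S = ((H : Set UnitAddCircle) ∩ fl ⁻¹' S) ∪ ((H : Set UnitAddCircle)ᶜ ∩ gl ⁻¹' S) := by
    ext y
    by_cases hy : y ∈ H
    · simp [hy]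
    · simp [hy, fl]
  rw [this]
  exact ((H_countable.mono Set.inter_subset_left).measurableSet).union
    (hH.compl.inter (meas_gl S))

theorem bm_fl : BaireMeas fl := fun S => (meas_fl S).baireMeasurableSet

section action

variable {n : ℕ} {α : Fin n → ℝ}

theorem rot_zero (x : UnitAddCircle) : rot α 0 x = x := by simp [rot]

theorem rot_add (a b : Fin n → ℤ) (x : UnitAddCircle) : rot α (a + b) x = rot α a (rot α b x) := by
  unfold rot
  have : (∑ i, ((a + b) i : ℝ) * α i) = (∑ i, (b i : ℝ) * α i) + (∑ i, (a i : ℝ) * α i) := by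
    rw [← Finset.sum_add_distrib]
    apply Finset.sum_congr rfl
    intro i _
    simp only [Pi.add_apply]
    push_cast
    ring
  rw [this, AddCircle.coe_add, add_assoc]

theorem rot_free (hα : Independent α) (a : Fin n → ℤ) (x : UnitAddCircle) (h : rot α a x = x) :
    a = 0 := by
  have h1 : ((∑ i, (a i : ℝ) * α i : ℝ) : UnitAddCircle) = 0 := by
    unfold rot at h
    exact add_eq_left.1 h
  rw [AddCircle.coe_eq_zero_iff] at h1
  obtain ⟨k, hk⟩ := h1
  have h2 := Fintype.linearIndependent_iff.1 hα (Fin.cons (-(k : ℚ)) (fun i => (a i : ℚ))) (by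
    rw [Fin.sum_univ_succ]
    simp only [Fin.cons_zero, Fin.cons_succ, Rat.smul_def, mul_one]
    simp only [zsmul_eq_mul, mul_one] at hk
    push_cast
    rw [← hk]
    ring)
  funext i
  have := h2 i.succ
  simp only [Fin.cons_succ] at this
  exact_mod_cast this

theorem rot_free_borel (hα : Independent α) : IsFreeBorelAction UnitAddCircle (rot α) where
  zero := rot_zero
  add := rot_add
  free := rot_free hα
  borel a U hU := by
    have hc : Continuous (rot α a) := by unfold rot; fun_prop
    exact MeasurableSpace.measurableSet_generateFrom (hU.preimage hc)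

/-- the circle carries a Borel solution -/
theorem solvable_circle (m1 m2 : Fin n → ℤ) (k1 k2 : ℤ) (h1 : alp = k1 + ∑ i, (m1 i : ℝ) * α i)
    (h2 : lam = k2 + ∑ i, (m2 i : ℝ) * α i) : Solvable (Prob m1 m2) UnitAddCircle (rot α) := by
  refine ⟨fl, bm_fl, ?_⟩
  rw [isLabeling_iff m1 m2 (rot α) rot_zero]
  intro y
  have hk : ∀ k : ℤ, ((k : ℝ) : UnitAddCircle) = 0 := by
    intro k
    rw [AddCircle.coe_eq_zero_iff]
    exact ⟨k, by simp⟩
  have e1 : rot α m1 y = y + (alp : UnitAddCircle) := by
    unfold rot
    rw [h1, AddCircle.coe_add, hk, zero_add]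
  have e2 : rot α m2 y = y + (lam : UnitAddCircle) := by
    unfold rot
    rw [h2, AddCircle.coe_add, hk, zero_add]
  rw [e1, e2]
  exact rules_fl y

theorem not_universal (m1 m2 : Fin n → ℤ) (k1 k2 : ℤ) (h1 : alp = k1 + ∑ i, (m1 i : ℝ) * α i)
    (h2 : lam = k2 + ∑ i, (m2 i : ℝ) * α i) : ¬ BaireUniversal UnitAddCircle (rot α) := fun h =>
  not_mem_BAIRE m1 m2 ((h (Prob m1 m2)).1 (solvable_circle m1 m2 k1 k2 h1 h2))

end action

end Pool.Agent.LibRot
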