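import Pool.Agent.LibRot.Lift
import Pool.Agent.LibRot.Lcl

set_option autoImplicit false

namespace Pool.Agent.LibRot

theorem irr_lam : Irrational lam := by
  rintro ⟨q, hq⟩
  have h1 := lam_gt; have h2 := lam_lt
  have he := lam_eq
  rw [← hq] at h1 h2 he
  have he' : q * (3 - q) * (4 - q) = 1 := by exact_mod_cast he
  have hpos : 0 < q := by
    have : (0 : ℝ) < q := by linarith
    exact_mod_cast this
  have hd : (0 : ℚ) < q.den := by exact_mod_cast q.den_pos
  have hn : 0 < q.num := Rat.num_pos.2 hpos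
  have e : q = q.num / q.den := (Rat.num_div_den q).symm
  have hz : q.num * (3 * q.den - q.num) * (4 * q.den - q.num) = (q.den : ℤ) ^ 3 := by
    have : (q.num : ℚ) * (3 * q.den - q.num) * (4 * q.den - q.num) = (q.den : ℚ) ^ 3 := by
      rw [e] at he'
      field_simp at he'
      linarith
    exact_mod_cast this
  have hcop : IsCoprime q.num ((q.den : ℤ) ^ 3) := by
    have := q.reduced
    have h : IsCoprime q.num (q.den : ℤ) := by
      rw [Int.isCoprime_iff_gcd_eq_one]
      simpa [Int.gcd, Nat.Coprime] using this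
    exact h.pow_right
  have hdvd : q.num ∣ (q.den : ℤ) ^ 3 :=
    ⟨(3 * q.den - q.num) * (4 * q.den - q.num), by rw [← hz]; ring⟩
  have hunit : IsUnit q.num := hcop.isUnit_of_dvd' (dvd_refl _) hdvd
  have h1n : q.num = 1 := by
    rcases Int.isUnit_iff.1 hunit with h | h <;> omega
  rw [h1n] at hz
  have hz2 : (q.den : ℤ) ∣ 1 := ⟨(q.den : ℤ) ^ 2 - 12 * q.den + 7, by
    have : (q.den : ℤ) ^ 3 = 12 * q.den ^ 2 - 7 * q.den + 1 := by rw [← hz]; ring
    linarith [this, (by ring : (q.den : ℤ) * ((q.den : ℤ) ^ 2 - 12 * q.den + 7) =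
      (q.den : ℤ) ^ 3 - 12 * q.den ^ 2 + 7 * q.den)]⟩
  have hden : (q.den : ℤ) = 1 := by
    have h3 := Int.le_of_dvd one_pos hz2
    have h4 : (0 : ℤ) < q.den := by exact_mod_cast q.den_pos
    omega
  rw [hden] at hz
  norm_num at hz

theorem irr_alp : Irrational alp := by
  have h1 := irr_lam
  have h2 := lam_alp
  have h3 := alp_gt
  rintro ⟨q, hq⟩
  apply h1
  refine ⟨(3 * q - 1) / q, ?_⟩
  rw [← hq] at h2 h3
  push_cast
  rw [div_eq_iff (by linarith)]
  linarith

/-- an arithmetic progression modulo one with irrational step does not stay in a short arc -/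
theorem no_short (β : ℝ) (hβ : Irrational β) (y : ℕ → ℝ) (c : ℝ)
    (h1 : ∀ m, ∃ k : ℤ, y (m + 1) = y m + β - k) (h2 : ∀ m, c ≤ y m ∧ y m ≤ c + 1 / 5) : False := by
  choose k hk using h1
  have hconst : ∀ m, k m = k 0 := by
    intro m
    have a1 := hk m; have a2 := hk 0
    have b1 := h2 m; have b2 := h2 (m + 1); have b3 := h2 0; have b4 := h2 (0 + 1)
    have c1 : |((k m - k 0 : ℤ) : ℝ)| < 1 := by
      push_cast
      rw [abs_lt]
      constructor <;> linarith [b1.1, b1.2, b2.1, b2.2, b3.1, b3.2, b4.1, b4.2]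
    have c2 : |k m - k 0| < 1 := by exact_mod_cast c1
    have := Int.abs_lt_one_iff.1 c2
    omega
  have hy : ∀ m : ℕ, y m = y 0 + m * (β - k 0) := by
    intro m
    induction m with
    | zero => simp
    | succ m ih => rw [hk m, hconst m, ih]; push_cast; ring
  have hne : β - k 0 ≠ 0 := fun h => hβ ⟨(k 0 : ℚ), by push_cast; linarith⟩
  obtain ⟨m, hm⟩ := exists_nat_gt (1 / |β - k 0|)
  have hpos : 0 < |β - k 0| := abs_pos.2 hne
  have h3 : 1 < m * |β - k 0| := by
    rw [div_lt_iff₀ hpos] at hm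
    exact hm
  have h4 : |y m - y 0| = m * |β - k 0| := by
    rw [hy m, add_sub_cancel_left, abs_mul, Nat.abs_cast]
  have h5 : |y m - y 0| ≤ 1 / 5 := by
    rw [abs_le]
    constructor <;> linarith [(h2 m).1, (h2 m).2, (h2 0).1, (h2 0).2]
  linarith

section odometer

variable {n : ℕ}

/-- translation of the two-adic odometer -/
noncomputable def odo (m : Fin n → ℤ) (x : Fin n → ℤ_[2]) : Fin n → ℤ_[2] := fun i => x i + (m i : ℤ_[2])

theorem odo_free : IsFreeBorelAction (Fin n → ℤ_[2]) (odo (n := n)) where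
  zero x := by funext i; simp [odo]
  add a b x := by funext i; simp [odo]; ring
  free a x h := by
    funext i
    have := congrFun h i
    simp only [odo, add_eq_left] at this
    simpa using this
  borel a U hU := by
    have hc : Continuous (odo (n := n) a) := by unfold odo; fun_prop
    exact MeasurableSpace.measurableSet_generateFrom (hU.preimage hc)

theorem odo_cont (a : Fin n → ℤ) : Continuous (odo (n := n) a) := by unfold odo; fun_prop

/-- translation as a homeomorphism -/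
noncomputable def odoHomeo (a : Fin n → ℤ) : (Fin n → ℤ_[2]) ≃ₜ (Fin n → ℤ_[2]) where
  toFun := odo a
  invFun := odo (-a)
  left_inv x := by rw [← odo_free.add, neg_add_cancel, odo_free.zero]
  right_inv x := by rw [← odo_free.add, add_neg_cancel, odo_free.zero]
  continuous_toFun := odo_cont a
  continuous_invFun := odo_cont (-a)

/-- For a Baire-measurable map to a finite set there is a label `b`, a point `x` and a positive
integer `N` such that all points `x + N m a` have label `b`. -/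
theorem odo_const {L : Type} [Finite L] (B : (Fin n → ℤ_[2]) → L)
    (hB : ∀ b, BaireMeasurableSet (B ⁻¹' {b})) (a : Fin n → ℤ) :
    ∃ (b : L) (x : Fin n → ℤ_[2]) (N : ℕ), 0 < N ∧
      ∀ m : ℕ, B (odo ((m * N : ℤ) • a) x) = b := by
  -- some label is not meagre
  have h1 : ∃ b, ¬ IsMeagre (B ⁻¹' {b}) := by
    by_contra hcon
    push Not at hcon
    have h2 : IsMeagre (⋃ b, B ⁻¹' {b}) := isMeagre_iUnion (fun b => hcon b)
    have h3 : (⋃ b, B ⁻¹' {b}) = (Set.univ : Set (Fin n → ℤ_[2])) := by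
      ext x; simp
    rw [h3] at h2
    have h4 : (∅ : Set (Fin n → ℤ_[2])) ∈ residual _ := by
      rw [IsMeagre, Set.compl_univ] at h2; exact h2
    have h5 := dense_of_mem_residual h4
    obtain ⟨x, hx⟩ := h5.nonempty
    exact hx
  obtain ⟨b, hb⟩ := h1
  obtain ⟨U, hU, hres⟩ := (hB b).residualEq_isOpen
  have hne : U.Nonempty := by
    by_contra hcon
    rw [Set.not_nonempty_iff_eq_empty] at hcon
    apply hb
    rw [IsMeagre]
    filter_upwards [hres] with x hx
    intro hxb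
    have : x ∈ U := by
      have := (eq_iff_iff.1 hx).1 hxb
      exact this
    rw [hcon] at this
    exact this
  obtain ⟨x0, hx0⟩ := hne
  obtain ⟨ε, hε, hball⟩ := Metric.isOpen_iff.1 hU x0 hx0
  -- a power of two that is small
  obtain ⟨K, hK⟩ : ∃ K : ℕ, (2 : ℝ) ^ (-(K : ℤ)) < ε := by
    obtain ⟨K, hK⟩ := exists_pow_lt_of_lt_one hε (by norm_num : (1 / 2 : ℝ) < 1)
    refine ⟨K, ?_⟩
    rw [zpow_neg, zpow_natCast]
    simpa using hK
  have htrans : ∀ (m : ℕ) (x : Fin n → ℤ_[2]), dist x x0 < ε →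
      dist (odo ((m * (2 ^ K : ℕ) : ℤ) • a) x) x0 < ε := by
    intro m x hx
    rw [dist_pi_lt_iff hε] at hx ⊢
    intro i
    have h1 := hx i
    have e : odo ((m * (2 ^ K : ℕ) : ℤ) • a) x i = x i + ((m * (2 ^ K : ℕ) * a i : ℤ) : ℤ_[2]) := by
      simp [odo]
    rw [e, dist_eq_norm]
    have e2 : x i + ((m * (2 ^ K : ℕ) * a i : ℤ) : ℤ_[2]) - x0 i =
        (x i - x0 i) + ((m * (2 ^ K : ℕ) * a i : ℤ) : ℤ_[2]) := by ring
    rw [e2]
    refine lt_of_le_of_lt (PadicInt.nonarchimedean _ _) (max_lt ?_ ?_)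
    · rw [← dist_eq_norm]; exact h1
    · have hdvd : ((2 : ℕ) : ℤ) ^ K ∣ (m * (2 ^ K : ℕ) * a i : ℤ) := ⟨m * a i, by push_cast; ring⟩
      have := (PadicInt.norm_int_le_pow_iff_dvd (p := 2)).2 hdvd
      refine lt_of_le_of_lt this ?_
      simpa using hK
  -- the good points
  have hgood : ∀ m : ℕ, {x : Fin n → ℤ_[2] | odo ((m * (2 ^ K : ℕ) : ℤ) • a) x ∈ U →
      B (odo ((m * (2 ^ K : ℕ) : ℤ) • a) x) = b} ∈ residual (Fin n → ℤ_[2]) := by
    intro m
    have ht := tendsto_residual_of_isOpenMap (odo_cont ((m * (2 ^ K : ℕ) : ℤ) • a))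
      (odoHomeo ((m * (2 ^ K : ℕ) : ℤ) • a)).isOpenMap
    have h := ht.eventually hres
    filter_upwards [h] with x hx
    intro hxU
    exact (eq_iff_iff.1 hx).2 hxU
  have hall : {x : Fin n → ℤ_[2] | ∀ m : ℕ, odo ((m * (2 ^ K : ℕ) : ℤ) • a) x ∈ U →
      B (odo ((m * (2 ^ K : ℕ) : ℤ) • a) x) = b} ∈ residual (Fin n → ℤ_[2]) := by
    have : {x : Fin n → ℤ_[2] | ∀ m : ℕ, odo ((m * (2 ^ K : ℕ) : ℤ) • a) x ∈ U →
        B (odo ((m * (2 ^ K : ℕ) : ℤ) • a) x) = b} =
        ⋂ m : ℕ, {x : Fin n → ℤ_[2] | odo ((m * (2 ^ K : ℕ) : ℤ) • a) x ∈ U →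
          B (odo ((m * (2 ^ K : ℕ) : ℤ) • a) x) = b} := by
      ext x; simp
    rw [this]
    exact countable_iInter_mem.2 hgood
  obtain ⟨x, hx1, hx2⟩ := (dense_of_mem_residual hall).inter_open_nonempty _ Metric.isOpen_ball
    ⟨x0, Metric.mem_ball_self hε⟩
  refine ⟨b, x, 2 ^ K, by positivity, fun m => ?_⟩
  exact hx2 m (hball (htrans m x hx1))

end odometer

end Pool.Agent.LibRot
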