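import Pool.Agent.LibRot.Circ2

set_option autoImplicit false

namespace Pool.Agent.LibRot

theorem e1P : ∀ b b' : Base, (Adj1 b b' ∧ IsP b) →
    (¬ IsP b' ∧ wire b' 1 = 1 ∧ (b.2.1 ≠ 2 ∧ b.2.2.val ≤ top b.1 (b.2.1 + 1))) := by
  decide +kernel
theorem e1_0 : ∀ b b' : Base, (Adj1 b b' ∧ ¬ IsP b ∧ wire b 0 = 0) → (¬ IsP b' ∧ wire b' 1 = 0) := by
  decide +kernel
theorem e1_1 : ∀ b b' : Base, (Adj1 b b' ∧ ¬ IsP b ∧ wire b 0 = 1) →
    (((b.2.1 ≠ 2 ∧ b.2.2.val ≤ top b.1 (b.2.1 + 1)) ∧ ¬ IsP b' ∧ wire b' 1 = 1) ∨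
      (b.2.1 = 2 ∧ IsP b')) := by
  decide +kernel
theorem e1_2 : ∀ b : Base, wire b 0 ≠ 2 := by decide +kernel
theorem e1_3 : ∀ b b' : Base, (Adj1 b b' ∧ wire b 0 = 3) →
    (b.2.1 = 2 ∧ ¬ IsP b' ∧ wire b' 1 = 2) := by
  decide +kernel
theorem e1_4 : ∀ b b' : Base, (Adj1 b b' ∧ wire b 0 = 4) →
    ((b.2.1 = 1 ∧ b.2.2 = 3 ∧ (b.1 = 1 ∨ b.1 = 2)) ∧ IsP b') := by
  decide +kernel
theorem e2P : ∀ b b' : Base, (Adj2 b b' ∧ IsP b) →
    (¬ IsP b' ∧ wire b' 3 = 2 ∧ b.2.2.val < top b.1 b.2.1) := by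
  decide +kernel
theorem e2_0 : ∀ b b' : Base, (Adj2 b b' ∧ ¬ IsP b ∧ wire b 2 = 0) → (¬ IsP b' ∧ wire b' 3 = 0) := by
  decide +kernel
theorem e2_1 : ∀ b : Base, wire b 2 ≠ 1 := by decide +kernel
theorem e2_2 : ∀ b b' : Base, (Adj2 b b' ∧ ¬ IsP b ∧ wire b 2 = 2) →
    (b.2.2.val < top b.1 b.2.1 ∧ ¬ IsP b' ∧ wire b' 3 = 2) := by
  decide +kernel
theorem e2_3 : ∀ b b' : Base, (Adj2 b b' ∧ wire b 2 = 3) →
    ((b.2.1 = 2 ∧ b.2.2.val = top b.1 2) ∧ IsP b') := by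
  decide +kernel
theorem e2_4 : ∀ b b' : Base, (Adj2 b b' ∧ wire b 2 = 4) →
    ((b.2.2.val = top b.1 b.2.1 ∧ b.2.1 ≠ 2) ∧ ¬ IsP b' ∧ wire b' 3 = 1) := by
  decide +kernel

/-- next-level labels around the cell with parameter `t` -/
noncomputable def Vv (t : ℝ) : Fin 4 → Base := ![bs t, bs (rot1 t), bs (rot2 t), bs (rot1 (rot2 t))]

noncomputable def lbl (θ : ℝ) : Lbl := (bs θ, Vv (cell θ))

noncomputable def dcol (d : Fin 4) (θ : ℝ) : Color :=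
  if d = 0 then (false, lbl θ, lbl (rot1 θ)) else if d = 1 then (false, lbl (unrot1 θ), lbl θ)
  else if d = 2 then (true, lbl θ, lbl (rot2 θ)) else (true, lbl (unrot2 θ), lbl θ)

/-- colours of ports, with fuel -/
noncomputable def Port : ℕ → Fin 4 → ℝ → Option Color
  | 0, _, _ => none
  | n + 1, d, θ =>
    if IsP (bs θ) then Port n d (cell θ)
    else if wire (bs θ) d = 0 then some (dcol d θ)
    else if wire (bs θ) d = 1 then Port n 0 (cell θ)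
    else if wire (bs θ) d = 2 then Port n 2 (cell θ)
    else if wire (bs θ) d = 3 then Port n 2 (rot1 (cell θ))
    else Port n 0 (rot2 (cell θ))

theorem Port_P (n : ℕ) (d : Fin 4) {θ : ℝ} (h : IsP (bs θ)) :
    Port (n + 1) d θ = Port n d (cell θ) := by
  rw [Port, if_pos h]

theorem Port_0 (n : ℕ) (d : Fin 4) {θ : ℝ} (h : ¬ IsP (bs θ)) (hw : wire (bs θ) d = 0) :
    Port (n + 1) d θ = some (dcol d θ) := by
  rw [Port, if_neg h, if_pos hw]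

theorem Port_1 (n : ℕ) (d : Fin 4) {θ : ℝ} (h : ¬ IsP (bs θ)) (hw : wire (bs θ) d = 1) :
    Port (n + 1) d θ = Port n 0 (cell θ) := by
  rw [Port, if_neg h, if_neg (by rw [hw]; decide), if_pos hw]

theorem Port_2 (n : ℕ) (d : Fin 4) {θ : ℝ} (h : ¬ IsP (bs θ)) (hw : wire (bs θ) d = 2) :
    Port (n + 1) d θ = Port n 2 (cell θ) := by
  rw [Port, if_neg h, if_neg (by rw [hw]; decide), if_neg (by rw [hw]; decide), if_pos hw]

theorem Port_3 (n : ℕ) (d : Fin 4) {θ : ℝ} (h : ¬ IsP (bs θ)) (hw : wire (bs θ) d = 3) :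
    Port (n + 1) d θ = Port n 2 (rot1 (cell θ)) := by
  rw [Port, if_neg h, if_neg (by rw [hw]; decide), if_neg (by rw [hw]; decide),
    if_neg (by rw [hw]; decide), if_pos hw]

theorem Port_4 (n : ℕ) (d : Fin 4) {θ : ℝ} (h : ¬ IsP (bs θ)) (hw : wire (bs θ) d = 4) :
    Port (n + 1) d θ = Port n 0 (rot2 (cell θ)) := by
  rw [Port, if_neg h, if_neg (by rw [hw]; decide), if_neg (by rw [hw]; decide),
    if_neg (by rw [hw]; decide), if_neg (by rw [hw]; decide)]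

theorem fin5_cases (w : Fin 5) : w = 0 ∨ w = 1 ∨ w = 2 ∨ w = 3 ∨ w = 4 := by
  fin_cases w <;> simp

/-- colours of the two ports of an edge agree -/
theorem Port_match (n : ℕ) : ∀ θ : ℝ, I θ →
    Port n 0 θ = Port n 1 (rot1 θ) ∧ Port n 2 θ = Port n 3 (rot2 θ) := by
  induction n with
  | zero => intro θ _; exact ⟨rfl, rfl⟩
  | succ n ih =>
    intro θ h
    have hc := cell_I h
    constructor
    · have ha := bs_adj1 h
      by_cases hP : IsP (bs θ)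
      · obtain ⟨h1, h2, h3⟩ := e1P _ _ ⟨ha, hP⟩
        rw [Port_P _ _ hP, Port_1 _ _ h1 h2, cell_inside1 h h3]
      · rcases fin5_cases (wire (bs θ) 0) with hw | hw | hw | hw | hw
        · obtain ⟨h1, h2⟩ := e1_0 _ _ ⟨ha, hP, hw⟩
          rw [Port_0 _ _ hP hw, Port_0 _ _ h1 h2]
          simp only [dcol, if_true, unrot1_rot1 h]
          simp
        · rcases e1_1 _ _ ⟨ha, hP, hw⟩ with ⟨h1, h2, h3⟩ | ⟨h1, h2⟩
          · rw [Port_1 _ _ hP hw, Port_1 _ _ h2 h3, cell_inside1 h h1]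
          · rw [Port_1 _ _ hP hw, Port_P _ _ h2, cell_cross1 h h1, (ih _ hc).1]
        · exact absurd hw (e1_2 _)
        · obtain ⟨h1, h2, h3⟩ := e1_3 _ _ ⟨ha, hw⟩
          rw [Port_3 _ _ hP hw, Port_2 _ _ h2 h3, cell_cross1 h h1]
        · obtain ⟨h1, h2⟩ := e1_4 _ _ ⟨ha, hw⟩
          rw [Port_4 _ _ hP hw, Port_P _ _ h2, cell_corner1 h h1, (ih _ (rot2_I hc)).1]
    · have ha := bs_adj2 h
      by_cases hP : IsP (bs θ)
      · obtain ⟨h1, h2, h3⟩ := e2P _ _ ⟨ha, hP⟩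
        rw [Port_P _ _ hP, Port_2 _ _ h1 h2, cell_inside2 h h3]
      · rcases fin5_cases (wire (bs θ) 2) with hw | hw | hw | hw | hw
        · obtain ⟨h1, h2⟩ := e2_0 _ _ ⟨ha, hP, hw⟩
          rw [Port_0 _ _ hP hw, Port_0 _ _ h1 h2]
          simp only [dcol, unrot2_rot2 h]
          simp
        · exact absurd hw (e2_1 _)
        · obtain ⟨h1, h2, h3⟩ := e2_2 _ _ ⟨ha, hP, hw⟩
          rw [Port_2 _ _ hP hw, Port_2 _ _ h2 h3, cell_inside2 h h1]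
        · obtain ⟨h1, h2⟩ := e2_3 _ _ ⟨ha, hw⟩
          rw [Port_3 _ _ hP hw, Port_P _ _ h2, cell_corner2 h h1, rot_comm hc,
            (ih _ (rot1_I hc)).2]
        · obtain ⟨h1, h2, h3⟩ := e2_4 _ _ ⟨ha, hw⟩
          rw [Port_4 _ _ hP hw, Port_1 _ _ h2 h3, cell_cross2 h h1]

theorem Port_mono (n : ℕ) : ∀ (d : Fin 4) (θ : ℝ) (c : Color), Port n d θ = some c →
    Port (n + 1) d θ = some c := by
  induction n with
  | zero => intro d θ c h; exact absurd h (by simp [Port])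
  | succ n ih =>
    intro d θ c h
    by_cases hP : IsP (bs θ)
    · rw [Port_P _ _ hP] at h ⊢; exact ih _ _ _ h
    · rcases fin5_cases (wire (bs θ) d) with hw | hw | hw | hw | hw
      · rw [Port_0 _ _ hP hw] at h ⊢; exact h
      · rw [Port_1 _ _ hP hw] at h ⊢; exact ih _ _ _ h
      · rw [Port_2 _ _ hP hw] at h ⊢; exact ih _ _ _ h
      · rw [Port_3 _ _ hP hw] at h ⊢; exact ih _ _ _ h
      · rw [Port_4 _ _ hP hw] at h ⊢; exact ih _ _ _ h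

theorem Port_mono' {m n : ℕ} (hmn : m ≤ n) {d : Fin 4} {θ : ℝ} {c : Color}
    (h : Port m d θ = some c) : Port n d θ = some c := by
  induction hmn with
  | refl => exact h
  | step _ ih => exact Port_mono _ _ _ _ ih

open Classical in
/-- the colour of a port -/
noncomputable def PT (d : Fin 4) (θ : ℝ) : Option Color :=
  if h : ∃ c n, Port n d θ = some c then some h.choose else none

theorem PT_iff (d : Fin 4) (θ : ℝ) (c : Color) : PT d θ = some c ↔ ∃ n, Port n d θ = some c := by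
  unfold PT
  split_ifs with h
  · obtain ⟨n, hn⟩ := h.choose_spec
    constructor
    · intro hc
      rw [Option.some.injEq] at hc
      exact ⟨n, by rw [← hc]; exact hn⟩
    · rintro ⟨m, hm⟩
      have h1 := Port_mono' (le_max_left n m) hn
      have h2 := Port_mono' (le_max_right n m) hm
      rw [h1] at h2
      exact h2
  · constructor
    · intro hc; exact absurd hc (by simp)
    · rintro ⟨m, hm⟩; exact absurd ⟨c, m, hm⟩ h

attribute [irreducible] PT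

theorem PT_eq_of_succ {d e : Fin 4} {θ θ' : ℝ} (h : ∀ n, Port (n + 1) d θ = Port n e θ') :
    PT d θ = PT e θ' := by
  apply Option.ext
  intro c
  rw [PT_iff, PT_iff]
  constructor
  · rintro ⟨n, hn⟩
    exact ⟨n, by rw [← h n]; exact Port_mono _ _ _ _ hn⟩
  · rintro ⟨n, hn⟩
    exact ⟨n + 1, by rw [h n]; exact hn⟩

theorem PT_eq_of {d e : Fin 4} {θ θ' : ℝ} (h : ∀ n, Port n d θ = Port n e θ') :
    PT d θ = PT e θ' := by
  apply Option.ext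
  intro c
  rw [PT_iff, PT_iff]
  simp only [h]

theorem PT_P (d : Fin 4) {θ : ℝ} (h : IsP (bs θ)) : PT d θ = PT d (cell θ) :=
  PT_eq_of_succ fun n => Port_P n d h
theorem PT_0 (d : Fin 4) {θ : ℝ} (h : ¬ IsP (bs θ)) (hw : wire (bs θ) d = 0) :
    PT d θ = some (dcol d θ) := (PT_iff _ _ _).2 ⟨1, Port_0 0 d h hw⟩
theorem PT_1 (d : Fin 4) {θ : ℝ} (h : ¬ IsP (bs θ)) (hw : wire (bs θ) d = 1) :
    PT d θ = PT 0 (cell θ) := PT_eq_of_succ fun n => Port_1 n d h hw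
theorem PT_2 (d : Fin 4) {θ : ℝ} (h : ¬ IsP (bs θ)) (hw : wire (bs θ) d = 2) :
    PT d θ = PT 2 (cell θ) := PT_eq_of_succ fun n => Port_2 n d h hw
theorem PT_3 (d : Fin 4) {θ : ℝ} (h : ¬ IsP (bs θ)) (hw : wire (bs θ) d = 3) :
    PT d θ = PT 2 (rot1 (cell θ)) := PT_eq_of_succ fun n => Port_3 n d h hw
theorem PT_4 (d : Fin 4) {θ : ℝ} (h : ¬ IsP (bs θ)) (hw : wire (bs θ) d = 4) :
    PT d θ = PT 0 (rot2 (cell θ)) := PT_eq_of_succ fun n => Port_4 n d h hw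
theorem PT_match0 {θ : ℝ} (h : I θ) : PT 0 θ = PT 1 (rot1 θ) :=
  PT_eq_of fun n => (Port_match n θ h).1
theorem PT_match2 {θ : ℝ} (h : I θ) : PT 2 θ = PT 3 (rot2 θ) :=
  PT_eq_of fun n => (Port_match n θ h).2

/-- the tile of an exact site -/
noncomputable def mkTile (θ : ℝ) : Tile where
  b := bs θ
  V := Vv (cell θ)
  col := fun d => PT d θ

theorem cons1_lbl {θ : ℝ} (h : I θ) : Cons1 (lbl θ) (lbl (rot1 θ)) := by
  refine ⟨bs_adj1 h, ?_, ?_⟩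
  · intro hc
    change Vv (cell (rot1 θ)) = Vv (cell θ)
    rw [cell_inside1 h hc]
  · intro hc
    change Vv (cell (rot1 θ)) 0 = Vv (cell θ) 1 ∧ Vv (cell (rot1 θ)) 2 = Vv (cell θ) 3
    rw [cell_cross1 h hc]
    refine ⟨rfl, ?_⟩
    change bs (rot2 (rot1 (cell θ))) = bs (rot1 (rot2 (cell θ)))
    rw [rot_comm (cell_I h)]

theorem cons2_lbl {θ : ℝ} (h : I θ) : Cons2 (lbl θ) (lbl (rot2 θ)) := by
  refine ⟨bs_adj2 h, ?_, ?_⟩
  · intro hc
    change Vv (cell (rot2 θ)) = Vv (cell θ)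
    rw [cell_inside2 h hc]
  · intro hc
    change Vv (cell (rot2 θ)) 0 = Vv (cell θ) 2 ∧ Vv (cell (rot2 θ)) 1 = Vv (cell θ) 3
    rw [cell_cross2 h hc]
    exact ⟨rfl, rfl⟩

theorem good_port {θ : ℝ} (h : I θ) (e : Fin 4) : Good e (bs θ) (PT e θ) := by
  intro hP hw
  have h0 := PT_0 e hP hw
  rcases fin4_cases e with rfl | rfl | rfl | rfl
  · refine ⟨lbl θ, lbl (rot1 θ), fun _ => ⟨h0, rfl, bs_adj1 h⟩, fun h => absurd h (by decide),
      fun h => absurd h (by decide), fun h => absurd h (by decide)⟩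
  · refine ⟨lbl (unrot1 θ), lbl θ, fun h => absurd h (by decide), fun _ => ⟨h0, rfl, ?_⟩,
      fun h => absurd h (by decide), fun h => absurd h (by decide)⟩
    have := bs_adj1 (unrot1_I h)
    rw [rot1_unrot1 h] at this
    exact this
  · refine ⟨lbl θ, lbl (rot2 θ), fun h => absurd h (by decide), fun h => absurd h (by decide),
      fun _ => ⟨h0, rfl, bs_adj2 h⟩, fun h => absurd h (by decide)⟩
  · refine ⟨lbl (unrot2 θ), lbl θ, fun h => absurd h (by decide), fun h => absurd h (by decide),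
      fun h => absurd h (by decide), fun _ => ⟨h0, rfl, ?_⟩⟩
    have := bs_adj2 (unrot2_I h)
    rw [rot2_unrot2 h] at this
    exact this

theorem wire_same : ∀ (b : Base) (d d' : Fin 4), wire b d ≠ 0 → wire b d' ≠ 0 →
    wire b d = wire b d' := by decide +kernel

theorem claim_cases (b : Base) (d k : Fin 4) (h : claim b d = some k) :
    ((d = 1 ∧ k = 0 ∧ wire b d = 1) ∨ (d = 3 ∧ k = 0 ∧ wire b d = 2) ∨
     (d = 0 ∧ k = 1 ∧ wire b d = 1) ∨ (d = 0 ∧ k = 3 ∧ wire b d = 4) ∨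
     (d = 2 ∧ k = 3 ∧ wire b d = 3)) := by
  unfold claim at h
  split_ifs at h with h1 h2 h3 h4 h5
  · rw [Option.some.injEq] at h
    left
    refine ⟨h1.2.2, h.symm, ?_⟩
    have key : ∀ b : Base, b.2.1 = 1 ∧ b.2.2 = 0 → wire b 1 = 1 := by decide +kernel
    rw [h1.2.2]; exact key b ⟨h1.1, h1.2.1⟩
  · rw [Option.some.injEq] at h
    right; left
    refine ⟨h2.2.2, h.symm, ?_⟩
    have key : ∀ b : Base, b.2.1 = 0 ∧ b.2.2 = 1 → wire b 3 = 2 := by decide +kernel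
    rw [h2.2.2]; exact key b ⟨h2.1, h2.2.1⟩
  · rw [Option.some.injEq] at h
    right; right; left
    refine ⟨h3.2.2.2, h.symm, ?_⟩
    have key : ∀ b : Base, b.2.1 = 2 ∧ b.2.2 = 0 ∧ c1 b.1 = 0 → wire b 0 = 1 := by decide +kernel
    rw [h3.2.2.2]; exact key b ⟨h3.1, h3.2.1, h3.2.2.1⟩
  · rw [Option.some.injEq] at h
    right; right; right; left
    refine ⟨h4.2.2.2, h.symm, ?_⟩
    have key : ∀ b : Base, b.2.1 = 1 ∧ b.2.2 = 3 ∧ (b.1 = 1 ∨ b.1 = 2) → wire b 0 = 4 := by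
      decide +kernel
    rw [h4.2.2.2]; exact key b ⟨h4.1, h4.2.1, h4.2.2.1⟩
  · rw [Option.some.injEq] at h
    right; right; right; right
    refine ⟨h5.2.2, h.symm, ?_⟩
    have key : ∀ b : Base, b.2.1 = 2 ∧ b.2.2.val = top b.1 2 → wire b 2 = 3 := by decide +kernel
    rw [h5.2.2]; exact key b ⟨h5.1, h5.2.1⟩

theorem mk_pass {θ : ℝ} (hP : ¬ IsP (bs θ)) (d d' : Fin 4) (hd : wire (bs θ) d ≠ 0)
    (hd' : wire (bs θ) d' ≠ 0) : PT d θ = PT d' θ := by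
  have hs := wire_same _ _ _ hd hd'
  rcases fin5_cases (wire (bs θ) d) with hw | hw | hw | hw | hw
  · exact absurd hw hd
  · rw [PT_1 d hP hw, PT_1 d' hP (hs.symm.trans hw)]
  · rw [PT_2 d hP hw, PT_2 d' hP (hs.symm.trans hw)]
  · rw [PT_3 d hP hw, PT_3 d' hP (hs.symm.trans hw)]
  · rw [PT_4 d hP hw, PT_4 d' hP (hs.symm.trans hw)]

theorem Vv0 (t : ℝ) : Vv t 0 = bs t := rfl
theorem Vv1 (t : ℝ) : Vv t 1 = bs (rot1 t) := rfl
theorem Vv2 (t : ℝ) : Vv t 2 = bs (rot2 t) := rfl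
theorem Vv3 (t : ℝ) : Vv t 3 = bs (rot1 (rot2 t)) := rfl

theorem mk_claims {θ : ℝ} (h : I θ) (hP : ¬ IsP (bs θ)) (d k : Fin 4)
    (hk : claim (bs θ) d = some k) : Good (opp d) (Vv (cell θ) k) (PT d θ) := by
  have hc := cell_I h
  rcases claim_cases _ _ _ hk with ⟨hd, hk', hw⟩ | ⟨hd, hk', hw⟩ | ⟨hd, hk', hw⟩ |
    ⟨hd, hk', hw⟩ | ⟨hd, hk', hw⟩
  · rw [PT_1 _ hP hw, hd, hk', Vv0]; exact good_port hc 0
  · rw [PT_2 _ hP hw, hd, hk', Vv0]; exact good_port hc 2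
  · rw [PT_1 _ hP hw, PT_match0 hc, hd, hk', Vv1]; exact good_port (rot1_I hc) 1
  · rw [PT_4 _ hP hw, PT_match0 (rot2_I hc), hd, hk', Vv3]
    exact good_port (rot1_I (rot2_I hc)) 1
  · rw [PT_3 _ hP hw, PT_match2 (rot1_I hc), ← rot_comm hc, hd, hk', Vv3]
    exact good_port (rot1_I (rot2_I hc)) 3

theorem mk_p1 {θ : ℝ} (h : I θ) : Cons1 (lbl (unrot1 θ)) (lbl θ) := by
  have := cons1_lbl (unrot1_I h)
  rw [rot1_unrot1 h] at this
  exact this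

theorem mk_p3 {θ : ℝ} (h : I θ) : Cons2 (lbl (unrot2 θ)) (lbl θ) := by
  have := cons2_lbl (unrot2_I h)
  rw [rot2_unrot2 h] at this
  exact this

theorem mk_0 {θ : ℝ} (h : I θ) (hP : ¬ IsP (bs θ)) (hw : wire (bs θ) 0 = 0) :
    ∃ l, PT 0 θ = some (false, lbl θ, l) ∧ Cons1 (lbl θ) l :=
  ⟨lbl (rot1 θ), PT_0 0 hP hw, cons1_lbl h⟩
theorem mk_1 {θ : ℝ} (h : I θ) (hP : ¬ IsP (bs θ)) (hw : wire (bs θ) 1 = 0) :
    ∃ l, PT 1 θ = some (false, l, lbl θ) ∧ Cons1 l (lbl θ) :=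
  ⟨lbl (unrot1 θ), PT_0 1 hP hw, mk_p1 h⟩
theorem mk_2 {θ : ℝ} (h : I θ) (hP : ¬ IsP (bs θ)) (hw : wire (bs θ) 2 = 0) :
    ∃ l, PT 2 θ = some (true, lbl θ, l) ∧ Cons2 (lbl θ) l :=
  ⟨lbl (rot2 θ), PT_0 2 hP hw, cons2_lbl h⟩
theorem mk_3 {θ : ℝ} (h : I θ) (hP : ¬ IsP (bs θ)) (hw : wire (bs θ) 3 = 0) :
    ∃ l, PT 3 θ = some (true, l, lbl θ) ∧ Cons2 l (lbl θ) :=
  ⟨lbl (unrot2 θ), PT_0 3 hP hw, mk_p3 h⟩

theorem mk_shape {θ : ℝ} (h : I θ) : (bs θ).1 = sh (Vv (cell θ) 0) := by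
  rw [Vv0]; exact shape_eq_sh (cell_I h)
theorem mk_adj1 {θ : ℝ} (h : I θ) : Adj1 (Vv (cell θ) 0) (Vv (cell θ) 1) := by
  rw [Vv0, Vv1]; exact bs_adj1 (cell_I h)
theorem mk_adj2 {θ : ℝ} (h : I θ) : Adj2 (Vv (cell θ) 0) (Vv (cell θ) 2) := by
  rw [Vv0, Vv2]; exact bs_adj2 (cell_I h)

theorem mkTile_b (θ : ℝ) : (mkTile θ).b = bs θ := rfl
theorem mkTile_V (θ : ℝ) : (mkTile θ).V = Vv (cell θ) := rfl
theorem mkTile_col (θ : ℝ) (d : Fin 4) : (mkTile θ).col d = PT d θ := rfl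
theorem mkTile_lbl (θ : ℝ) : ((mkTile θ).b, (mkTile θ).V) = lbl θ := rfl

theorem mkTile_ok {θ : ℝ} (h : I θ) (hP : ¬ IsP (bs θ)) : (mkTile θ).OK := by
  constructor
  · exact hP
  · exact bs_inR h
  · rw [mkTile_b, mkTile_V]; exact mk_shape h
  · rw [mkTile_V]; exact mk_adj1 h
  · rw [mkTile_V]; exact mk_adj2 h
  · rw [mkTile_lbl, mkTile_b, mkTile_col]; exact mk_0 h hP
  · rw [mkTile_lbl, mkTile_b, mkTile_col]; exact mk_1 h hP
  · rw [mkTile_lbl, mkTile_b, mkTile_col]; exact mk_2 h hP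
  · rw [mkTile_lbl, mkTile_b, mkTile_col]; exact mk_3 h hP
  · simp only [mkTile_b, mkTile_col]; exact mk_pass hP
  · simp only [mkTile_b, mkTile_V, mkTile_col]; exact mk_claims h hP

end Pool.Agent.LibRot
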