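import Pool.Agent.LibRot.Base

set_option autoImplicit false

namespace Pool.Agent.LibRot

/-- description of a vertex: its base label and the next-level labels of the own, right, up and
up-right promoted vertices -/
abbrev Lbl : Type := Base × (Fin 4 → Base)

/-- colours of ports: a direction (`false` horizontal) and the descriptions of the two ends -/
abbrev Color : Type := Bool × Lbl × Lbl

structure Tile : Type where
  b : Base
  V : Fin 4 → Base
  col : Fin 4 → Option Color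

def Cons1 (l l' : Lbl) : Prop :=
  Adj1 l.1 l'.1 ∧
  (l.1.2.1 ≠ 2 ∧ l.1.2.2.val ≤ top l.1.1 (l.1.2.1 + 1) → l'.2 = l.2) ∧
  (l.1.2.1 = 2 → l'.2 0 = l.2 1 ∧ l'.2 2 = l.2 3)

def Cons2 (l l' : Lbl) : Prop :=
  Adj2 l.1 l'.1 ∧
  (l.1.2.2.val < top l.1.1 l.1.2.1 → l'.2 = l.2) ∧
  (l.1.2.2.val = top l.1.1 l.1.2.1 ∧ l.1.2.1 ≠ 2 → l'.2 0 = l.2 2 ∧ l'.2 1 = l.2 3)

/-- the port opposite to a port -/
def opp (d : Fin 4) : Fin 4 := if d = 0 then 1 else if d = 1 then 0 else if d = 2 then 3 else 2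

/-- what the colour of port `e` of a promoted vertex must be, if its next-level label is `b` -/
def Good (e : Fin 4) (b : Base) (c : Option Color) : Prop :=
  ¬ IsP b → wire b e = 0 →
    ∃ l l' : Lbl,
      (e = 0 → c = some (false, l, l') ∧ l.1 = b ∧ Adj1 b l'.1) ∧
      (e = 1 → c = some (false, l, l') ∧ l'.1 = b ∧ Adj1 l.1 b) ∧
      (e = 2 → c = some (true, l, l') ∧ l.1 = b ∧ Adj2 b l'.1) ∧
      (e = 3 → c = some (true, l, l') ∧ l'.1 = b ∧ Adj2 l.1 b)

structure Tile.OK (t : Tile) : Prop where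
  exact_ : ¬ IsP t.b
  inR_ : inR t.b
  shape : t.b.1 = sh (t.V 0)
  adj1 : Adj1 (t.V 0) (t.V 1)
  adj2 : Adj2 (t.V 0) (t.V 2)
  p0 : wire t.b 0 = 0 → ∃ l, t.col 0 = some (false, (t.b, t.V), l) ∧ Cons1 (t.b, t.V) l
  p1 : wire t.b 1 = 0 → ∃ l, t.col 1 = some (false, l, (t.b, t.V)) ∧ Cons1 l (t.b, t.V)
  p2 : wire t.b 2 = 0 → ∃ l, t.col 2 = some (true, (t.b, t.V), l) ∧ Cons2 (t.b, t.V) l
  p3 : wire t.b 3 = 0 → ∃ l, t.col 3 = some (true, l, (t.b, t.V)) ∧ Cons2 l (t.b, t.V)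
  pass : ∀ d d', wire t.b d ≠ 0 → wire t.b d' ≠ 0 → t.col d = t.col d'
  claims : ∀ d k, claim t.b d = some k → Good (opp d) (t.V k) (t.col d)

/-- the base label: everything about a vertex that a window pattern may depend on -/
instance : Finite Tile :=
  Finite.of_injective (fun t : Tile => (t.b, t.V, t.col)) (by
    rintro ⟨b, V, c⟩ ⟨b', V', c'⟩ h
    simp only [Prod.mk.injEq] at h
    obtain ⟨rfl, rfl, rfl⟩ := h
    rfl)

/-- a pair of commuting permutations with a labeling that satisfies all rules -/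
structure Sys (X : Type) where
  f1 : Equiv.Perm X
  f2 : Equiv.Perm X
  comm : Commute f1 f2
  B : X → Base
  T : X → Tile
  adj1 : ∀ x, Adj1 (B x) (B (f1 x))
  adj2 : ∀ x, Adj2 (B x) (B (f2 x))
  tile : ∀ x, ¬ IsP (B x) → (T x).b = B x
  col1 : ∀ x, (T x).col 0 = (T (f1 x)).col 1
  col2 : ∀ x, (T x).col 2 = (T (f2 x)).col 3
  ok : ∀ x, (T x).OK

namespace Sys
variable {X : Type} (S : Sys X)

/-- the shift by `(a, b)` -/
def sft (a b : ℤ) (x : X) : X := (S.f1 ^ a) ((S.f2 ^ b) x)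

theorem sft_sft (a b a' b' : ℤ) (x : X) :
    S.sft a b (S.sft a' b' x) = S.sft (a + a') (b + b') x := by
  have h : Commute (S.f2 ^ b) (S.f1 ^ a') := (S.comm.symm.zpow_zpow b a')
  have e : (S.f2 ^ b) ((S.f1 ^ a') ((S.f2 ^ b') x)) = (S.f1 ^ a') ((S.f2 ^ b) ((S.f2 ^ b') x)) := by
    rw [← Equiv.Perm.mul_apply, h.eq, Equiv.Perm.mul_apply]
  simp only [sft, e, zpow_add, Equiv.Perm.mul_apply]

theorem sft_zero (x : X) : S.sft 0 0 x = x := by simp [sft]
theorem f1_eq (x : X) : S.f1 x = S.sft 1 0 x := by simp [sft]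
theorem f2_eq (x : X) : S.f2 x = S.sft 0 1 x := by simp [sft]

theorem sft_inj (a b : ℤ) {x y : X} (h : S.sft a b x = S.sft a b y) : x = y := by
  have := congrArg (S.sft (-a) (-b)) h
  simpa [sft_sft, sft_zero] using this

theorem sft_eq_iff (a b : ℤ) {x y : X} : S.sft a b x = y ↔ x = S.sft (-a) (-b) y := by
  constructor
  · rintro rfl; simp [sft_sft, sft_zero]
  · rintro rfl; simp [sft_sft, sft_zero]

theorem a1 (a b : ℤ) (x : X) : Adj1 (S.B (S.sft a b x)) (S.B (S.sft (a + 1) b x)) := by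
  have := S.adj1 (S.sft a b x)
  rwa [f1_eq, sft_sft, add_comm 1 a, zero_add] at this

theorem a2 (a b : ℤ) (x : X) : Adj2 (S.B (S.sft a b x)) (S.B (S.sft a (b + 1) x)) := by
  have := S.adj2 (S.sft a b x)
  rwa [f2_eq, sft_sft, add_comm 1 b, zero_add] at this

theorem t1 (a b : ℤ) (x : X) :
    (S.T (S.sft a b x)).col 0 = (S.T (S.sft (a + 1) b x)).col 1 := by
  have := S.col1 (S.sft a b x)
  rwa [f1_eq, sft_sft, add_comm 1 a, zero_add] at this

theorem t2 (a b : ℤ) (x : X) :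
    (S.T (S.sft a b x)).col 2 = (S.T (S.sft a (b + 1) x)).col 3 := by
  have := S.col2 (S.sft a b x)
  rwa [f2_eq, sft_sft, add_comm 1 b, zero_add] at this

end Sys

end Pool.Agent.LibRot
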